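import Mathlib

set_option autoImplicit false

namespace Pool.Agent.Lib.MP_164614_an

open Filter Topology WeakDual Metric

noncomputable section

/-- The spectrum (character space) of a commutative complex normed algebra, with the weak-star
(Gelfand) topology. -/
abbrev Spec (A : Type*) [NormedCommRing A] [NormedAlgebra ℂ A] : Type _ := ↥(characterSpace ℂ A)

/-- The value `φ f` of a character `φ` at an element `f` of the algebra. -/
abbrev evalAt {A : Type*} [NormedCommRing A] [NormedAlgebra ℂ A] (φ : Spec A) (f : A) : ℂ := φ f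

/-- `φ` is a strong boundary point: for every neighbourhood `U` of `φ` and every `ε > 0` there is
`f` with `‖f‖ = φ f = 1` and `|ψ f| < ε` for all characters `ψ` outside `U`. -/
def StrongBoundary {A : Type*} [NormedCommRing A] [NormedAlgebra ℂ A] (φ : Spec A) : Prop :=
  ∀ U ∈ 𝓝 φ, ∀ ε : ℝ, 0 < ε → ∃ f : A,
    ‖f‖ = 1 ∧ evalAt φ f = 1 ∧ ∀ ψ : Spec A, ψ ∉ U → ‖evalAt ψ f‖ < ε

section

variable {X : Type*} [NormedAddCommGroup X]

lemma uc_add {f g : BoundedContinuousFunction (ball (0 : X) 1) ℂ} (hf : UniformContinuous f)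
    (hg : UniformContinuous g) : UniformContinuous (f + g) := by
  have : (⇑(f + g) : ball (0 : X) 1 → ℂ) = fun x => f x + g x := rfl
  rw [this]; exact hf.add hg

lemma uc_mul {f g : BoundedContinuousFunction (ball (0 : X) 1) ℂ} (hf : UniformContinuous f)
    (hg : UniformContinuous g) : UniformContinuous (f * g) := by
  rw [Metric.uniformContinuous_iff] at hf hg ⊢
  intro ε hε
  have hC : 0 < ‖f‖ + ‖g‖ + 1 := by positivity
  obtain ⟨δ₁, hδ₁, h₁⟩ := hf (ε / (‖f‖ + ‖g‖ + 1)) (by positivity)
  obtain ⟨δ₂, hδ₂, h₂⟩ := hg (ε / (‖f‖ + ‖g‖ + 1)) (by positivity)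
  refine ⟨min δ₁ δ₂, lt_min hδ₁ hδ₂, fun {a b} hab => ?_⟩
  have ha := h₁ (lt_of_lt_of_le hab (min_le_left _ _))
  have hb := h₂ (lt_of_lt_of_le hab (min_le_right _ _))
  rw [dist_eq_norm] at ha hb ⊢
  have e : (f * g) a - (f * g) b = f a * (g a - g b) + (f a - f b) * g b := by
    simp only [BoundedContinuousFunction.coe_mul, Pi.mul_apply]; ring
  rw [e]
  refine lt_of_le_of_lt (norm_add_le _ _) ?_
  rw [norm_mul, norm_mul]
  have n1 := f.norm_coe_le_norm a
  have n2 := g.norm_coe_le_norm b
  have m1 : ‖f a‖ * ‖g a - g b‖ ≤ ‖f‖ * (ε / (‖f‖ + ‖g‖ + 1)) := by gcongr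
  have m2 : ‖f a - f b‖ * ‖g b‖ ≤ (ε / (‖f‖ + ‖g‖ + 1)) * ‖g‖ := by gcongr
  have m3 : ‖f‖ * (ε / (‖f‖ + ‖g‖ + 1)) + (ε / (‖f‖ + ‖g‖ + 1)) * ‖g‖ < ε := by
    have : ‖f‖ * (ε / (‖f‖ + ‖g‖ + 1)) + (ε / (‖f‖ + ‖g‖ + 1)) * ‖g‖
        = ε * ((‖f‖ + ‖g‖) / (‖f‖ + ‖g‖ + 1)) := by ring
    rw [this]
    have h4 : (‖f‖ + ‖g‖) / (‖f‖ + ‖g‖ + 1) < 1 := by
      rw [div_lt_one hC]; linarith
    nlinarith
  linarith

end

variable (X : Type*) [NormedAddCommGroup X] [NormedSpace ℂ X]

/-- Membership in the uniform algebra `A_u(B_X)`: uniform continuity and holomorphy (complex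
Frechet differentiability) on the open unit ball. -/
def IsAu (f : BoundedContinuousFunction (ball (0 : X) 1) ℂ) : Prop :=
  UniformContinuous f ∧ ∃ F : X → ℂ, DifferentiableOn ℂ F (ball (0 : X) 1) ∧
    ∀ x : ball (0 : X) 1, f x = F x

lemma isAu_mul (f g : BoundedContinuousFunction (ball (0 : X) 1) ℂ) (hf : IsAu X f)
    (hg : IsAu X g) : IsAu X (f * g) := by
  obtain ⟨hf, F, hF, hfF⟩ := hf
  obtain ⟨hg, G, hG, hgG⟩ := hg
  refine ⟨uc_mul hf hg, fun x => F x * G x, hF.mul hG, fun x => ?_⟩
  simp only [BoundedContinuousFunction.coe_mul, Pi.mul_apply, hfF, hgG]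

lemma isAu_add (f g : BoundedContinuousFunction (ball (0 : X) 1) ℂ) (hf : IsAu X f)
    (hg : IsAu X g) : IsAu X (f + g) := by
  obtain ⟨hf, F, hF, hfF⟩ := hf
  obtain ⟨hg, G, hG, hgG⟩ := hg
  refine ⟨uc_add hf hg, fun x => F x + G x, hF.add hG, fun x => ?_⟩
  simp only [BoundedContinuousFunction.coe_add, Pi.add_apply, hfF, hgG]

lemma isAu_algebraMap (r : ℂ) :
    IsAu X (algebraMap ℂ (BoundedContinuousFunction (ball (0 : X) 1) ℂ) r) := by
  refine ⟨?_, fun _ => r, differentiableOn_const _, fun x => ?_⟩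
  · have : (⇑(algebraMap ℂ (BoundedContinuousFunction (ball (0 : X) 1) ℂ) r) :
        ball (0 : X) 1 → ℂ) = fun _ => r := by
      ext x; simp [BoundedContinuousFunction.algebraMap_apply]
    rw [this]; exact uniformContinuous_const
  · simp [BoundedContinuousFunction.algebraMap_apply]

/-- The uniform algebra `A_u(B_X)`: the bounded functions on the open unit ball of the complex
normed space `X` which are holomorphic (complex Frechet differentiable) and uniformly continuous on
the open unit ball, with the supremum norm.  (A uniformly continuous function on the ball is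
automatically bounded.) -/
def Au : Subalgebra ℂ (BoundedContinuousFunction (ball (0 : X) 1) ℂ) where
  carrier := {f | IsAu X f}
  mul_mem' := fun {f g} hf hg => isAu_mul X f g hf hg
  add_mem' := fun {f g} hf hg => isAu_add X f g hf hg
  algebraMap_mem' := isAu_algebraMap X

variable {X}

lemma norm_dual_ball_le (l : StrongDual ℂ X) (x : ball (0 : X) 1) : ‖l x‖ ≤ ‖l‖ := by
  refine (l.le_opNorm _).trans ?_
  have : ‖(x : X)‖ ≤ 1 := by
    have := x.2
    rw [mem_ball_zero_iff] at this
    exact this.le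
  calc ‖l‖ * ‖(x : X)‖ ≤ ‖l‖ * 1 := by gcongr
    _ = ‖l‖ := mul_one _

/-- The restriction of a continuous linear functional to the open unit ball, as a bounded
continuous function. -/
def dualBCF (l : StrongDual ℂ X) : BoundedContinuousFunction (ball (0 : X) 1) ℂ :=
  BoundedContinuousFunction.ofNormedAddCommGroup (fun x : ball (0 : X) 1 => l x)
    (l.continuous.comp continuous_subtype_val) ‖l‖ (norm_dual_ball_le l)

lemma isAu_dualBCF (l : StrongDual ℂ X) : IsAu X (dualBCF l) :=
  ⟨l.uniformContinuous.comp uniformContinuous_subtype_val, l,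
    l.differentiable.differentiableOn, fun _ => rfl⟩

/-- The restriction of a continuous linear functional to the open unit ball, as an element of
`A_u(B_X)`. -/
def ofDual (l : StrongDual ℂ X) : Au X := ⟨dualBCF l, isAu_dualBCF l⟩

/-- The spectrum of `A_u(B_X)`. -/
abbrev AuSpec (X : Type*) [NormedAddCommGroup X] [NormedSpace ℂ X] : Type _ := Spec (Au X)

/-- The fiber of the spectrum of `A_u(B_X)` over a point `z` of the bidual: all characters whose
restriction to the dual space is `z`. -/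
def fiber (z : StrongDual ℂ (StrongDual ℂ X)) : Set (AuSpec X) :=
  {φ | ∀ l : StrongDual ℂ X, evalAt φ (ofDual l) = z l}

/-- Every fiber of the spectrum of `A_u(B_X)` over a point of the closed unit ball of the bidual
contains a strong boundary point. -/
def EveryFiberHasStrongBoundaryPoint (X : Type*) [NormedAddCommGroup X] [NormedSpace ℂ X] : Prop :=
  ∀ z : StrongDual ℂ (StrongDual ℂ X), ‖z‖ ≤ 1 → ∃ φ ∈ fiber z, StrongBoundary φ

end

end Pool.Agent.Lib.MP_164614_an
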