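import Mathlib
import Pool.Agent.Lib.MP_164614_an.Defs

set_option autoImplicit false

namespace Pool.Agent.Lib.MP_164614_an

open Set Filter Topology WeakDual

noncomputable section

variable {A : Type*} [NormedCommRing A] [NormedAlgebra ℂ A] [CompleteSpace A]

omit [CompleteSpace A] in
lemma cont_ev (f : A) : Continuous fun ψ : Spec A => ψ f := by
  exact (WeakDual.eval_continuous f).comp continuous_subtype_val

lemma norm_ev_le (h1 : ‖(1 : A)‖ ≤ 1) (f : A) (ψ : Spec A) : ‖ψ f‖ ≤ ‖f‖ := by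
  have h := WeakDual.CharacterSpace.norm_le_norm_one ψ
  have h2 := (toStrongDual (ψ : WeakDual ℂ A)).le_opNorm f
  calc ‖ψ f‖ = ‖(toStrongDual (ψ : WeakDual ℂ A)) f‖ := rfl
    _ ≤ _ := h2
    _ ≤ 1 * ‖f‖ := by gcongr; exact h.trans h1
    _ = ‖f‖ := one_mul _

/-- The property used in Bishop's argument. -/
structure Good (F : Set (Spec A)) : Prop where
  ne : F.Nonempty
  cl : IsClosed F
  sep : ∀ U : Set (Spec A), IsOpen U → F ⊆ U → ∃ f : A, (∀ ψ ∈ F, ψ f = 1) ∧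
    (∀ ψ : Spec A, ‖ψ f‖ ≤ 5 / 4) ∧ ∀ ψ : Spec A, ψ ∉ U → ‖ψ f‖ ≤ 1 / 4

omit [CompleteSpace A] in
/-- one step of the Bishop sum -/
lemma bishop_step {F : Set (Spec A)} (hF : Good F) {U : Set (Spec A)} (hU : IsOpen U) (hFU : F ⊆ U)
    (n : ℕ) (s : A) (hs1 : ∀ ψ ∈ F, ψ s = 1 - (1 / 2 : ℂ) ^ n)
    (hs2 : ∀ ψ : Spec A, ‖ψ s‖ ≤ 1 - (1 / 2 : ℝ) ^ (n + 2)) :
    ∃ f : A, (∀ ψ ∈ F, ψ f = 1) ∧ (∀ ψ : Spec A, ‖ψ f‖ ≤ 5 / 4) ∧
      (∀ ψ : Spec A, ψ ∉ U → ‖ψ f‖ ≤ 1 / 4) ∧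
      (∀ ψ : Spec A, ‖ψ (s + ((1 / 2 : ℂ) ^ (n + 1)) • f)‖ ≤ 1 - (1 / 2 : ℝ) ^ (n + 3)) := by
  set V : Set (Spec A) := U ∩ {ψ | ‖ψ s‖ < 1 - (1 / 2 : ℝ) ^ n + (1 / 2 : ℝ) ^ (n + 3)} with hV
  have hVo : IsOpen V := hU.inter (isOpen_lt (cont_ev s).norm continuous_const)
  have hFV : F ⊆ V := by
    intro ψ hψ
    refine ⟨hFU hψ, ?_⟩
    have : ‖ψ s‖ = 1 - (1 / 2 : ℝ) ^ n := by
      rw [hs1 ψ hψ]
      have h1 : (0 : ℝ) ≤ 1 - (1 / 2 : ℝ) ^ n := by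
        have := pow_le_one₀ (n := n) (by norm_num : (0 : ℝ) ≤ 1 / 2) (by norm_num); linarith
      have h2 : (1 : ℂ) - (1 / 2 : ℂ) ^ n = (((1 : ℝ) - (1 / 2 : ℝ) ^ n : ℝ) : ℂ) := by push_cast; ring
      rw [h2, Complex.norm_real, Real.norm_of_nonneg h1]
    simp only [mem_ofPred_eq, this]
    have : (0 : ℝ) < (1 / 2 : ℝ) ^ (n + 3) := by positivity
    linarith
  obtain ⟨f, hf1, hf2, hf3⟩ := hF.sep V hVo hFV
  refine ⟨f, hf1, hf2, fun ψ hψ => hf3 ψ (fun h => hψ h.1), fun ψ => ?_⟩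
  have e1 : ψ (s + ((1 / 2 : ℂ) ^ (n + 1)) • f) = ψ s + (1 / 2 : ℂ) ^ (n + 1) * ψ f := by
    rw [map_add, map_smul, smul_eq_mul]
  have e2 : ‖ψ (s + ((1 / 2 : ℂ) ^ (n + 1)) • f)‖ ≤ ‖ψ s‖ + (1 / 2 : ℝ) ^ (n + 1) * ‖ψ f‖ := by
    rw [e1]
    refine (norm_add_le _ _).trans ?_
    rw [norm_mul, norm_pow]
    norm_num
  have p1 : (1 / 2 : ℝ) ^ (n + 1) = (1 / 2 : ℝ) ^ n / 2 := by ring
  have p2 : (1 / 2 : ℝ) ^ (n + 2) = (1 / 2 : ℝ) ^ n / 4 := by ring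
  have p3 : (1 / 2 : ℝ) ^ (n + 3) = (1 / 2 : ℝ) ^ n / 8 := by ring
  have pp : (0 : ℝ) < (1 / 2 : ℝ) ^ n := by positivity
  by_cases hψV : ψ ∈ V
  · have h3 := hψV.2
    simp only [mem_ofPred_eq] at h3
    have h4 := hf2 ψ
    rw [p3] at h3 ⊢
    rw [p1] at e2
    nlinarith
  · have h4 := hf3 ψ hψV
    have h5 := hs2 ψ
    rw [p1] at e2
    rw [p2] at h5
    rw [p3]
    nlinarith

/-- **Bishop's sum**: a good set is a peak-type set with norm one functions. -/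
theorem Good.peak (hn : ∀ (f : A) (r : ℝ), 0 ≤ r → (∀ ψ : Spec A, ‖ψ f‖ ≤ r) → ‖f‖ ≤ r)
    {F : Set (Spec A)} (hF : Good F) {U : Set (Spec A)} (hU : IsOpen U)
    (hFU : F ⊆ U) : ∃ g : A, (∀ ψ ∈ F, ψ g = 1) ∧ (∀ ψ : Spec A, ‖ψ g‖ ≤ 1) ∧
      ∀ ψ : Spec A, ψ ∉ U → ‖ψ g‖ ≤ 1 / 4 := by
  classical
  let Inv : ℕ → A → Prop := fun n s => (∀ ψ ∈ F, ψ s = 1 - (1 / 2 : ℂ) ^ n) ∧
    (∀ ψ : Spec A, ‖ψ s‖ ≤ 1 - (1 / 2 : ℝ) ^ (n + 2)) ∧
    (∀ ψ : Spec A, ψ ∉ U → ‖ψ s‖ ≤ (1 - (1 / 2 : ℝ) ^ n) / 4)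
  have step : ∀ n (s : A), Inv n s → ∃ s', Inv (n + 1) s' ∧ ‖s' - s‖ ≤ (5 / 4) * (1 / 2 : ℝ) ^ (n + 1) := by
    intro n s hs
    obtain ⟨f, hf1, hf2, hf3, hf4⟩ := bishop_step hF hU hFU n s hs.1 hs.2.1
    refine ⟨s + ((1 / 2 : ℂ) ^ (n + 1)) • f, ⟨?_, hf4, ?_⟩, ?_⟩
    · intro ψ hψ
      rw [map_add, map_smul, hs.1 ψ hψ, hf1 ψ hψ, smul_eq_mul, mul_one]
      ring
    · intro ψ hψ
      have h1 := hs.2.2 ψ hψ
      have h2 := hf3 ψ hψ
      rw [map_add, map_smul, smul_eq_mul]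
      refine (norm_add_le _ _).trans ?_
      rw [norm_mul, norm_pow]
      have e : ‖(1 / 2 : ℂ)‖ = 1 / 2 := by norm_num
      rw [e]
      have pp : (0 : ℝ) < (1 / 2 : ℝ) ^ n := by positivity
      have p1 : (1 / 2 : ℝ) ^ (n + 1) = (1 / 2 : ℝ) ^ n / 2 := by ring
      rw [p1]
      nlinarith
    · rw [add_sub_cancel_left]
      have e : ‖(1 / 2 : ℂ)‖ = 1 / 2 := by norm_num
      rw [norm_smul, norm_pow, e, mul_comm]
      gcongr
      exact hn f _ (by norm_num) hf2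
  have inv0 : Inv 0 (0 : A) := by
    refine ⟨fun ψ _ => by simp, fun ψ => ?_, fun ψ _ => ?_⟩
    · rw [map_zero, norm_zero]; norm_num
    · rw [map_zero, norm_zero]; norm_num
  let seq : (n : ℕ) → {s : A // Inv n s} := fun n =>
    Nat.rec (motive := fun n => {s : A // Inv n s}) ⟨0, inv0⟩
      (fun n s => ⟨(step n s.1 s.2).choose, (step n s.1 s.2).choose_spec.1⟩) n
  have hseq : ∀ n, ‖(seq (n + 1)).1 - (seq n).1‖ ≤ (5 / 4) * (1 / 2 : ℝ) ^ (n + 1) := fun n =>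
    (step n (seq n).1 (seq n).2).choose_spec.2
  have hC : CauchySeq fun n => (seq n).1 := by
    refine cauchySeq_of_le_geometric (1 / 2 : ℝ) (5 / 8) (by norm_num) (fun n => ?_)
    rw [dist_eq_norm, ← norm_neg, neg_sub]
    refine (hseq n).trans (le_of_eq ?_)
    ring
  obtain ⟨g, hg⟩ := cauchySeq_tendsto_of_complete hC
  have hev : ∀ ψ : Spec A, Tendsto (fun n => ψ (seq n).1) atTop (𝓝 (ψ g)) := fun ψ =>
    (((map_continuous ψ).tendsto g).comp hg)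
  have hhalf : Tendsto (fun n : ℕ => (1 / 2 : ℂ) ^ n) atTop (𝓝 0) :=
    tendsto_pow_atTop_nhds_zero_of_norm_lt_one (by norm_num)
  refine ⟨g, fun ψ hψ => ?_, fun ψ => ?_, fun ψ hψ => ?_⟩
  · have h1 : Tendsto (fun n : ℕ => (1 : ℂ) - (1 / 2 : ℂ) ^ n) atTop (𝓝 (1 - 0)) :=
      tendsto_const_nhds.sub hhalf
    rw [sub_zero] at h1
    refine tendsto_nhds_unique (hev ψ) (h1.congr fun n => ((seq n).2.1 ψ hψ).symm)
  · refine le_of_tendsto (hev ψ).norm (Eventually.of_forall fun n => ?_)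
    refine ((seq n).2.2.1 ψ).trans ?_
    have : (0 : ℝ) ≤ (1 / 2 : ℝ) ^ (n + 2) := by positivity
    linarith
  · refine le_of_tendsto (hev ψ).norm (Eventually.of_forall fun n => ?_)
    refine ((seq n).2.2.2 ψ hψ).trans ?_
    have : (0 : ℝ) ≤ (1 / 2 : ℝ) ^ n := by positivity
    linarith

/-- Intersections of chains of good sets are good. -/
theorem Good.sInter {c : Set (Set (Spec A))} (hc : ∀ F ∈ c, Good F) (hch : IsChain (· ⊆ ·) c)
    (hne : c.Nonempty) : Good (⋂₀ c) := by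
  have hdir : DirectedOn (· ⊇ ·) c := by
    intro x hx y hy
    rcases hch.total hx hy with h | h
    · exact ⟨x, hx, Subset.rfl, h⟩
    · exact ⟨y, hy, h, Subset.rfl⟩
  have hcl : IsClosed (⋂₀ c) := isClosed_sInter fun F hF => (hc F hF).cl
  have hex : ∀ U : Set (Spec A), IsOpen U → ⋂₀ c ⊆ U → ∃ C ∈ c, C ⊆ U := by
    intro U hU hcU
    obtain ⟨C, hC⟩ := hne
    by_contra hcon
    push Not at hcon
    have : Nonempty ↑((fun C => C ∩ Uᶜ) '' c) := ⟨⟨_, C, hC, rfl⟩⟩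
    have : (⋂₀ ((fun C => C ∩ Uᶜ) '' c)).Nonempty := by
      refine IsCompact.nonempty_sInter_of_directed_nonempty_isCompact_isClosed ?_ ?_ ?_ ?_
      · rintro _ ⟨x, hx, rfl⟩ _ ⟨y, hy, rfl⟩
        obtain ⟨w, hw, h1, h2⟩ := hdir x hx y hy
        exact ⟨_, ⟨w, hw, rfl⟩, inter_subset_inter_left _ h1, inter_subset_inter_left _ h2⟩
      · rintro _ ⟨x, hx, rfl⟩
        obtain ⟨a, ha, ha'⟩ := not_subset.mp (hcon x hx)
        exact ⟨a, ha, ha'⟩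
      · rintro _ ⟨x, hx, rfl⟩
        exact ((hc x hx).cl.inter hU.isClosed_compl).isCompact
      · rintro _ ⟨x, hx, rfl⟩
        exact (hc x hx).cl.inter hU.isClosed_compl
    obtain ⟨a, ha⟩ := this
    have h1 : a ∈ ⋂₀ c := fun x hx => (ha _ ⟨x, hx, rfl⟩).1
    exact (ha _ ⟨C, hC, rfl⟩).2 (hcU h1)
  refine ⟨?_, hcl, ?_⟩
  · by_contra hcon
    rw [not_nonempty_iff_eq_empty] at hcon
    obtain ⟨C, hC, hC2⟩ := hex ∅ isOpen_empty (by rw [hcon])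
    obtain ⟨a, ha⟩ := (hc C hC).ne
    exact hC2 ha
  · intro U hU hcU
    obtain ⟨C, hC, hC2⟩ := hex U hU hcU
    obtain ⟨f, h1, h2, h3⟩ := (hc C hC).sep U hU hC2
    exact ⟨f, fun ψ hψ => h1 ψ (hψ C hC), h2, h3⟩

/-- Peak subsets of good sets are good. -/
theorem Good.peak_subset (h1 : ‖(1 : A)‖ ≤ 1)
    (hn : ∀ (f : A) (r : ℝ), 0 ≤ r → (∀ ψ : Spec A, ‖ψ f‖ ≤ r) → ‖f‖ ≤ r)
    {F : Set (Spec A)} (hF : Good F) (h : A) (hle : ∀ ψ ∈ F, ‖ψ h‖ ≤ 1)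
    (hlt : ∀ ψ ∈ F, ψ h = 1 ∨ ‖ψ h‖ < 1) (hex : ∃ ψ ∈ F, ψ h = 1) :
    Good {ψ : Spec A | ψ ∈ F ∧ ψ h = 1} := by
  refine ⟨?_, ?_, ?_⟩
  · obtain ⟨ψ, a, b⟩ := hex
    exact ⟨ψ, a, b⟩
  · exact hF.cl.inter (isClosed_eq (cont_ev h) continuous_const)
  · intro U hU hFU
    -- the compact set F \ U
    have hK : IsCompact (F ∩ Uᶜ) := (hF.cl.inter hU.isClosed_compl).isCompact
    obtain ⟨q, hq0, hq1, hq⟩ : ∃ q : ℝ, 0 ≤ q ∧ q < 1 ∧ ∀ ψ ∈ F ∩ Uᶜ, ‖ψ h‖ ≤ q := by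
      rcases (F ∩ Uᶜ).eq_empty_or_nonempty with he | hne
      · exact ⟨0, le_rfl, zero_lt_one, by rw [he]; simp⟩
      · obtain ⟨φ, hφ, hmax⟩ := hK.exists_isMaxOn hne (cont_ev h).norm.continuousOn
        refine ⟨‖φ h‖, norm_nonneg _, ?_, fun ψ hψ => hmax hψ⟩
        rcases hlt φ hφ.1 with h' | h'
        · exact absurd (hFU ⟨hφ.1, h'⟩) hφ.2
        · exact h'
    obtain ⟨m, hm⟩ := exists_pow_lt_of_lt_one (show (0 : ℝ) < 1 / 4 by norm_num) hq1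
    set u := h ^ m with hu
    have hψu : ∀ ψ : Spec A, ψ u = (ψ h) ^ m := fun ψ => by rw [hu, map_pow]
    set W : Set (Spec A) := {ψ | ‖ψ u‖ < 5 / 4} ∩ (U ∪ {ψ | ‖ψ u‖ < 1 / 4}) with hW
    have hWo : IsOpen W := (isOpen_lt (cont_ev u).norm continuous_const).inter
      (hU.union (isOpen_lt (cont_ev u).norm continuous_const))
    have hFW : F ⊆ W := by
      intro ψ hψ
      refine ⟨?_, ?_⟩
      · simp only [mem_ofPred_eq, hψu, norm_pow]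
        exact lt_of_le_of_lt (pow_le_one₀ (norm_nonneg _) (hle ψ hψ)) (by norm_num)
      · by_cases hψU : ψ ∈ U
        · exact Or.inl hψU
        · right
          simp only [mem_ofPred_eq, hψu, norm_pow]
          exact lt_of_le_of_lt (pow_le_pow_left₀ (norm_nonneg _) (hq ψ ⟨hψ, hψU⟩) m) hm
    obtain ⟨g, hg1, hg2, hg3⟩ := hF.peak hn hWo hFW
    obtain ⟨j, hj⟩ : ∃ j : ℕ, ‖u‖ * (1 / 4 : ℝ) ^ j ≤ 1 / 4 := by
      have ht : Tendsto (fun j : ℕ => ‖u‖ * (1 / 4 : ℝ) ^ j) atTop (𝓝 (‖u‖ * 0)) :=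
        (tendsto_pow_atTop_nhds_zero_of_lt_one (by norm_num) (by norm_num)).const_mul _
      rw [mul_zero] at ht
      have := ht.eventually (eventually_le_nhds (show (0 : ℝ) < 1 / 4 by norm_num))
      exact this.exists
    have hval : ∀ ψ : Spec A, ‖ψ (u * g ^ j)‖ = ‖ψ u‖ * ‖ψ g‖ ^ j := fun ψ => by
      rw [map_mul, map_pow ψ g, norm_mul, norm_pow]
    have hoffW : ∀ ψ : Spec A, ψ ∉ W → ‖ψ (u * g ^ j)‖ ≤ 1 / 4 := by
      intro ψ hψ
      rw [hval]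
      refine le_trans ?_ hj
      gcongr
      · exact norm_ev_le h1 u ψ
      · exact hg3 ψ hψ
    refine ⟨u * g ^ j, ?_, ?_, ?_⟩
    · rintro ψ ⟨hψF, hψ1⟩
      rw [map_mul, map_pow ψ g, hg1 ψ hψF, hψu, hψ1]; simp
    · intro ψ
      by_cases hψW : ψ ∈ W
      · rw [hval]
        have ha : ‖ψ u‖ ≤ 5 / 4 := le_of_lt hψW.1
        have hb : ‖ψ g‖ ^ j ≤ 1 := pow_le_one₀ (norm_nonneg _) (hg2 ψ)
        calc ‖ψ u‖ * ‖ψ g‖ ^ j ≤ 5 / 4 * 1 := by gcongr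
          _ = 5 / 4 := by norm_num
      · exact (hoffW ψ hψW).trans (by norm_num)
    · intro ψ hψU
      by_cases hψW : ψ ∈ W
      · rw [hval]
        have ha : ‖ψ u‖ ≤ 1 / 4 := by
          rcases hψW.2 with h' | h'
          · exact absurd h' hψU
          · exact le_of_lt h'
        have hb : ‖ψ g‖ ^ j ≤ 1 := pow_le_one₀ (norm_nonneg _) (hg2 ψ)
        calc ‖ψ u‖ * ‖ψ g‖ ^ j ≤ 1 / 4 * 1 := by gcongr
          _ = 1 / 4 := by norm_num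
      · exact hoffW ψ hψW

/-- Every good set contains a strong boundary point. -/
theorem Good.exists_strongBoundary (h1 : ‖(1 : A)‖ ≤ 1)
    (hn : ∀ (f : A) (r : ℝ), 0 ≤ r → (∀ ψ : Spec A, ‖ψ f‖ ≤ r) → ‖f‖ ≤ r)
    {F : Set (Spec A)} (hF : Good F) : ∃ φ ∈ F, StrongBoundary φ := by
  obtain ⟨G, hGF, hG⟩ := zorn_superset_nonempty {G : Set (Spec A) | Good G}
    (fun c hc hch hne => ⟨⋂₀ c, Good.sInter (fun F hF => hc hF) hch hne,
      fun s hs => sInter_subset_of_mem hs⟩) F hF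
  have hGg : Good G := hG.prop
  obtain ⟨φ, hφ⟩ := hGg.ne
  have hsing : G = {φ} := by
    by_contra hcon
    obtain ⟨φ₂, hφ₂, hne⟩ : ∃ φ₂ ∈ G, φ₂ ≠ φ := by
      by_contra hc2
      push Not at hc2
      exact hcon (Subset.antisymm (fun x hx => hc2 x hx) (by rintro _ rfl; exact hφ))
    obtain ⟨f, hf⟩ : ∃ f : A, φ₂ f ≠ φ f := by
      by_contra hc2
      push Not at hc2
      exact hne (DFunLike.ext _ _ hc2)
    -- h vanishes at φ₂ and not at φ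
    set h : A := f - algebraMap ℂ A (φ₂ f) with hh
    have hval : ∀ ψ : Spec A, ψ h = ψ f - φ₂ f := fun ψ => by
      rw [hh, map_sub, AlgHomClass.commutes]; rfl
    have hz : φ₂ h = 0 := by rw [hval, sub_self]
    have hnz : φ h ≠ 0 := by rw [hval]; exact sub_ne_zero.mpr (Ne.symm hf)
    obtain ⟨φ₀, hφ₀, hmax⟩ := hGg.cl.isCompact.exists_isMaxOn hGg.ne (cont_ev h).norm.continuousOn
    have hmax' : ∀ ψ ∈ G, ‖ψ h‖ ≤ ‖φ₀ h‖ := fun ψ hψ => hmax hψ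
    have hpos : 0 < ‖φ₀ h‖ := lt_of_lt_of_le (norm_pos_iff.mpr hnz) (hmax' φ hφ)
    have hne0 : φ₀ h ≠ 0 := norm_pos_iff.mp hpos
    set k : A := (1 / 2 : ℂ) • (1 + (φ₀ h)⁻¹ • h) with hk
    have hkval : ∀ ψ : Spec A, ψ k = 1 / 2 * (1 + ψ h / φ₀ h) := fun ψ => by
      rw [hk, map_smul, map_add, map_one, map_smul, smul_eq_mul, smul_eq_mul]; ring
    have hbd : ∀ ψ ∈ G, ‖ψ h / φ₀ h‖ ≤ 1 := fun ψ hψ => by
      rw [norm_div]; exact div_le_one_of_le₀ (hmax' ψ hψ) (norm_nonneg _)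
    have hkle : ∀ ψ ∈ G, ‖ψ k‖ ≤ 1 := fun ψ hψ => by
      rw [hkval, norm_mul]
      have e : ‖(1 / 2 : ℂ)‖ = 1 / 2 := by norm_num
      rw [e]
      have := norm_add_le (1 : ℂ) (ψ h / φ₀ h)
      rw [norm_one] at this
      have := hbd ψ hψ
      linarith
    have hstrict : ∀ w : ℂ, ‖w‖ ≤ 1 → 1 / 2 * (1 + w) = 1 ∨ ‖1 / 2 * (1 + w)‖ < 1 := by
      intro w hw
      by_cases hw1 : w = 1
      · left; rw [hw1]; norm_num
      · right
        rw [norm_mul]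
        have e : ‖(1 / 2 : ℂ)‖ = 1 / 2 := by norm_num
        rw [e]
        have h3 : ‖1 + w‖ < 2 := by
          by_contra hc3
          push Not at hc3
          have h4 : ‖1 + w‖ ^ 2 = 1 + 2 * w.re + ‖w‖ ^ 2 := by
            rw [← Complex.normSq_eq_norm_sq, ← Complex.normSq_eq_norm_sq, Complex.normSq_apply,
              Complex.normSq_apply]
            simp only [Complex.add_re, Complex.one_re, Complex.add_im, Complex.one_im]
            ring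
          have h5 : (4 : ℝ) ≤ ‖1 + w‖ ^ 2 := by nlinarith
          have h6 : ‖w‖ ^ 2 ≤ 1 := pow_le_one₀ (norm_nonneg _) hw
          have h7 : 1 ≤ w.re := by linarith
          have h8 : w.re ^ 2 + w.im ^ 2 ≤ 1 := by
            rw [← Complex.normSq_eq_norm_sq, Complex.normSq_apply] at h6
            nlinarith
          have h9 : w.im = 0 := by nlinarith
          have h10 : w.re = 1 := by nlinarith
          exact hw1 (Complex.ext h10 h9)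
        linarith
    have hgood := hGg.peak_subset h1 hn k hkle (fun ψ hψ => by
      rw [hkval]; exact hstrict _ (hbd ψ hψ)) ⟨φ₀, hφ₀, by
        rw [hkval, div_self hne0]; norm_num⟩
    have hsub : {ψ : Spec A | ψ ∈ G ∧ ψ k = 1} ⊆ G := fun ψ hψ => hψ.1
    have := hG.le_of_le hgood hsub
    have h3 := (this hφ₂).2
    rw [hkval, hz] at h3
    norm_num at h3
  refine ⟨φ, hGF hφ, ?_⟩
  intro U hU ε hε
  obtain ⟨V, hVU, hVo, hφV⟩ := mem_nhds_iff.mp hU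
  rw [hsing] at hGg
  obtain ⟨g, hg1, hg2, hg3⟩ := hGg.peak hn hVo (singleton_subset_iff.mpr hφV)
  obtain ⟨j, hj⟩ := exists_pow_lt_of_lt_one hε (show (1 / 4 : ℝ) < 1 by norm_num)
  refine ⟨g ^ j, ?_, ?_, ?_⟩
  · refine le_antisymm (hn _ 1 zero_le_one fun ψ => ?_) ?_
    · rw [map_pow, norm_pow]; exact pow_le_one₀ (norm_nonneg _) (hg2 ψ)
    · have := norm_ev_le h1 (g ^ j) φ
      rw [map_pow, hg1 φ rfl, one_pow, norm_one] at this
      exact this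
  · rw [evalAt, map_pow, hg1 φ rfl, one_pow]
  · intro ψ hψ
    rw [evalAt, map_pow, norm_pow]
    refine lt_of_le_of_lt ?_ hj
    exact pow_le_pow_left₀ (norm_nonneg _) (hg3 ψ fun h => hψ (hVU h)) j

/-- A convenient criterion for a set defined by prescribed values to be good. -/
theorem good_of_values (h1 : ‖(1 : A)‖ ≤ 1) {ι : Type*} (g : ι → A) (t : ι → ℂ)
    (hne : ∀ s : Finset ι, ∀ η : ℝ, 0 < η → ∃ ψ : Spec A, ∀ i ∈ s, ‖ψ (g i) - t i‖ ≤ η)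
    (hsep : ∀ s : Finset ι, ∀ η : ℝ, 0 < η → ∃ f : A,
      (∀ ψ : Spec A, (∀ i, ψ (g i) = t i) → ψ f = 1) ∧ ‖f‖ ≤ 5 / 4 ∧
      ∀ i ∈ s, ‖f * (g i - algebraMap ℂ A (t i))‖ ≤ η) :
    Good {ψ : Spec A | ∀ i, ψ (g i) = t i} := by
  classical
  -- the decreasing family of compact neighbourhoods
  let K : Finset ι × ℕ → Set (Spec A) := fun q =>
    {ψ | ∀ i ∈ q.1, ‖ψ (g i) - t i‖ ≤ 1 / ((q.2 : ℝ) + 1)}
  have hKcl : ∀ q, IsClosed (K q) := by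
    intro q
    have : K q = ⋂ i ∈ q.1, {ψ : Spec A | ‖ψ (g i) - t i‖ ≤ 1 / ((q.2 : ℝ) + 1)} := by
      ext ψ; simp [K]
    rw [this]
    refine isClosed_biInter fun i _ => isClosed_le ((cont_ev (g i)).sub continuous_const).norm
      continuous_const
  have hanti : ∀ q q' : Finset ι × ℕ, q.1 ⊆ q'.1 → q.2 ≤ q'.2 → K q' ⊆ K q := by
    intro q q' h h' ψ hψ i hi
    refine (hψ i (h hi)).trans ?_
    have : (q.2 : ℝ) ≤ q'.2 := by exact_mod_cast h'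
    gcongr
  have hdir : Directed (· ⊇ ·) K := by
    intro q q'
    refine ⟨(q.1 ∪ q'.1, max q.2 q'.2), ?_, ?_⟩
    · exact hanti _ _ Finset.subset_union_left (le_max_left _ _)
    · exact hanti _ _ Finset.subset_union_right (le_max_right _ _)
  have hinter : (⋂ q, K q) = {ψ : Spec A | ∀ i, ψ (g i) = t i} := by
    ext ψ
    simp only [mem_iInter, mem_ofPred_eq]
    constructor
    · intro h i
      by_contra hcon
      have hpos : 0 < ‖ψ (g i) - t i‖ := norm_pos_iff.mpr (sub_ne_zero.mpr hcon)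
      obtain ⟨n, hn⟩ := exists_nat_one_div_lt hpos
      have := h ({i}, n) i (Finset.mem_singleton_self i)
      simp only at this
      linarith
    · intro h q i _
      rw [h i, sub_self, norm_zero]
      positivity
  have hFcl : IsClosed {ψ : Spec A | ∀ i, ψ (g i) = t i} := by
    rw [← hinter]; exact isClosed_iInter hKcl
  refine ⟨?_, hFcl, ?_⟩
  · rw [← hinter]
    refine IsCompact.nonempty_iInter_of_directed_nonempty_isCompact_isClosed K hdir ?_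
      (fun q => (hKcl q).isCompact) hKcl
    rintro ⟨s, n⟩
    obtain ⟨ψ, hψ⟩ := hne s (1 / ((n : ℝ) + 1)) (by positivity)
    exact ⟨ψ, hψ⟩
  · intro U hU hFU
    -- some K q is contained in U
    obtain ⟨q, hq⟩ : ∃ q, K q ⊆ U := by
      rw [← hinter] at hFU
      exact exists_subset_nhds_of_isCompact hdir (fun q => (hKcl q).isCompact)
        (fun x hx => hU.mem_nhds (hFU hx))
    obtain ⟨f, hf1, hf2, hf3⟩ := hsep q.1 (1 / 4 * (1 / ((q.2 : ℝ) + 1))) (by positivity)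
    refine ⟨f, fun ψ hψ => hf1 ψ hψ, fun ψ => (norm_ev_le h1 f ψ).trans hf2, fun ψ hψ => ?_⟩
    by_contra hcon
    push Not at hcon
    apply hψ
    apply hq
    intro i hi
    have h2 := norm_ev_le h1 (f * (g i - algebraMap ℂ A (t i))) ψ
    rw [map_mul, map_sub, AlgHomClass.commutes, norm_mul] at h2
    have h3 := h2.trans (hf3 i hi)
    have h4 : (algebraMap ℂ ℂ) (t i) = t i := rfl
    rw [h4] at h3
    have h5 := norm_nonneg (ψ (g i) - t i)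
    nlinarith

end

end Pool.Agent.Lib.MP_164614_an
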