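import Mathlib
import Pool.Agent.Lib.MP_164614_an.UA

set_option autoImplicit false

namespace Pool.Agent.Lib.MP_164614_an

open Set Filter Topology WeakDual Metric

noncomputable section

variable (X : Type*) [NormedAddCommGroup X] [NormedSpace ℂ X]

lemma mem_Au {f : BoundedContinuousFunction (ball (0 : X) 1) ℂ} : f ∈ Au X ↔
    UniformContinuous f ∧ ∃ F : X → ℂ, DifferentiableOn ℂ F (ball (0 : X) 1) ∧
    ∀ x : ball (0 : X) 1, f x = F x := Iff.rfl

/-- Cauchy estimate for the Fréchet derivative. -/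
lemma cauchy_fderiv {F : X → ℂ} {x : X} {r M : ℝ} (hr : 0 < r)
    (hF : DifferentiableOn ℂ F (ball x r)) (hb : ∀ y ∈ ball x r, ‖F y‖ ≤ M) :
    ‖fderiv ℂ F x‖ ≤ 2 * M / r := by
  refine Complex.norm_fderiv_le_div_of_mapsTo_ball hF (fun y hy => ?_) hr
  rw [mem_closedBall, dist_eq_norm]
  refine (norm_sub_le _ _).trans ?_
  have := hb y hy
  have := hb x (mem_ball_self hr)
  linarith

/-- Uniform limits of holomorphic functions on the unit ball are holomorphic. -/
lemma holo_limit (F : ℕ → X → ℂ) (hF : ∀ n, DifferentiableOn ℂ (F n) (ball (0 : X) 1))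
    (G : X → ℂ) (hG : ∀ ε > 0, ∃ N, ∀ n ≥ N, ∀ x ∈ ball (0 : X) 1, ‖F n x - G x‖ ≤ ε) :
    DifferentiableOn ℂ G (ball (0 : X) 1) := by
  intro x₀ hx₀
  apply DifferentiableAt.differentiableWithinAt
  -- a smaller ball
  obtain ⟨r, hr, hrs⟩ : ∃ r > 0, ball x₀ (2 * r) ⊆ ball (0 : X) 1 := by
    obtain ⟨ρ, hρ, h⟩ := Metric.isOpen_iff.mp isOpen_ball x₀ hx₀
    refine ⟨ρ / 2, by positivity, ?_⟩
    rw [mul_div_cancel₀ _ (by norm_num : (2 : ℝ) ≠ 0)]
    exact h
  have hsub : ∀ y ∈ ball x₀ r, ball y r ⊆ ball (0 : X) 1 := fun y hy =>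
    (ball_subset_ball' (by rw [mem_ball] at hy; linarith)).trans hrs
  have hfd : ∀ n, ∀ y ∈ ball (0 : X) 1, DifferentiableAt ℂ (F n) y := fun n y hy =>
    (hF n y hy).differentiableAt (isOpen_ball.mem_nhds hy)
  have hcau : UniformCauchySeqOn (fun n => fderiv ℂ (F n)) atTop (ball x₀ r) := by
    rw [Metric.uniformCauchySeqOn_iff]
    intro ε hε
    obtain ⟨N, hN⟩ := hG (ε * r / 8) (by positivity)
    refine ⟨N, fun m hm n hn y hy => ?_⟩
    rw [dist_eq_norm]
    have hy' : y ∈ ball (0 : X) 1 := hsub y hy (mem_ball_self hr)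
    have e : fderiv ℂ (F m) y - fderiv ℂ (F n) y = fderiv ℂ (fun z => F m z - F n z) y :=
      (fderiv_fun_sub (hfd m y hy') (hfd n y hy')).symm
    rw [e]
    have := cauchy_fderiv X (F := fun z => F m z - F n z) (x := y) (r := r) (M := ε * r / 4) hr
      (((hF m).sub (hF n)).mono (hsub y hy)) (fun w hw => by
        have h1 := hN m hm w (hsub y hy hw)
        have h2 := hN n hn w (hsub y hy hw)
        have h3 : F m w - F n w = (F m w - G w) - (F n w - G w) := by ring
        rw [h3]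
        refine (norm_sub_le _ _).trans ?_
        linarith)
    refine lt_of_le_of_lt this ?_
    have : 2 * (ε * r / 4) / r = ε / 2 := by field_simp; norm_num
    rw [this]; linarith
  have hlim : ∀ y ∈ ball x₀ r, ∃ L, Tendsto (fun n => fderiv ℂ (F n) y) atTop (𝓝 L) := by
    intro y hy
    have : CauchySeq fun n => fderiv ℂ (F n) y := hcau.cauchySeq hy
    exact cauchySeq_tendsto_of_complete this
  choose! L hL using hlim
  have hunif : TendstoUniformlyOn (fun n => fderiv ℂ (F n)) L atTop (ball x₀ r) :=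
    hcau.tendstoUniformlyOn_of_tendsto fun y hy => hL y hy
  have hder := hasFDerivAt_of_tendstoUniformlyOn (f := F) (f' := fun n => fderiv ℂ (F n)) (g := G)
    isOpen_ball hunif (fun n y hy => (hfd n y (hsub y hy (mem_ball_self hr))).hasFDerivAt)
    (fun y hy => by
      rw [Metric.tendsto_atTop]
      intro ε hε
      obtain ⟨N, hN⟩ := hG (ε / 2) (by positivity)
      refine ⟨N, fun n hn => ?_⟩
      rw [dist_eq_norm]
      exact lt_of_le_of_lt (hN n hn y (hsub y hy (mem_ball_self hr))) (by linarith))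
    (mem_ball_self hr : x₀ ∈ ball x₀ r)
  exact hder.differentiableAt

lemma isClosed_Au : IsClosed (Au X : Set (BoundedContinuousFunction (ball (0 : X) 1) ℂ)) := by
  classical
  rw [← isSeqClosed_iff_isClosed]
  intro f g hf hg
  rw [SetLike.mem_coe, mem_Au]
  have hunif : TendstoUniformly (fun n x => f n x) g atTop :=
    BoundedContinuousFunction.tendsto_iff_tendstoUniformly.mp hg
  refine ⟨hunif.uniformContinuous (Frequently.of_forall fun n => (hf n).1), ?_⟩
  choose F hF hfF using fun n => (hf n).2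
  refine ⟨fun x => if hx : x ∈ ball (0 : X) 1 then g ⟨x, hx⟩ else 0, ?_, fun x => ?_⟩
  · refine holo_limit X F hF _ ?_
    intro ε hε
    rw [Metric.tendstoUniformly_iff] at hunif
    obtain ⟨N, hN⟩ := eventually_atTop.mp (hunif ε hε)
    refine ⟨N, fun n hn x hx => ?_⟩
    have := hN n hn ⟨x, hx⟩
    rw [dist_comm, dist_eq_norm] at this
    rw [dif_pos hx, ← hfF n ⟨x, hx⟩]
    exact this.le
  · simp

instance : CompleteSpace (Au X) := (isClosed_Au X).completeSpace_coe

variable {X}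

instance : Nonempty (ball (0 : X) 1) := ⟨⟨0, by simp⟩⟩

lemma norm_le_iff {f : Au X} {C : ℝ} (hC : 0 ≤ C) :
    ‖f‖ ≤ C ↔ ∀ x : ball (0 : X) 1, ‖(f : BoundedContinuousFunction (ball (0 : X) 1) ℂ) x‖ ≤ C :=
  BoundedContinuousFunction.norm_le hC

/-- Evaluation at a point as an algebra homomorphism. -/
def evHom (x : ball (0 : X) 1) : Au X →ₐ[ℂ] ℂ where
  toFun f := (f : BoundedContinuousFunction (ball (0 : X) 1) ℂ) x
  map_one' := rfl
  map_mul' _ _ := rfl
  map_zero' := rfl
  map_add' _ _ := rfl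
  commutes' r := by
    simp [BoundedContinuousFunction.algebraMap_apply]

/-- Evaluation at a point, as an element of the spectrum. -/
def ev (x : ball (0 : X) 1) : Spec (Au X) := WeakDual.CharacterSpace.equivAlgHom.symm (evHom x)

lemma ev_apply (x : ball (0 : X) 1) (f : Au X) :
    ev x f = (f : BoundedContinuousFunction (ball (0 : X) 1) ℂ) x := rfl

lemma Au_norm_one : ‖(1 : Au X)‖ ≤ 1 := by
  rw [norm_le_iff zero_le_one]
  intro x
  simp

lemma Au_norm_le (f : Au X) (r : ℝ) (hr : 0 ≤ r) (h : ∀ ψ : Spec (Au X), ‖ψ f‖ ≤ r) : ‖f‖ ≤ r := by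
  rw [norm_le_iff hr]
  intro x
  exact h (ev x)

/-- Constructor. -/
def mkAu (F : X → ℂ) (hd : DifferentiableOn ℂ F (ball (0 : X) 1))
    (hu : UniformContinuous fun x : ball (0 : X) 1 => F x) (C : ℝ)
    (hb : ∀ x : ball (0 : X) 1, ‖F x‖ ≤ C) : Au X :=
  ⟨BoundedContinuousFunction.ofNormedAddCommGroup (fun x : ball (0 : X) 1 => F x) hu.continuous C hb,
    hu, F, hd, fun _ => rfl⟩

@[simp] lemma ev_mkAu (F : X → ℂ) (hd : DifferentiableOn ℂ F (ball (0 : X) 1))
    (hu : UniformContinuous fun x : ball (0 : X) 1 => F x) (C : ℝ)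
    (hb : ∀ x : ball (0 : X) 1, ‖F x‖ ≤ C) (x : ball (0 : X) 1) : ev x (mkAu F hd hu C hb) = F x :=
  rfl

@[simp] lemma ev_ofDual (l : StrongDual ℂ X) (x : ball (0 : X) 1) : ev x (ofDual l) = l x := rfl

lemma ext_ev {f g : Au X} (h : ∀ x, ev x f = ev x g) : f = g := by
  apply Subtype.ext
  ext x
  exact h x

lemma norm_le_of_ev {f : Au X} {C : ℝ} (hC : 0 ≤ C) (h : ∀ x, ‖ev x f‖ ≤ C) : ‖f‖ ≤ C :=
  (norm_le_iff hC).mpr h

lemma ofDual_add (l m : StrongDual ℂ X) : ofDual (l + m) = ofDual l + ofDual m :=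
  ext_ev fun x => by rw [map_add]; simp

lemma ofDual_sub (l m : StrongDual ℂ X) : ofDual (l - m) = ofDual l - ofDual m :=
  ext_ev fun x => by rw [map_sub]; simp

lemma ofDual_smul (c : ℂ) (m : StrongDual ℂ X) : ofDual (c • m) = c • ofDual m :=
  ext_ev fun x => by rw [map_smul]; simp

/-- `ofDual` as a linear map. -/
def ofDualL : StrongDual ℂ X →ₗ[ℂ] Au X where
  toFun := ofDual
  map_add' := ofDual_add
  map_smul' := ofDual_smul

lemma ofDual_sum {ι : Type*} (s : Finset ι) (c : ι → ℂ) (l : ι → StrongDual ℂ X) :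
    ofDual (∑ i ∈ s, c i • l i) = ∑ i ∈ s, c i • ofDual (l i) := by
  have h := map_sum (ofDualL (X := X)) (fun i => c i • l i) s
  simp only [map_smul] at h
  exact h

lemma norm_ofDual_le (l : StrongDual ℂ X) : ‖ofDual l‖ ≤ ‖l‖ := by
  refine norm_le_of_ev (norm_nonneg _) fun x => ?_
  rw [ev_ofDual]
  refine (l.le_opNorm _).trans ?_
  have : ‖(x : X)‖ ≤ 1 := by
    have := x.2
    rw [mem_ball_zero_iff] at this
    exact this.le
  calc ‖l‖ * ‖(x : X)‖ ≤ ‖l‖ * 1 := by gcongr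
    _ = ‖l‖ := mul_one _

/-- characters commute with the exponential -/
lemma spec_exp {A : Type*} [NormedCommRing A] [NormedAlgebra ℂ A] [CompleteSpace A] (ψ : Spec A)
    (a : A) : ψ (NormedSpace.exp a) = Complex.exp (ψ a) := by
  let : NormedAlgebra ℚ A := NormedAlgebra.restrictScalars ℚ ℂ A
  rw [Complex.exp_eq_exp_ℂ]
  exact NormedSpace.map_exp ψ (map_continuous ψ) a

end

end Pool.Agent.Lib.MP_164614_an
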