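import Mathlib

set_option autoImplicit false

namespace Pool.Agent.Lib.MP_164614_an

open Set Filter Topology

lemma le_exp_aux {t T : ℝ} (ht : 0 ≤ t) (htT : t ≤ T) (hT : 1 ≤ T) :
    t ≤ Real.exp ((t - 1) - (t - 1) ^ 2 / (4 * T)) := by
  have hT0 : 0 < T := by linarith
  rcases le_or_gt 1 t with h1 | h1
  · set s := t - 1 with hs
    have hs0 : 0 ≤ s := by linarith
    have hq : s ^ 2 / (4 * T) ≤ s / 4 := by
      rw [div_le_iff₀ (by positivity)]
      have : s ≤ T := by linarith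
      nlinarith
    have hq2 : s ^ 2 / (4 * T) ≤ s ^ 2 / 4 := by
      apply div_le_div_of_nonneg_left (by positivity) (by norm_num) (by linarith)
    have hy : 3 / 4 * s ≤ s - s ^ 2 / (4 * T) := by linarith
    have hy0 : 0 ≤ s - s ^ 2 / (4 * T) := by nlinarith
    have := Real.quadratic_le_exp_of_nonneg hy0
    have h3 : (3 / 4 * s) ^ 2 ≤ (s - s ^ 2 / (4 * T)) ^ 2 := by
      apply pow_le_pow_left₀ (by positivity) hy
    have : s ^ 2 / (4 * T) ≤ (s - s ^ 2 / (4 * T)) ^ 2 / 2 := by nlinarith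
    linarith
  · rcases eq_or_lt_of_le ht with h0 | h0
    · rw [← h0]; positivity
    · set w := 1 - t with hw
      have hw0 : 0 < w := by linarith
      have hw1 : w < 1 := by linarith
      have hb : (t - 1) - (t - 1) ^ 2 / (4 * T) ≥ -w - w ^ 2 / 2 := by
        have e : t - 1 = -w := by linarith
        rw [e]
        have : (-w) ^ 2 / (4 * T) ≤ w ^ 2 / 2 := by
          rw [neg_sq]
          apply div_le_div_of_nonneg_left (by positivity) (by norm_num) (by linarith)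
        linarith
      refine le_trans ?_ (Real.exp_le_exp.mpr hb)
      -- (1 - w) (1 + w) ≤ exp (-w^2), 1 + w ≥ exp (w - w^2/2)
      have hl := Real.le_log_one_add_of_nonneg hw0.le
      have h1w : 0 < 1 + w := by linarith
      have h2 : w - w ^ 2 / 2 ≤ 2 * w / (w + 2) := by
        rw [le_div_iff₀ (by linarith)]
        nlinarith [pow_pos hw0 3]
      have h3 : Real.exp (w - w ^ 2 / 2) ≤ 1 + w := by
        rw [← Real.le_log_iff_exp_le h1w]
        linarith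
      have h4 : 1 - w ^ 2 ≤ Real.exp (-(w ^ 2)) := by
        have := Real.add_one_le_exp (-(w ^ 2)); linarith
      have h5 : Real.exp (-w - w ^ 2 / 2) * Real.exp (w - w ^ 2 / 2) = Real.exp (-(w ^ 2)) := by
        rw [← Real.exp_add]; congr 1; ring
      have h6 : t = 1 - w := by linarith
      rw [h6]
      have h7 : (1 - w) * (1 + w) ≤ Real.exp (-w - w ^ 2 / 2) * (1 + w) := by
        calc (1 - w) * (1 + w) = 1 - w ^ 2 := by ring
          _ ≤ Real.exp (-(w ^ 2)) := h4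
          _ = Real.exp (-w - w ^ 2 / 2) * Real.exp (w - w ^ 2 / 2) := h5.symm
          _ ≤ Real.exp (-w - w ^ 2 / 2) * (1 + w) := by gcongr
      exact le_of_mul_le_mul_right h7 h1w

lemma pow_bound (r : ℕ) {t T : ℝ} (ht : 0 ≤ t) (htT : t ≤ T) (hT : 1 ≤ T) :
    t ^ r ≤ 1 + r * (t - 1) + (r : ℝ) ^ 2 * T ^ r * (t - 1) ^ 2 := by
  induction r with
  | zero => simp
  | succ r ih =>
    have hsq : 0 ≤ (t - 1) ^ 2 := sq_nonneg _
    have hTr : 1 ≤ T ^ r := one_le_pow₀ hT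
    have h1 : t ^ (r + 1) ≤ t * (1 + r * (t - 1) + (r : ℝ) ^ 2 * T ^ r * (t - 1) ^ 2) := by
      rw [pow_succ, mul_comm]
      exact mul_le_mul_of_nonneg_left ih ht
    refine h1.trans ?_
    have h2 : t * ((r : ℝ) ^ 2 * T ^ r * (t - 1) ^ 2) ≤ T * ((r : ℝ) ^ 2 * T ^ r * (t - 1) ^ 2) := by
      gcongr
    have h3 : t * (1 + r * (t - 1)) = 1 + (r + 1) * (t - 1) + r * (t - 1) ^ 2 := by ring
    have h4 : (r : ℝ) * (t - 1) ^ 2 ≤ (2 * r + 1) * (T * T ^ r) * (t - 1) ^ 2 := by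
      apply mul_le_mul_of_nonneg_right _ hsq
      have hr0 : (0 : ℝ) ≤ r := Nat.cast_nonneg r
      have : 1 ≤ T * T ^ r := by nlinarith
      nlinarith
    push_cast
    calc t * (1 + r * (t - 1) + (r : ℝ) ^ 2 * T ^ r * (t - 1) ^ 2)
        = t * (1 + r * (t - 1)) + t * ((r : ℝ) ^ 2 * T ^ r * (t - 1) ^ 2) := by ring
      _ ≤ (1 + (r + 1) * (t - 1) + r * (t - 1) ^ 2) + T * ((r : ℝ) ^ 2 * T ^ r * (t - 1) ^ 2) := by
          rw [h3]; linarith
      _ ≤ (1 + (r + 1) * (t - 1) + (2 * r + 1) * (T * T ^ r) * (t - 1) ^ 2) +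
          T * ((r : ℝ) ^ 2 * T ^ r * (t - 1) ^ 2) := by linarith
      _ = 1 + ((r : ℝ) + 1) * (t - 1) + ((r : ℝ) + 1) ^ 2 * T ^ (r + 1) * (t - 1) ^ 2 := by ring

lemma bern_rpow {P x c : ℝ} (hP : 1 ≤ P) (hx : 0 ≤ x) (hc : 0 < c) :
    c ^ P + P * c ^ (P - 1) * (x - c) ≤ x ^ P := by
  have h := one_add_mul_self_le_rpow_one_add (s := x / c - 1)
    (by have : 0 ≤ x / c := by positivity
        linarith) hP
  have e1 : (1 : ℝ) + (x / c - 1) = x / c := by ring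
  rw [e1, Real.div_rpow hx hc.le, le_div_iff₀ (by positivity)] at h
  refine le_trans (le_of_eq ?_) h
  rw [Real.rpow_sub_one hc.ne']
  field_simp

lemma bern_rpow_lt {P x c : ℝ} (hP : 1 < P) (hx : 0 ≤ x) (hc : 0 < c) (hne : x ≠ c) :
    c ^ P + P * c ^ (P - 1) * (x - c) < x ^ P := by
  have h := one_add_mul_self_lt_rpow_one_add (s := x / c - 1)
    (by have : 0 ≤ x / c := by positivity
        linarith)
    (by intro h0; apply hne
        have : x / c = 1 := by linarith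
        rwa [div_eq_one_iff_eq hc.ne'] at this) hP
  have e1 : (1 : ℝ) + (x / c - 1) = x / c := by ring
  rw [e1, Real.div_rpow hx hc.le, lt_div_iff₀ (by positivity)] at h
  refine lt_of_le_of_lt (le_of_eq ?_) h
  rw [Real.rpow_sub_one hc.ne']
  field_simp

/-- The supporting functional coefficient. -/
noncomputable def Jc (P : ℝ) (w : ℂ) : ℂ := ((‖w‖ ^ P : ℝ) : ℂ) / w

/-- The defect function. -/
noncomputable def Dd (P : ℝ) (w ζ : ℂ) : ℝ := (‖ζ‖ ^ P - ‖w‖ ^ P) / P - (Jc P w * (ζ - w)).re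

lemma Jc_mul_self {P : ℝ} (hP : 0 < P) (w : ℂ) : Jc P w * w = ((‖w‖ ^ P : ℝ) : ℂ) := by
  unfold Jc
  rcases eq_or_ne w 0 with h | h
  · rw [h]; simp [Real.zero_rpow hP.ne']
  · field_simp

lemma Jc_zero (P : ℝ) : Jc P 0 = 0 := by simp [Jc]

lemma norm_Jc {P : ℝ} {w : ℂ} (hw : w ≠ 0) : ‖Jc P w‖ = ‖w‖ ^ (P - 1) := by
  have hw' : ‖w‖ ≠ 0 := norm_ne_zero_iff.mpr hw
  unfold Jc
  rw [norm_div, Complex.norm_real, Real.norm_of_nonneg (by positivity), Real.rpow_sub_one hw']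

lemma Dd_ge {P : ℝ} (hP : 1 ≤ P) {w : ℂ} (hw : w ≠ 0) (ζ : ℂ) :
    (‖ζ‖ ^ P - ‖w‖ ^ P) / P - ‖w‖ ^ (P - 1) * (‖ζ‖ - ‖w‖) ≤ Dd P w ζ := by
  have hw' : 0 < ‖w‖ := norm_pos_iff.mpr hw
  unfold Dd
  rw [mul_sub (Jc P w), Jc_mul_self (by linarith), Complex.sub_re, Complex.ofReal_re]
  have h1 : (Jc P w * ζ).re ≤ ‖w‖ ^ (P - 1) * ‖ζ‖ := by
    refine (Complex.re_le_norm _).trans ?_
    rw [norm_mul, norm_Jc hw]
  have h2 : ‖w‖ ^ (P - 1) * ‖w‖ = ‖w‖ ^ P := by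
    rw [← Real.rpow_add_one hw'.ne']; congr 1; ring
  nlinarith

lemma Dd_nonneg {P : ℝ} (hP : 1 ≤ P) (w ζ : ℂ) : 0 ≤ Dd P w ζ := by
  rcases eq_or_ne w 0 with h | h
  · subst h
    unfold Dd
    rw [Jc_zero, norm_zero, Real.zero_rpow (by linarith), zero_mul, Complex.zero_re]
    have : 0 ≤ ‖ζ‖ ^ P := by positivity
    have : 0 ≤ (‖ζ‖ ^ P - 0) / P := by
      rw [sub_zero]; exact div_nonneg this (by linarith)
    linarith
  · refine le_trans ?_ (Dd_ge hP h ζ)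
    have := bern_rpow hP (norm_nonneg ζ) (norm_pos_iff.mpr h)
    have h2 : ‖w‖ ^ (P - 1) * (‖ζ‖ - ‖w‖) ≤ (‖ζ‖ ^ P - ‖w‖ ^ P) / P := by
      rw [le_div_iff₀ (by linarith)]
      linarith
    linarith

lemma eq_of_Dd_eq_zero {P : ℝ} (hP : 1 < P) {w ζ : ℂ} (h : Dd P w ζ = 0) : ζ = w := by
  rcases eq_or_ne w 0 with h0 | h0
  · subst h0
    unfold Dd at h
    rw [Jc_zero, norm_zero, Real.zero_rpow (by linarith), zero_mul, Complex.zero_re, sub_zero,
      sub_zero, div_eq_zero_iff] at h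
    rcases h with h | h
    · rw [Real.rpow_eq_zero_iff_of_nonneg (norm_nonneg _)] at h
      exact norm_eq_zero.mp h.1
    · linarith
  · have hw : 0 < ‖w‖ := norm_pos_iff.mpr h0
    have hge := Dd_ge hP.le h0 ζ
    rw [h] at hge
    have hnorm : ‖ζ‖ = ‖w‖ := by
      by_contra hne
      have := bern_rpow_lt hP (norm_nonneg ζ) hw hne
      have h2 : ‖w‖ ^ (P - 1) * (‖ζ‖ - ‖w‖) < (‖ζ‖ ^ P - ‖w‖ ^ P) / P := by
        rw [lt_div_iff₀ (by linarith)]
        linarith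
      linarith
    -- now Re (Jc w (ζ - w)) = 0
    unfold Dd at h
    rw [hnorm, sub_self, zero_div, zero_sub, neg_eq_zero, mul_sub, Jc_mul_self (by linarith),
      Complex.sub_re, Complex.ofReal_re] at h
    have e : Jc P w * ζ = ((‖w‖ ^ P : ℝ) : ℂ) * (ζ / w) := by unfold Jc; ring
    rw [e, Complex.re_ofReal_mul] at h
    have hpos : 0 < ‖w‖ ^ P := by positivity
    have hre : (ζ / w).re = 1 := by
      have : ‖w‖ ^ P * ((ζ / w).re - 1) = 0 := by linarith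
      rcases mul_eq_zero.mp this with h' | h'
      · linarith
      · linarith
    have hn : ‖ζ / w‖ = 1 := by rw [norm_div, hnorm, div_self hw.ne']
    have him : (ζ / w).im = 0 := by
      have : (ζ / w).re ^ 2 + (ζ / w).im ^ 2 = 1 := by
        have h3 := Complex.normSq_eq_norm_sq (ζ / w)
        rw [hn, Complex.normSq_apply] at h3
        nlinarith
      nlinarith
    have : ζ / w = 1 := Complex.ext hre him
    rwa [div_eq_one_iff_eq h0] at this

lemma continuous_Dd {P : ℝ} (hP : 0 < P) (w : ℂ) : Continuous (Dd P w) := by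
  unfold Dd
  have h1 : Continuous fun ζ : ℂ => ‖ζ‖ ^ P := continuous_norm.rpow_const fun _ => Or.inr hP.le
  exact ((h1.sub continuous_const).div_const _).sub
    (Complex.continuous_re.comp (continuous_const.mul (continuous_id.sub continuous_const)))

/-- small defect forces closeness -/
lemma Dd_sep {P : ℝ} (hP : 1 < P) (w : ℂ) {η : ℝ} (hη : 0 < η) :
    ∃ d : ℝ, 0 < d ∧ ∀ ζ : ℂ, ‖ζ‖ ≤ 1 → Dd P w ζ < d → ‖ζ - w‖ < η := by
  have hK : IsCompact (Metric.closedBall (0 : ℂ) 1 ∩ {ζ | η ≤ ‖ζ - w‖}) :=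
    (isCompact_closedBall _ _).inter_right
      (isClosed_le continuous_const (continuous_id.sub continuous_const).norm)
  obtain ⟨d, hd, hd2⟩ := hK.exists_forall_le' (f := Dd P w) (continuous_Dd (by linarith) w).continuousOn
    (a := 0) (by
      rintro ζ ⟨_, h2⟩
      refine lt_of_le_of_ne (Dd_nonneg hP.le w ζ) fun h => ?_
      have := eq_of_Dd_eq_zero hP h.symm
      rw [mem_ofPred_eq, this, sub_self, norm_zero] at h2
      linarith)
  refine ⟨d, hd, fun ζ hζ h => ?_⟩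
  by_contra hcon
  push Not at hcon
  have := hd2 ζ ⟨by simpa using hζ, hcon⟩
  linarith

/-- lower bound of the defect -/
lemma Dd_lower {P : ℝ} (hP : 1 < P) : ∃ C : ℝ, 0 ≤ C ∧ ∀ w ζ : ℂ,
    ‖ζ‖ ^ P / (2 * P) - C * ‖w‖ ^ P ≤ Dd P w ζ := by
  set A : ℝ := (2 * P) ^ (1 / (P - 1)) with hA
  have hP0 : 0 < P := by linarith
  have hA0 : 0 < A := by positivity
  have hAP : A ^ (P - 1) = 2 * P := by
    rw [hA, ← Real.rpow_mul (by linarith), one_div, inv_mul_cancel₀ (by linarith), Real.rpow_one]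
  refine ⟨A ^ P / (2 * P), by positivity, fun w ζ => ?_⟩
  rcases le_or_gt ‖ζ‖ (A * ‖w‖) with h | h
  · refine le_trans ?_ (Dd_nonneg hP.le w ζ)
    have : ‖ζ‖ ^ P ≤ A ^ P * ‖w‖ ^ P := by
      rw [← Real.mul_rpow hA0.le (norm_nonneg _)]
      exact Real.rpow_le_rpow (norm_nonneg _) h hP0.le
    have h2 : ‖ζ‖ ^ P / (2 * P) ≤ A ^ P * ‖w‖ ^ P / (2 * P) := by gcongr
    have h3 : A ^ P / (2 * P) * ‖w‖ ^ P = A ^ P * ‖w‖ ^ P / (2 * P) := by ring
    rw [h3]; linarith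
  · rcases eq_or_ne w 0 with h0 | h0
    · subst h0
      unfold Dd
      rw [Jc_zero, norm_zero, Real.zero_rpow (by linarith), zero_mul, Complex.zero_re, mul_zero,
        sub_zero, sub_zero, sub_zero]
      gcongr
      linarith
    · refine le_trans ?_ (Dd_ge hP.le h0 ζ)
      have hw : 0 < ‖w‖ := norm_pos_iff.mpr h0
      have hz : 0 < ‖ζ‖ := lt_trans (by positivity) h
      -- ‖w‖^(P-1) ‖ζ‖ ≤ ‖ζ‖^P/(2P)
      have h1 : ‖w‖ ^ (P - 1) * (2 * P) ≤ ‖ζ‖ ^ (P - 1) := by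
        rw [← hAP, ← Real.mul_rpow (norm_nonneg _) hA0.le, mul_comm]
        exact Real.rpow_le_rpow (by positivity) h.le (by linarith)
      have h2 : ‖ζ‖ ^ (P - 1) * ‖ζ‖ = ‖ζ‖ ^ P := by
        rw [← Real.rpow_add_one hz.ne']; congr 1; ring
      have h2' : ‖w‖ ^ (P - 1) * ‖w‖ = ‖w‖ ^ P := by
        rw [← Real.rpow_add_one hw.ne']; congr 1; ring
      have h3 : ‖w‖ ^ (P - 1) * ‖ζ‖ ≤ ‖ζ‖ ^ P / (2 * P) := by
        rw [le_div_iff₀ (by positivity)]
        calc ‖w‖ ^ (P - 1) * ‖ζ‖ * (2 * P) = (‖w‖ ^ (P - 1) * (2 * P)) * ‖ζ‖ := by ring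
          _ ≤ ‖ζ‖ ^ (P - 1) * ‖ζ‖ := by gcongr
          _ = ‖ζ‖ ^ P := h2
      have h4 : (‖ζ‖ ^ P - ‖w‖ ^ P) / P = 2 * (‖ζ‖ ^ P / (2 * P)) - ‖w‖ ^ P / P := by
        field_simp
      rw [h4, mul_sub, h2']
      have h5 : ‖w‖ ^ P / P ≤ ‖w‖ ^ P := div_le_self (by positivity) hP.le
      have h6 : 0 ≤ A ^ P / (2 * P) * ‖w‖ ^ P := by positivity
      linarith

/-- the noise defect: `H t ν` small forces `ν` close to `1`. -/
lemma H_sep {r : ℕ} {T η : ℝ} (hη : 0 < η) :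
    ∃ d : ℝ, 0 < d ∧ ∀ (t : ℝ) (ν : ℂ), 0 ≤ t → t ≤ T → ‖ν‖ ≤ t ^ r →
      (t - 1) ^ 2 + (t ^ r - ν.re) < d → ‖ν - 1‖ < η := by
  have hK : IsCompact ((Icc (0 : ℝ) T ×ˢ Metric.closedBall (0 : ℂ) (|T| ^ r)) ∩
      {q : ℝ × ℂ | ‖q.2‖ ≤ q.1 ^ r ∧ η ≤ ‖q.2 - 1‖}) := by
    refine (isCompact_Icc.prod (isCompact_closedBall _ _)).inter_right ?_
    exact (isClosed_le continuous_snd.norm (continuous_fst.pow r)).inter
      (isClosed_le continuous_const (continuous_snd.sub continuous_const).norm)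
  obtain ⟨d, hd, hd2⟩ := hK.exists_forall_le'
    (f := fun q : ℝ × ℂ => (q.1 - 1) ^ 2 + (q.1 ^ r - q.2.re))
    (by fun_prop) (a := 0) (by
      rintro ⟨t, ν⟩ ⟨_, h2, h3⟩
      simp only at h2 h3 ⊢
      have h4 : ν.re ≤ t ^ r := (Complex.re_le_norm ν).trans h2
      by_contra hcon
      push Not at hcon
      have h5 : (t - 1) ^ 2 = 0 := by nlinarith [sq_nonneg (t - 1)]
      have h6 : t = 1 := by nlinarith
      subst h6
      simp only [one_pow] at h2 h4 hcon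
      have h7 : ν.re = 1 := by nlinarith
      have h8 : ν.re ^ 2 + ν.im ^ 2 ≤ 1 := by
        have := Complex.normSq_eq_norm_sq ν
        rw [Complex.normSq_apply] at this
        have h9 : ‖ν‖ ^ 2 ≤ 1 := pow_le_one₀ (norm_nonneg _) h2
        nlinarith
      have h9 : ν.im = 0 := by nlinarith
      have : ν = 1 := Complex.ext h7 h9
      rw [this, sub_self, norm_zero] at h3
      linarith)
  refine ⟨d, hd, fun t ν ht htT hν h => ?_⟩
  by_contra hcon
  push Not at hcon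
  have := hd2 (t, ν) ⟨⟨⟨ht, htT⟩, by
    simp only [mem_closedBall_zero_iff]
    refine hν.trans (pow_le_pow_left₀ ht (htT.trans (le_abs_self T)) r)⟩, hν, hcon⟩
  simp only at this
  linarith

end Pool.Agent.Lib.MP_164614_an
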