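import Mathlib
import Pool.Agent.Lib.MP_164614_an.Ineq

set_option autoImplicit false

namespace Pool.Agent.Lib.MP_164614_an

open Set Filter Topology
open scoped ENNReal

noncomputable section

/-- complex `ℓ_p` over the naturals -/
abbrev L (p : ℝ≥0∞) := lp (fun _ : ℕ => ℂ) p

variable {p : ℝ≥0∞} [Fact (1 ≤ p)]

lemma toReal_ge_one (hp : p ≠ ∞) : 1 ≤ p.toReal := by
  have h : (1 : ℝ≥0∞) ≤ p := Fact.out
  have := ENNReal.toReal_mono hp h
  simpa using this

lemma pow_le_aux (hp : p ≠ ∞) {r : ℕ} (hr : p.toReal ≤ r) (y : L p) (n : ℕ) :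
    ‖y n‖ ^ r ≤ ‖y n‖ ^ p.toReal * ‖y‖ ^ ((r : ℝ) - p.toReal) := by
  have hP := toReal_ge_one hp
  have hp0 : p ≠ 0 := by
    intro h; rw [h] at hP; norm_num at hP
  have h1 : ‖y n‖ ≤ ‖y‖ := lp.norm_apply_le_norm hp0 y n
  have e : ‖y n‖ ^ r = ‖y n‖ ^ p.toReal * ‖y n‖ ^ ((r : ℝ) - p.toReal) := by
    rw [← Real.rpow_natCast, ← Real.rpow_add_of_nonneg (norm_nonneg _) (by linarith) (by linarith)]
    congr 1; ring
  rw [e]
  gcongr

lemma summable_rpow (hp : p ≠ ∞) (y : L p) : Summable fun n => ‖y n‖ ^ p.toReal :=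
  (lp.memℓp y).summable (by have := toReal_ge_one hp; linarith)

lemma summable_pow (hp : p ≠ ∞) {r : ℕ} (hr : p.toReal ≤ r) (y : L p) :
    Summable fun n => ‖y n‖ ^ r :=
  Summable.of_nonneg_of_le (fun n => by positivity) (fun n => pow_le_aux hp hr y n)
    ((summable_rpow hp y).mul_right _)

lemma tsum_pow_le (hp : p ≠ ∞) {r : ℕ} (hr : p.toReal ≤ r) (y : L p) :
    ∑' n, ‖y n‖ ^ r ≤ ‖y‖ ^ r := by
  have hP := toReal_ge_one hp
  calc ∑' n, ‖y n‖ ^ r ≤ ∑' n, ‖y n‖ ^ p.toReal * ‖y‖ ^ ((r : ℝ) - p.toReal) :=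
        (summable_pow hp hr y).tsum_le_tsum (fun n => pow_le_aux hp hr y n)
          ((summable_rpow hp y).mul_right _)
    _ = (∑' n, ‖y n‖ ^ p.toReal) * ‖y‖ ^ ((r : ℝ) - p.toReal) := tsum_mul_right
    _ = ‖y‖ ^ p.toReal * ‖y‖ ^ ((r : ℝ) - p.toReal) := by
        rw [lp.norm_rpow_eq_tsum (by linarith) y]
    _ = ‖y‖ ^ r := by
        rw [← Real.rpow_add_of_nonneg (norm_nonneg _) (by linarith) (by linarith)]
        rw [← Real.rpow_natCast]; congr 1; ring

lemma prod_le_sum_pow {r : ℕ} (hr : 0 < r) (a : Fin r → ℝ) (ha : ∀ i, 0 ≤ a i) :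
    ∏ i, a i ≤ ∑ i, a i ^ r := by
  have : Nonempty (Fin r) := ⟨⟨0, hr⟩⟩
  obtain ⟨j, _, hj⟩ := Finset.exists_max_image Finset.univ a Finset.univ_nonempty
  calc ∏ i, a i ≤ ∏ _i : Fin r, a j := Finset.prod_le_prod (fun i _ => ha i) (fun i hi => hj i hi)
    _ = a j ^ r := by simp
    _ ≤ ∑ i, a i ^ r := Finset.single_le_sum (f := fun i => a i ^ r)
        (fun i _ => pow_nonneg (ha i) r) (Finset.mem_univ j)

lemma summable_prod (hp : p ≠ ∞) {r : ℕ} (hr : p.toReal ≤ r) (m : Fin r → L p) :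
    Summable fun n => ∏ i, m i n := by
  have hr0 : 0 < r := by
    have := toReal_ge_one hp
    have : (0 : ℝ) < r := by linarith
    exact_mod_cast this
  refine Summable.of_norm_bounded (g := fun n => ∑ i, ‖m i n‖ ^ r)
    (summable_sum fun i _ => summable_pow hp hr (m i)) (fun n => ?_)
  rw [norm_prod]
  exact prod_le_sum_pow hr0 _ fun i => norm_nonneg _

/-- the term multilinear map -/
def qT (p : ℝ≥0∞) [Fact (1 ≤ p)] (r : ℕ) (n : ℕ) : MultilinearMap ℂ (fun _ : Fin r => L p) ℂ :=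
  (MultilinearMap.mkPiAlgebra ℂ (Fin r) ℂ).compLinearMap fun _ => lp.evalₗ (fun _ : ℕ => ℂ) p n

lemma qT_apply (r n : ℕ) (m : Fin r → L p) : qT p r n m = ∏ i, m i n := by
  simp [qT]

/-- The multilinear power sum map. -/
def qMulti (hp : p ≠ ∞) (r : ℕ) (hr : p.toReal ≤ r) : MultilinearMap ℂ (fun _ : Fin r => L p) ℂ where
  toFun m := ∑' n, qT p r n m
  map_update_add' m i x y := by
    rw [← Summable.tsum_add]
    · congr 1; funext n
      exact (qT p r n).map_update_add m i x y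
    · simp only [qT_apply]; exact summable_prod hp hr _
    · simp only [qT_apply]; exact summable_prod hp hr _
  map_update_smul' m i c x := by
    rw [smul_eq_mul, ← tsum_mul_left]
    congr 1; funext n
    exact (qT p r n).map_update_smul m i c x

lemma qMulti_apply (hp : p ≠ ∞) (r : ℕ) (hr : p.toReal ≤ r) (m : Fin r → L p) :
    qMulti hp r hr m = ∑' n, ∏ i, m i n := by
  change ∑' n, qT p r n m = _
  simp only [qT_apply]

lemma qMulti_bound (hp : p ≠ ∞) (r : ℕ) (hr : p.toReal ≤ r) (m : Fin r → L p) :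
    ‖qMulti hp r hr m‖ ≤ r * ∏ i, ‖m i‖ := by
  have hr0 : 0 < r := by
    have := toReal_ge_one hp
    have : (0 : ℝ) < r := by linarith
    exact_mod_cast this
  by_cases hz : ∃ i, m i = 0
  · obtain ⟨i, hi⟩ := hz
    rw [MultilinearMap.map_coord_zero _ i hi, norm_zero]
    positivity
  · push Not at hz
    set w : Fin r → L p := fun i => ((‖m i‖ : ℝ) : ℂ)⁻¹ • m i with hw
    have hn : ∀ i, ‖m i‖ ≠ 0 := fun i => norm_ne_zero_iff.mpr (hz i)
    have hwn : ∀ i, ‖w i‖ = 1 := fun i => by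
      rw [hw]
      simp only [norm_smul, norm_inv, Complex.norm_real, norm_norm]
      exact inv_mul_cancel₀ (hn i)
    have hm : m = fun i => ((‖m i‖ : ℝ) : ℂ) • w i := by
      funext i
      rw [hw]
      simp only [smul_smul]
      rw [mul_inv_cancel₀ (by exact_mod_cast hn i), one_smul]
    have h1 : ‖qMulti hp r hr w‖ ≤ r := by
      rw [qMulti_apply]
      calc ‖∑' n, ∏ i, w i n‖ ≤ ∑' n, ∑ i, ‖w i n‖ ^ r := by
            refine tsum_of_norm_bounded (summable_sum fun i _ => summable_pow hp hr (w i)).hasSum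
              fun n => ?_
            rw [norm_prod]
            exact prod_le_sum_pow hr0 _ fun i => norm_nonneg _
        _ = ∑ i, ∑' n, ‖w i n‖ ^ r := Summable.tsum_finsetSum fun i _ => summable_pow hp hr (w i)
        _ ≤ ∑ _i : Fin r, (1 : ℝ) := by
            refine Finset.sum_le_sum fun i _ => ?_
            refine (tsum_pow_le hp hr (w i)).trans ?_
            rw [hwn, one_pow]
        _ = r := by simp
    calc ‖qMulti hp r hr m‖ = ‖qMulti hp r hr (fun i => ((‖m i‖ : ℝ) : ℂ) • w i)‖ := by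
          rw [← hm]
      _ = (∏ i, ‖m i‖) * ‖qMulti hp r hr w‖ := by
          rw [MultilinearMap.map_smul_univ, norm_smul, norm_prod]
          congr 1
          refine Finset.prod_congr rfl fun i _ => ?_
          rw [Complex.norm_real, norm_norm]
      _ ≤ (∏ i, ‖m i‖) * r := by gcongr
      _ = r * ∏ i, ‖m i‖ := mul_comm _ _

/-- The continuous multilinear power sum map. -/
def qCM (hp : p ≠ ∞) (r : ℕ) (hr : p.toReal ≤ r) :
    ContinuousMultilinearMap ℂ (fun _ : Fin r => L p) ℂ :=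
  (qMulti hp r hr).mkContinuous r (qMulti_bound hp r hr)

/-- The power sum polynomial `∑ y_n ^ r` on `ℓ_p`, `r ≥ p`. -/
def q (hp : p ≠ ∞) (r : ℕ) (hr : p.toReal ≤ r) (y : L p) : ℂ := qCM hp r hr fun _ => y

lemma q_eq (hp : p ≠ ∞) (r : ℕ) (hr : p.toReal ≤ r) (y : L p) : q hp r hr y = ∑' n, (y n) ^ r := by
  change qMulti hp r hr (fun _ => y) = _
  rw [qMulti_apply]
  simp

lemma summable_cpow (hp : p ≠ ∞) {r : ℕ} (hr : p.toReal ≤ r) (y : L p) :
    Summable fun n => (y n) ^ r := by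
  refine Summable.of_norm ?_
  simp only [norm_pow]
  exact summable_pow hp hr y

lemma norm_q_le (hp : p ≠ ∞) (r : ℕ) (hr : p.toReal ≤ r) (y : L p) : ‖q hp r hr y‖ ≤ ‖y‖ ^ r := by
  rw [q_eq]
  refine le_trans (norm_tsum_le_tsum_norm ?_) ?_
  · simp only [norm_pow]; exact summable_pow hp hr y
  · simp only [norm_pow]; exact tsum_pow_le hp hr y

lemma q_differentiable (hp : p ≠ ∞) (r : ℕ) (hr : p.toReal ≤ r) : Differentiable ℂ (q hp r hr) := by
  have h1 : Differentiable ℂ (qCM hp r hr) :=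
    (ContinuousMultilinearMap.contDiff (n := 1) (qCM hp r hr)).differentiable one_ne_zero
  have h2 : Differentiable ℂ (fun y : L p => (fun _ : Fin r => y)) :=
    differentiable_pi.mpr fun _ => differentiable_id
  exact h1.comp h2

lemma q_lipschitz (hp : p ≠ ∞) (r : ℕ) (hr : p.toReal ≤ r) {R : ℝ} (y y' : L p)
    (hy : ‖y‖ ≤ R) (hy' : ‖y'‖ ≤ R) :
    ‖q hp r hr y - q hp r hr y'‖ ≤ (‖qCM hp r hr‖ * r * R ^ (r - 1)) * ‖y - y'‖ := by
  have hR : 0 ≤ R := (norm_nonneg y).trans hy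
  have h := (qCM hp r hr).norm_image_sub_le (fun _ => y) (fun _ => y')
  rw [Fintype.card_fin] at h
  refine h.trans ?_
  have n1 : ‖(fun _ : Fin r => y)‖ ≤ ‖y‖ := pi_norm_const_le y
  have n2 : ‖(fun _ : Fin r => y')‖ ≤ ‖y'‖ := pi_norm_const_le y'
  have n3 : ‖(fun _ : Fin r => y) - (fun _ : Fin r => y')‖ ≤ ‖y - y'‖ := by
    have : (fun _ : Fin r => y) - (fun _ : Fin r => y') = fun _ : Fin r => y - y' := rfl
    rw [this]; exact pi_norm_const_le _
  gcongr
  exact max_le (n1.trans hy) (n2.trans hy')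

/-- truncation to the tail -/
def tl (p : ℝ≥0∞) [Fact (1 ≤ p)] (N : ℕ) (y : L p) : L p :=
  y - ∑ i ∈ Finset.range N, lp.single p i (y i)

lemma tl_apply (N : ℕ) (y : L p) (n : ℕ) : tl p N y n = if n < N then 0 else y n := by
  unfold tl
  rw [lp.coeFn_sub, Pi.sub_apply, lp.coeFn_sum, Finset.sum_apply]
  simp only [lp.coeFn_single, Finset.sum_pi_single, Finset.mem_range]
  split_ifs <;> simp

lemma tl_sub (N : ℕ) (y y' : L p) : tl p N (y - y') = tl p N y - tl p N y' := by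
  apply lp.ext
  funext n
  rw [tl_apply, lp.coeFn_sub, lp.coeFn_sub, Pi.sub_apply, Pi.sub_apply, tl_apply, tl_apply]
  split_ifs <;> simp

lemma norm_tl (hp : p ≠ ∞) (N : ℕ) (y : L p) :
    ‖tl p N y‖ ^ p.toReal = ‖y‖ ^ p.toReal - ∑ i ∈ Finset.range N, ‖y i‖ ^ p.toReal :=
  lp.norm_compl_sum_single (by have := toReal_ge_one hp; linarith) y _

lemma norm_tl_le (hp : p ≠ ∞) (N : ℕ) (y : L p) : ‖tl p N y‖ ≤ ‖y‖ := by
  have h := norm_tl hp N y
  have hP := toReal_ge_one hp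
  have h2 : 0 ≤ ∑ i ∈ Finset.range N, ‖y i‖ ^ p.toReal := Finset.sum_nonneg fun i _ => by positivity
  rw [← Real.rpow_le_rpow_iff (norm_nonneg _) (norm_nonneg _) (by linarith : 0 < p.toReal)]
  linarith

lemma q_tl (hp : p ≠ ∞) (r : ℕ) (hr : p.toReal ≤ r) (N : ℕ) (y : L p) :
    q hp r hr (tl p N y) = q hp r hr y - ∑ n ∈ Finset.range N, (y n) ^ r := by
  have hr0 : r ≠ 0 := by
    have := toReal_ge_one hp
    rintro rfl
    norm_num at hr
    linarith
  rw [q_eq, q_eq]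
  have hs := summable_cpow hp hr y
  have h1 := hs.sum_add_tsum_nat_add N
  have hs' := summable_cpow hp hr (tl p N y)
  have h2 := hs'.sum_add_tsum_nat_add N
  have h3 : ∑ i ∈ Finset.range N, (tl p N y i) ^ r = 0 := by
    refine Finset.sum_eq_zero fun i hi => ?_
    rw [tl_apply, if_pos (Finset.mem_range.mp hi), zero_pow hr0]
  have h4 : (fun i => (tl p N y (i + N)) ^ r) = fun i => (y (i + N)) ^ r := by
    funext i
    rw [tl_apply, if_neg (by omega)]
  rw [h3, h4, zero_add] at h2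
  rw [← h2, ← h1]
  ring

end

end Pool.Agent.Lib.MP_164614_an
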