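import Mathlib
import Pool.Agent.Lib.MP_164614_an.LpQ
import Pool.Agent.Lib.MP_164614_an.Au

set_option autoImplicit false

namespace Pool.Agent.Lib.MP_164614_an

open Set Filter Topology Metric
open scoped ENNReal

noncomputable section

variable {p : ℝ≥0∞} [Fact (1 ≤ p)]

/-- coordinate functional -/
abbrev cf (p : ℝ≥0∞) [Fact (1 ≤ p)] (n : ℕ) : StrongDual ℂ (L p) :=
  lp.evalCLM ℂ (fun _ : ℕ => ℂ) p n

lemma cf_apply (n : ℕ) (x : L p) : cf p n x = x n := rfl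

lemma sum_rpow_le (hp : p ≠ ∞) {x : L p} (hx : ‖x‖ ≤ 1) (N : ℕ) :
    ∑ n ∈ Finset.range N, ‖x n‖ ^ p.toReal ≤ 1 := by
  have hP := toReal_ge_one hp
  refine (lp.sum_rpow_le_norm_rpow (by linarith) x _).trans ?_
  exact Real.rpow_le_one (norm_nonneg _) hx (by linarith)

/-- The coordinates of an element of the bidual ball. -/
lemma bidual_sum_le (hp : p ≠ ∞) (hp1 : 1 < p.toReal) (z : StrongDual ℂ (StrongDual ℂ (L p)))
    (hz : ‖z‖ ≤ 1) (N : ℕ) : ∑ n ∈ Finset.range N, ‖z (cf p n)‖ ^ p.toReal ≤ 1 := by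
  set P := p.toReal with hPdef
  have hP0 : 0 < P := by linarith
  set S := ∑ n ∈ Finset.range N, ‖z (cf p n)‖ ^ P with hS
  have hS0 : 0 ≤ S := Finset.sum_nonneg fun n _ => by positivity
  set J : StrongDual ℂ (L p) := ∑ n ∈ Finset.range N, Jc P (z (cf p n)) • cf p n with hJ
  have hzJ : z J = (S : ℂ) := by
    rw [hJ, map_sum, hS]
    push_cast
    refine Finset.sum_congr rfl fun n _ => ?_
    rw [map_smul, smul_eq_mul, Jc_mul_self hP0]
  have hterm : ∀ w ζ : ℂ, ‖Jc P w * ζ‖ ≤ (1 - 1 / P) * ‖w‖ ^ P + (1 / P) * ‖ζ‖ ^ P := by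
    intro w ζ
    rcases eq_or_ne w 0 with h | h
    · subst h
      rw [Jc_zero, zero_mul, norm_zero, Real.zero_rpow hP0.ne', mul_zero, zero_add]
      positivity
    · have hw : 0 < ‖w‖ := norm_pos_iff.mpr h
      have hb := bern_rpow hp1.le (norm_nonneg ζ) hw
      rw [norm_mul, norm_Jc h]
      have h2 : ‖w‖ ^ (P - 1) * ‖w‖ = ‖w‖ ^ P := by
        rw [← Real.rpow_add_one hw.ne']; congr 1; ring
      have h3 : ‖w‖ ^ (P - 1) * ‖ζ‖ - ‖w‖ ^ P ≤ (‖ζ‖ ^ P - ‖w‖ ^ P) / P := by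
        rw [le_div_iff₀ hP0]
        nlinarith
      have h4 : (‖ζ‖ ^ P - ‖w‖ ^ P) / P = (1 / P) * ‖ζ‖ ^ P - (1 / P) * ‖w‖ ^ P := by ring
      linarith
  have hbound : ∀ x : L p, ‖x‖ ≤ 1 → ‖J x‖ ≤ (1 - 1 / P) * S + 1 / P := by
    intro x hx
    have e : J x = ∑ n ∈ Finset.range N, Jc P (z (cf p n)) * x n := by
      rw [hJ, sum_apply]
      rfl
    rw [e]
    refine (norm_sum_le _ _).trans ?_
    refine (Finset.sum_le_sum fun n _ => hterm (z (cf p n)) (x n)).trans ?_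
    rw [Finset.sum_add_distrib, ← Finset.mul_sum, ← Finset.mul_sum]
    have h1 := sum_rpow_le hp hx N
    have h2 : (1 / P) * ∑ n ∈ Finset.range N, ‖x n‖ ^ P ≤ (1 / P) * 1 := by gcongr
    linarith
  have hC : 0 ≤ (1 - 1 / P) * S + 1 / P := by
    have : 0 ≤ 1 - 1 / P := by
      rw [sub_nonneg, div_le_one hP0]; exact hp1.le
    positivity
  have hJn : ‖J‖ ≤ (1 - 1 / P) * S + 1 / P := by
    refine ContinuousLinearMap.opNorm_le_bound _ hC fun x => ?_
    rcases eq_or_ne x 0 with h | h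
    · rw [h, map_zero, norm_zero, norm_zero, mul_zero]
    · have hx : ‖x‖ ≠ 0 := norm_ne_zero_iff.mpr h
      have h1 := hbound (((‖x‖ : ℝ) : ℂ)⁻¹ • x) (by
        rw [norm_smul, norm_inv, Complex.norm_real, norm_norm, inv_mul_cancel₀ hx])
      rw [map_smul, norm_smul, norm_inv, Complex.norm_real, norm_norm, inv_mul_le_iff₀
        (by positivity)] at h1
      linarith
  have h1 : S ≤ ‖J‖ := by
    have := z.le_opNorm J
    rw [hzJ, Complex.norm_real, Real.norm_of_nonneg hS0] at this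
    calc S ≤ ‖z‖ * ‖J‖ := this
      _ ≤ 1 * ‖J‖ := by gcongr
      _ = ‖J‖ := one_mul _
  have h2 : S ≤ (1 - 1 / P) * S + 1 / P := h1.trans hJn
  have h3 : (1 / P) * S ≤ 1 / P := by linarith
  have h4 : 0 < 1 / P := by positivity
  nlinarith

/-- Tails of functionals on `ℓ_p`, `p > 1`, are small. -/
lemma dual_tail (hp : p ≠ ∞) (hp1 : 1 < p.toReal) (l : StrongDual ℂ (L p)) {ε : ℝ} (hε : 0 < ε) :
    ∃ N : ℕ, ∀ y : L p, ‖y‖ ≤ 1 → ‖l (tl p N y)‖ ≤ ε := by
  set P := p.toReal with hPdef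
  have hP0 : 0 < P := by linarith
  -- choose t
  obtain ⟨t, ht0, ht1, htP⟩ : ∃ t : ℝ, 0 < t ∧ t ≤ 1 ∧ ‖l‖ * t ^ (P - 1) ≤ ε / 2 := by
    have hlim : Tendsto (fun t : ℝ => ‖l‖ * t ^ (P - 1)) (𝓝[>] 0) (𝓝 (‖l‖ * 0 ^ (P - 1))) := by
      refine (Tendsto.mono_left ?_ nhdsWithin_le_nhds)
      exact ((Real.continuousAt_rpow_const 0 (P - 1) (Or.inr (by linarith))).tendsto).const_mul _
    rw [Real.zero_rpow (by linarith : P - 1 ≠ 0), mul_zero] at hlim
    have h1 := hlim.eventually (eventually_le_nhds (show (0 : ℝ) < ε / 2 by positivity))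
    have h2 : ∀ᶠ t : ℝ in 𝓝[>] 0, 0 < t ∧ t ≤ 1 := by
      filter_upwards [Ioc_mem_nhdsGT (zero_lt_one : (0 : ℝ) < 1)] with t ht
      exact ⟨ht.1, ht.2⟩
    obtain ⟨t, a, b⟩ := (h1.and h2).exists
    exact ⟨t, b.1, b.2, a⟩
  set ε' := t * (ε / 2) with hε'
  have hε'0 : 0 < ε' := by positivity
  obtain ⟨x, hx1, hx2⟩ : ∃ x : L p, ‖x‖ ≤ 1 ∧ ‖l‖ - ε' / 2 < ‖l x‖ := by
    by_cases hl : ‖l‖ - ε' / 2 < 0
    · exact ⟨0, by rw [norm_zero]; norm_num, by rw [map_zero, norm_zero]; exact hl⟩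
    · push Not at hl
      obtain ⟨x, a, b⟩ := ContinuousLinearMap.exists_lt_apply_of_lt_opNorm l
        (show ‖l‖ - ε' / 2 < ‖l‖ by linarith)
      exact ⟨x, a.le, b⟩
  -- truncate x
  have htl : Tendsto (fun N => tl p N x) atTop (𝓝 0) := by
    have h1 := (lp.hasSum_single hp x).tendsto_sum_nat
    have h2 : Tendsto (fun N => x - ∑ i ∈ Finset.range N, lp.single p i (x i)) atTop (𝓝 (x - x)) :=
      tendsto_const_nhds.sub h1
    rw [sub_self] at h2
    exact h2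
  have hltl : Tendsto (fun N => ‖l (tl p N x)‖) atTop (𝓝 0) := by
    have := ((l.continuous.tendsto 0).comp htl).norm
    simpa using this
  obtain ⟨N, hN⟩ := (hltl.eventually (eventually_lt_nhds (show (0 : ℝ) < ε' / 2 by positivity))).exists
  refine ⟨N, fun y hy => ?_⟩
  set w := tl p N y with hw
  set x' := x - tl p N x with hx'
  have hlx' : ‖l‖ - ε' < ‖l x'‖ := by
    have h1 : l x = l x' + l (tl p N x) := by rw [hx', ← map_add, sub_add_cancel]
    have h2 : ‖l x‖ ≤ ‖l x'‖ + ‖l (tl p N x)‖ := by rw [h1]; exact norm_add_le _ _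
    linarith
  obtain ⟨c₁, hc₁, hc₁'⟩ := RCLike.exists_norm_eq_mul_self (l x')
  obtain ⟨c₂, hc₂, hc₂'⟩ := RCLike.exists_norm_eq_mul_self (l w)
  set v : L p := c₁ • x' + ((t : ℂ) * c₂) • w with hv
  have hlv : l v = ((‖l x'‖ + t * ‖l w‖ : ℝ) : ℂ) := by
    rw [hv, map_add, map_smul, map_smul, smul_eq_mul, smul_eq_mul, mul_assoc]
    push_cast
    rw [← hc₁', ← hc₂']
    rfl
  have hx'n : ∀ n, x' n = if n < N then x n else 0 := by
    intro n
    rw [hx', lp.coeFn_sub, Pi.sub_apply, tl_apply]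
    split_ifs <;> simp
  have hwn : ∀ n, w n = if n < N then 0 else y n := fun n => tl_apply N y n
  have hvn : ∀ n, v n = c₁ * x' n + (t * c₂) * w n := by
    intro n
    rw [hv, lp.coeFn_add, lp.coeFn_smul, lp.coeFn_smul]
    rfl
  have htlv : tl p N v = ((t : ℂ) * c₂) • w := by
    apply lp.ext
    funext n
    rw [tl_apply, hvn, hx'n, hwn, lp.coeFn_smul, Pi.smul_apply, hwn]
    split_ifs <;> simp
  have hnv : ‖v‖ ^ P ≤ 1 + t ^ P := by
    have h1 := norm_tl hp N v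
    rw [htlv, norm_smul, norm_mul, hc₂, mul_one, Complex.norm_real, Real.norm_of_nonneg ht0.le] at h1
    have h2 : ∑ n ∈ Finset.range N, ‖v n‖ ^ P = ∑ n ∈ Finset.range N, ‖x n‖ ^ P := by
      refine Finset.sum_congr rfl fun n hn => ?_
      rw [hvn, hx'n, hwn, if_pos (Finset.mem_range.mp hn), if_pos (Finset.mem_range.mp hn), mul_zero,
        add_zero, norm_mul, hc₁, one_mul]
    have h3 := sum_rpow_le hp hx1 N
    have h4 : (t * ‖w‖) ^ P ≤ t ^ P := by
      apply Real.rpow_le_rpow (by positivity) _ hP0.le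
      have : ‖w‖ ≤ 1 := (norm_tl_le hp N y).trans hy
      nlinarith
    rw [← hPdef] at h1 h3
    linarith
  have hnv' : ‖v‖ ≤ 1 + t ^ P := by
    rcases le_or_gt ‖v‖ 1 with h | h
    · have : 0 ≤ t ^ P := by positivity
      linarith
    · have := Real.self_le_rpow_of_one_le h.le hp1.le
      linarith
  have h5 := l.le_opNorm v
  rw [hlv, Complex.norm_real, Real.norm_of_nonneg (by positivity)] at h5
  have h6 : ‖l‖ * ‖v‖ ≤ ‖l‖ * (1 + t ^ P) := by gcongr
  have h7 : t ^ P = t * t ^ (P - 1) := by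
    rw [mul_comm, ← Real.rpow_add_one ht0.ne']; congr 1; ring
  have h8 : t * ‖l w‖ ≤ t * ε := by
    have : ‖l‖ * (1 + t ^ P) = ‖l‖ + t * (‖l‖ * t ^ (P - 1)) := by rw [h7]; ring
    have h9 : t * (‖l‖ * t ^ (P - 1)) ≤ t * (ε / 2) := by gcongr
    nlinarith
  exact le_of_mul_le_mul_left h8 ht0

/-- Coordinates determine the fiber. -/
lemma mem_fiber_of_coord (hp : p ≠ ∞) (hp1 : 1 < p.toReal) (z : StrongDual ℂ (StrongDual ℂ (L p)))
    (φ : Spec (Au (L p))) (h : ∀ n, φ (ofDual (cf p n)) = z (cf p n)) : φ ∈ fiber z := by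
  intro l
  refine sub_eq_zero.mp ?_
  rw [← norm_le_zero_iff]
  refine le_of_forall_pos_le_add fun ε hε => ?_
  obtain ⟨N, hN⟩ := dual_tail hp hp1 l (ε := ε / (1 + ‖z‖)) (by positivity)
  set l' : StrongDual ℂ (L p) := l - ∑ n ∈ Finset.range N, (l (lp.single p n 1)) • cf p n with hl'
  have hl'x : ∀ x : L p, l' x = l (tl p N x) := by
    intro x
    rw [hl', tl]
    rw [map_sub, map_sum, sub_apply, sum_apply]
    congr 1
    refine Finset.sum_congr rfl fun n _ => ?_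
    have : lp.single p n (x n) = (x n) • (lp.single p n (1 : ℂ) : L p) := by
      rw [← lp.single_smul]; simp
    rw [this, map_smul]
    simp [cf_apply, mul_comm]
  have hl'n : ‖l'‖ ≤ ε / (1 + ‖z‖) := by
    refine ContinuousLinearMap.opNorm_le_bound _ (by positivity) fun x => ?_
    rcases eq_or_ne x 0 with h | h
    · rw [h, map_zero, norm_zero, norm_zero, mul_zero]
    · have hx : ‖x‖ ≠ 0 := norm_ne_zero_iff.mpr h
      have h1 := hN (((‖x‖ : ℝ) : ℂ)⁻¹ • x) (by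
        rw [norm_smul, norm_inv, Complex.norm_real, norm_norm, inv_mul_cancel₀ hx])
      rw [← hl'x, map_smul, norm_smul, norm_inv, Complex.norm_real, norm_norm, inv_mul_le_iff₀
        (by positivity)] at h1
      linarith
  have hl : l = l' + ∑ n ∈ Finset.range N, (l (lp.single p n 1)) • cf p n := by
    rw [hl', sub_add_cancel]
  have h1 : φ (ofDual l) - z l = φ (ofDual l') - z l' := by
    conv_lhs => rw [hl]
    rw [ofDual_add, map_add, map_add, ofDual_sum, map_sum, map_sum]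
    have : ∑ n ∈ Finset.range N, φ ((l (lp.single p n 1)) • ofDual (cf p n))
        = ∑ n ∈ Finset.range N, z ((l (lp.single p n 1)) • cf p n) := by
      refine Finset.sum_congr rfl fun n _ => ?_
      rw [map_smul, map_smul, h n]
    rw [this]
    ring
  rw [h1, zero_add]
  have h2 : ‖φ (ofDual l')‖ ≤ ‖l'‖ :=
    (norm_ev_le Au_norm_one _ _).trans (norm_ofDual_le l')
  have h3 := z.le_opNorm l'
  calc ‖φ (ofDual l') - z l'‖ ≤ ‖φ (ofDual l')‖ + ‖z l'‖ := norm_sub_le _ _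
    _ ≤ ‖l'‖ + ‖z‖ * ‖l'‖ := by linarith
    _ = (1 + ‖z‖) * ‖l'‖ := by ring
    _ ≤ (1 + ‖z‖) * (ε / (1 + ‖z‖)) := by gcongr
    _ = ε := by field_simp

end

end Pool.Agent.Lib.MP_164614_an
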