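import Mathlib
import Pool.Agent.Lib.MP_164614_an.DualP

set_option autoImplicit false

namespace Pool.Agent.Lib.MP_164614_an

open Set Filter Topology Metric
open scoped ENNReal

noncomputable section

variable {p : ℝ≥0∞} [Fact (1 ≤ p)]

/-- sum of defects -/
def SD (P : ℝ) (zz x : ℕ → ℂ) (N : ℕ) : ℝ := ∑ n ∈ Finset.range N, Dd P (zz n) (x n)

lemma SD_nonneg {P : ℝ} (hP : 1 ≤ P) (zz x : ℕ → ℂ) (N : ℕ) : 0 ≤ SD P zz x N :=
  Finset.sum_nonneg fun _ _ => Dd_nonneg hP _ _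

lemma re_sum_J (P : ℝ) (zz x : ℕ → ℂ) (N : ℕ) :
    (∑ n ∈ Finset.range N, Jc P (zz n) * (x n - zz n)).re =
      ((∑ n ∈ Finset.range N, ‖x n‖ ^ P) - ∑ n ∈ Finset.range N, ‖zz n‖ ^ P) / P - SD P zz x N := by
  rw [Complex.re_sum, SD, ← Finset.sum_sub_distrib, Finset.sum_div, ← Finset.sum_sub_distrib]
  refine Finset.sum_congr rfl fun n _ => ?_
  unfold Dd
  ring

/-- the linear estimate -/
lemma lin_est (hp : p ≠ ∞) (zz x : L p) (hx : ‖x‖ ≤ 1) {c : ℝ} (hc : 0 < c)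
    (hzz : ‖zz‖ ^ p.toReal = 1 - c ^ p.toReal) (N : ℕ) :
    (∑ n ∈ Finset.range N, Jc p.toReal (zz n) * (x n - zz n)).re ≤
      (‖tl p N zz‖ ^ p.toReal / p.toReal + c ^ (p.toReal - 1) * ‖tl p N zz‖)
      - c ^ p.toReal * (‖tl p N (x - zz)‖ / c - 1) - SD p.toReal zz x N := by
  have hP := toReal_ge_one hp
  set P := p.toReal with hPdef
  have hP0 : 0 < P := by linarith
  rw [re_sum_J]
  have h1 := norm_tl hp N x
  have h2 := norm_tl hp N zz
  rw [← hPdef] at h1 h2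
  have hx1 : ‖x‖ ^ P ≤ 1 := Real.rpow_le_one (norm_nonneg _) hx hP0.le
  have h3 : ‖tl p N (x - zz)‖ - ‖tl p N zz‖ ≤ ‖tl p N x‖ := by
    rw [tl_sub]
    have := norm_sub_le (tl p N x) (tl p N zz)
    linarith
  have h4 := bern_rpow hP (norm_nonneg (tl p N x)) hc
  have hcP : 0 < c ^ (P - 1) := by positivity
  have h5 : c ^ (P - 1) * c = c ^ P := by
    rw [← Real.rpow_add_one hc.ne']; congr 1; ring
  have h6 : c ^ P * (‖tl p N (x - zz)‖ / c - 1) = c ^ (P - 1) * (‖tl p N (x - zz)‖ - c) := by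
    rw [← h5]; field_simp
  rw [h6]
  have h7 : ((∑ n ∈ Finset.range N, ‖x n‖ ^ P) - ∑ n ∈ Finset.range N, ‖zz n‖ ^ P)
      ≤ c ^ P + ‖tl p N zz‖ ^ P - ‖tl p N x‖ ^ P := by linarith
  have h8 : ((∑ n ∈ Finset.range N, ‖x n‖ ^ P) - ∑ n ∈ Finset.range N, ‖zz n‖ ^ P) / P
      ≤ (‖tl p N zz‖ ^ P - P * c ^ (P - 1) * (‖tl p N x‖ - c)) / P :=
    div_le_div_of_nonneg_right (by linarith) hP0.le
  have h9 : (‖tl p N zz‖ ^ P - P * c ^ (P - 1) * (‖tl p N x‖ - c)) / P =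
      ‖tl p N zz‖ ^ P / P - c ^ (P - 1) * (‖tl p N x‖ - c) := by
    field_simp
  have h10 : c ^ (P - 1) * (‖tl p N (x - zz)‖ - ‖tl p N zz‖) ≤ c ^ (P - 1) * ‖tl p N x‖ := by
    gcongr
  rw [h9] at h8
  nlinarith

/-- the noise estimate -/
lemma noise_est {t T ν' : ℝ} {ν : ℂ} {r k : ℕ} {κ : ℝ} (hκ : 0 ≤ κ) (ht : 0 ≤ t)
    (htT : t ≤ T) (hT : 1 ≤ T) (hν : ‖ν‖ ≤ t ^ r) (hν' : ν' = ν.re)
    (hk : 4 * T * (κ * ((r : ℝ) ^ 2 * T ^ r + 1)) ≤ r * k) :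
    ‖ν‖ ^ k * Real.exp (κ * (ν' - 1)) ≤
      Real.exp (r * (k + κ) * (t - 1) - κ * ((t - 1) ^ 2 + (t ^ r - ν'))) := by
  subst hν'
  have h1 : ‖ν‖ ^ k ≤ Real.exp ((r * k : ℝ) * ((t - 1) - (t - 1) ^ 2 / (4 * T))) := by
    have h2 : ‖ν‖ ^ k ≤ t ^ (r * k) := by
      rw [pow_mul]; exact pow_le_pow_left₀ (norm_nonneg _) hν k
    refine h2.trans ?_
    have h3 := pow_le_pow_left₀ ht (le_exp_aux ht htT hT) (r * k)
    rw [← Real.exp_nat_mul] at h3
    push_cast at h3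
    exact h3
  have h2 := pow_bound r ht htT hT
  have h3 : κ * (ν.re - 1) ≤ κ * (r * (t - 1) + (r : ℝ) ^ 2 * T ^ r * (t - 1) ^ 2) -
      κ * (t ^ r - ν.re) := by
    have : κ * t ^ r ≤ κ * (1 + r * (t - 1) + (r : ℝ) ^ 2 * T ^ r * (t - 1) ^ 2) := by gcongr
    linarith
  calc ‖ν‖ ^ k * Real.exp (κ * (ν.re - 1))
      ≤ Real.exp ((r * k : ℝ) * ((t - 1) - (t - 1) ^ 2 / (4 * T))) *
        Real.exp (κ * (r * (t - 1) + (r : ℝ) ^ 2 * T ^ r * (t - 1) ^ 2) - κ * (t ^ r - ν.re)) := by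
        gcongr
    _ ≤ _ := by
        rw [← Real.exp_add, Real.exp_le_exp]
        have hT0 : 0 < T := by linarith
        have h4 : κ * ((r : ℝ) ^ 2 * T ^ r + 1) * (t - 1) ^ 2 ≤ (r * k) * ((t - 1) ^ 2 / (4 * T)) := by
          have : κ * ((r : ℝ) ^ 2 * T ^ r + 1) ≤ (r * k) / (4 * T) := by
            rw [le_div_iff₀ (by positivity)]; linarith
          calc κ * ((r : ℝ) ^ 2 * T ^ r + 1) * (t - 1) ^ 2 ≤ (r * k) / (4 * T) * (t - 1) ^ 2 := by
                gcongr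
            _ = _ := by ring
        nlinarith

lemma tl_tendsto (hp : p ≠ ∞) (x : L p) : Tendsto (fun N => tl p N x) atTop (𝓝 0) := by
  have h1 := (lp.hasSum_single hp x).tendsto_sum_nat
  have h2 : Tendsto (fun N => x - ∑ i ∈ Finset.range N, lp.single p i (x i)) atTop (𝓝 (x - x)) :=
    tendsto_const_nhds.sub h1
  rw [sub_self] at h2
  exact h2

lemma Dd_sep_finite {P : ℝ} (hP : 1 < P) (w : ℕ → ℂ) {η : ℝ} (hη : 0 < η) (n₀ : ℕ) :
    ∃ d : ℝ, 0 < d ∧ ∀ n < n₀, ∀ ζ : ℂ, ‖ζ‖ ≤ 1 → Dd P (w n) ζ < d → ‖ζ - w n‖ < η := by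
  induction n₀ with
  | zero => exact ⟨1, one_pos, fun n hn => absurd hn (Nat.not_lt_zero n)⟩
  | succ m ih =>
    obtain ⟨d, hd, h⟩ := ih
    obtain ⟨d', hd', h'⟩ := Dd_sep hP (w m) hη
    refine ⟨min d d', lt_min hd hd', fun n hn ζ hζ hlt => ?_⟩
    rcases Nat.lt_succ_iff_lt_or_eq.mp hn with h1 | h1
    · exact h n h1 ζ hζ (lt_of_lt_of_le hlt (min_le_left _ _))
    · subst h1
      exact h' ζ hζ (lt_of_lt_of_le hlt (min_le_right _ _))

lemma sep_points (hp : p ≠ ∞) (hp1 : 1 < p.toReal) {r : ℕ} (hr : p.toReal ≤ r) (zz : L p)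
    (hzz1 : ‖zz‖ ≤ 1) {c : ℝ} (hc : 0 < c) {η : ℝ} (hη : 0 < η) (n₁ : ℕ) :
    ∃ d : ℝ, 0 < d ∧ ∃ n₀ : ℕ, ∀ N ≥ n₀, ∀ x : L p, ‖x‖ ≤ 1 →
      SD p.toReal zz x N + ((‖tl p N (x - zz)‖ / c - 1) ^ 2 + ((‖tl p N (x - zz)‖ / c) ^ r -
        (((c : ℂ) ^ r)⁻¹ * q hp r hr (tl p N (x - zz))).re)) < d →
      (∀ n < n₁, ‖x n - zz n‖ ≤ η) ∧ ‖q hp r hr (x - zz) - (c : ℂ) ^ r‖ ≤ η := by
  set P := p.toReal with hPdef
  have hP0 : 0 < P := by linarith
  have hp0 : p ≠ 0 := by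
    rintro rfl
    simp at hPdef
    linarith
  have hr0 : r ≠ 0 := by
    rintro rfl
    norm_num at hr
    linarith
  have hcr : 0 < c ^ r := by positivity
  obtain ⟨C, hC, hCl⟩ := Dd_lower hp1
  -- the tail of zz
  obtain ⟨n₀', hn₀'⟩ : ∃ n₀ : ℕ, ∀ m ≥ n₀,
      2 ^ r * ((2 * P * C + 1) * ‖tl p m zz‖ ^ P) ≤ η / 4 := by
    have h1 : Tendsto (fun m => 2 ^ r * ((2 * P * C + 1) * ‖tl p m zz‖ ^ P)) atTop
        (𝓝 (2 ^ r * ((2 * P * C + 1) * ‖(0 : L p)‖ ^ P))) := by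
      refine Tendsto.const_mul _ (Tendsto.const_mul _ ?_)
      exact ((tl_tendsto hp zz).norm).rpow_const (Or.inr hP0.le)
    rw [norm_zero, Real.zero_rpow hP0.ne', mul_zero, mul_zero] at h1
    have := h1.eventually (eventually_le_nhds (show (0 : ℝ) < η / 4 by positivity))
    exact eventually_atTop.mp this
  set n₀ := max n₀' n₁ with hn₀
  have htail := hn₀' n₀ (le_max_left _ _)
  set η₂ : ℝ := min (min 1 η) (η / (4 * (n₀ + 1))) with hη₂
  have hη₂0 : 0 < η₂ := by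
    apply lt_min (lt_min one_pos hη); positivity
  obtain ⟨d₁, hd₁, hsep₁⟩ := Dd_sep_finite hp1 (fun n => zz n) hη₂0 n₀
  obtain ⟨d₂, hd₂, hsep₂⟩ := H_sep (r := r) (T := 2 / c) (η := η / (4 * c ^ r)) (by positivity)
  set d₃ : ℝ := η / (4 * (2 ^ r * (2 * P))) with hd₃
  have hd₃0 : 0 < d₃ := by positivity
  refine ⟨min (min d₁ d₂) d₃, lt_min (lt_min hd₁ hd₂) hd₃0, n₀, fun N hN x hx hlt => ?_⟩
  set t := ‖tl p N (x - zz)‖ / c with ht
  set ν := ((c : ℂ) ^ r)⁻¹ * q hp r hr (tl p N (x - zz)) with hν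
  have ht0 : 0 ≤ t := by positivity
  have htc : ‖tl p N (x - zz)‖ = t * c := by rw [ht]; field_simp
  have htT : t ≤ 2 / c := by
    rw [ht]
    gcongr
    refine (norm_tl_le hp N _).trans ((norm_sub_le _ _).trans ?_)
    linarith
  have hνt : ‖ν‖ ≤ t ^ r := by
    rw [hν, norm_mul, norm_inv, norm_pow, Complex.norm_real, Real.norm_of_nonneg hc.le,
      inv_mul_le_iff₀ hcr]
    refine (norm_q_le hp r hr _).trans (le_of_eq ?_)
    rw [htc, mul_pow]; ring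
  have hSD := SD_nonneg hp1.le zz x N
  have hH : 0 ≤ (t - 1) ^ 2 + (t ^ r - ν.re) := by
    have := (Complex.re_le_norm ν).trans hνt
    nlinarith [sq_nonneg (t - 1)]
  have hSDlt : SD P zz x N < min (min d₁ d₂) d₃ := by linarith
  have hHlt : (t - 1) ^ 2 + (t ^ r - ν.re) < min (min d₁ d₂) d₃ := by linarith
  have hDn : ∀ n < N, Dd P (zz n) (x n) ≤ SD P zz x N := fun n hn =>
    Finset.single_le_sum (f := fun n => Dd P (zz n) (x n)) (fun i _ => Dd_nonneg hp1.le _ _)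
      (Finset.mem_range.mpr hn)
  have hxn : ∀ n, ‖x n‖ ≤ 1 := fun n => (lp.norm_apply_le_norm hp0 x n).trans hx
  have hzn : ∀ n, ‖zz n‖ ≤ 1 := fun n => (lp.norm_apply_le_norm hp0 zz n).trans hzz1
  have hclose : ∀ n < n₀, ‖x n - zz n‖ < η₂ := fun n hn =>
    hsep₁ n hn (x n) (hxn n) (lt_of_le_of_lt (hDn n (lt_of_lt_of_le hn hN))
      (lt_of_lt_of_le hSDlt ((min_le_left _ _).trans (min_le_left _ _))))
  have hνclose : ‖ν - 1‖ < η / (4 * c ^ r) :=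
    hsep₂ t ν ht0 htT hνt (lt_of_lt_of_le hHlt ((min_le_left _ _).trans (min_le_right _ _)))
  refine ⟨fun n hn => ?_, ?_⟩
  · refine (hclose n (lt_of_lt_of_le hn (le_max_right _ _))).le.trans ?_
    exact (min_le_left _ _).trans (min_le_right _ _)
  · have e1 : q hp r hr (x - zz) - (c : ℂ) ^ r = (c : ℂ) ^ r * (ν - 1) +
        (∑ n ∈ Finset.range n₀, (x n - zz n) ^ r + ∑ n ∈ Finset.Ico n₀ N, (x n - zz n) ^ r) := by
      rw [Finset.sum_range_add_sum_Ico _ hN]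
      have h1 := q_tl hp r hr N (x - zz)
      have h2 : (c : ℂ) ^ r * ν = q hp r hr (tl p N (x - zz)) := by
        rw [hν, ← mul_assoc, mul_inv_cancel₀ (by
          apply pow_ne_zero; exact_mod_cast hc.ne'), one_mul]
      rw [mul_sub, h2, h1, lp.coeFn_sub]
      simp only [Pi.sub_apply]
      ring
    rw [e1]
    have b1 : ‖(c : ℂ) ^ r * (ν - 1)‖ ≤ η / 4 := by
      rw [norm_mul, norm_pow, Complex.norm_real, Real.norm_of_nonneg hc.le]
      calc c ^ r * ‖ν - 1‖ ≤ c ^ r * (η / (4 * c ^ r)) := by gcongr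
        _ = η / 4 := by field_simp
    have b2 : ‖∑ n ∈ Finset.range n₀, (x n - zz n) ^ r‖ ≤ η / 4 := by
      refine (norm_sum_le _ _).trans ?_
      calc ∑ n ∈ Finset.range n₀, ‖(x n - zz n) ^ r‖
          ≤ ∑ n ∈ Finset.range n₀, η / (4 * (n₀ + 1)) := by
            refine Finset.sum_le_sum fun n hn => ?_
            rw [norm_pow]
            have h1 := (hclose n (Finset.mem_range.mp hn)).le
            have h2 : ‖x n - zz n‖ ≤ 1 := h1.trans ((min_le_left _ _).trans (min_le_left _ _))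
            exact (pow_le_of_le_one (norm_nonneg _) h2 hr0).trans (h1.trans (min_le_right _ _))
        _ = n₀ * (η / (4 * (n₀ + 1))) := by simp
        _ ≤ η / 4 := by
            have hn0 : (0 : ℝ) ≤ n₀ := Nat.cast_nonneg _
            have : (n₀ : ℝ) * (η / (4 * (n₀ + 1))) = (η / 4) * (n₀ / (n₀ + 1)) := by field_simp
            rw [this]
            have h3 : (n₀ : ℝ) / (n₀ + 1) ≤ 1 := by
              rw [div_le_one (by positivity)]; linarith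
            nlinarith
    have hterm : ∀ n, ‖x n - zz n‖ ^ r ≤ 2 ^ r * (2 * P * Dd P (zz n) (x n) +
        (2 * P * C + 1) * ‖zz n‖ ^ P) := by
      intro n
      have h1 : ‖x n - zz n‖ ≤ 2 * max ‖x n‖ ‖zz n‖ := by
        refine (norm_sub_le _ _).trans ?_
        have := le_max_left ‖x n‖ ‖zz n‖
        have := le_max_right ‖x n‖ ‖zz n‖
        linarith
      have hm0 : 0 ≤ max ‖x n‖ ‖zz n‖ := (norm_nonneg _).trans (le_max_left _ _)
      have h2 : max ‖x n‖ ‖zz n‖ ^ r ≤ ‖x n‖ ^ P + ‖zz n‖ ^ P := by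
        have h3 : max ‖x n‖ ‖zz n‖ ^ r ≤ max ‖x n‖ ‖zz n‖ ^ P := by
          rw [← Real.rpow_natCast]
          exact Real.rpow_le_rpow_of_exponent_ge' hm0 (max_le (hxn n) (hzn n)) hP0.le hr
        refine h3.trans ?_
        rcases le_total ‖x n‖ ‖zz n‖ with h | h
        · rw [max_eq_right h]
          have : 0 ≤ ‖x n‖ ^ P := by positivity
          linarith
        · rw [max_eq_left h]
          have : 0 ≤ ‖zz n‖ ^ P := by positivity
          linarith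
      have h4 : ‖x n‖ ^ P ≤ 2 * P * (Dd P (zz n) (x n) + C * ‖zz n‖ ^ P) := by
        have := hCl (zz n) (x n)
        have h5 : ‖x n‖ ^ P / (2 * P) ≤ Dd P (zz n) (x n) + C * ‖zz n‖ ^ P := by linarith
        rw [div_le_iff₀ (by positivity)] at h5
        linarith
      calc ‖x n - zz n‖ ^ r ≤ (2 * max ‖x n‖ ‖zz n‖) ^ r := by gcongr
        _ = 2 ^ r * max ‖x n‖ ‖zz n‖ ^ r := mul_pow _ _ _
        _ ≤ 2 ^ r * (‖x n‖ ^ P + ‖zz n‖ ^ P) := by gcongr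
        _ ≤ _ := mul_le_mul_of_nonneg_left (by linarith) (by positivity)
    have hIcoD : ∑ n ∈ Finset.Ico n₀ N, Dd P (zz n) (x n) ≤ SD P zz x N := by
      have := Finset.sum_range_add_sum_Ico (fun n => Dd P (zz n) (x n)) hN
      have h2 : 0 ≤ ∑ n ∈ Finset.range n₀, Dd P (zz n) (x n) :=
        Finset.sum_nonneg fun _ _ => Dd_nonneg hp1.le _ _
      unfold SD
      linarith
    have hIcoZ : ∑ n ∈ Finset.Ico n₀ N, ‖zz n‖ ^ P ≤ ‖tl p n₀ zz‖ ^ P := by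
      have h1 := Finset.sum_range_add_sum_Ico (fun n => ‖zz n‖ ^ P) hN
      have h2 := norm_tl hp n₀ zz
      have h3 := lp.sum_rpow_le_norm_rpow (by linarith : 0 < p.toReal) zz (Finset.range N)
      rw [← hPdef] at h2 h3
      linarith
    have b3 : ‖∑ n ∈ Finset.Ico n₀ N, (x n - zz n) ^ r‖ ≤ η / 4 + η / 4 := by
      refine (norm_sum_le _ _).trans ?_
      calc ∑ n ∈ Finset.Ico n₀ N, ‖(x n - zz n) ^ r‖
          ≤ ∑ n ∈ Finset.Ico n₀ N, 2 ^ r * (2 * P * Dd P (zz n) (x n) +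
            (2 * P * C + 1) * ‖zz n‖ ^ P) := by
            refine Finset.sum_le_sum fun n _ => ?_
            rw [norm_pow]; exact hterm n
        _ = 2 ^ r * (2 * P) * ∑ n ∈ Finset.Ico n₀ N, Dd P (zz n) (x n) +
            2 ^ r * ((2 * P * C + 1) * ∑ n ∈ Finset.Ico n₀ N, ‖zz n‖ ^ P) := by
            rw [← Finset.mul_sum, Finset.sum_add_distrib, ← Finset.mul_sum, ← Finset.mul_sum]
            ring
        _ ≤ 2 ^ r * (2 * P) * d₃ + 2 ^ r * ((2 * P * C + 1) * ‖tl p n₀ zz‖ ^ P) := by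
            have : SD P zz x N ≤ d₃ := (lt_of_lt_of_le hSDlt (min_le_right _ _)).le
            gcongr
            linarith
        _ ≤ η / 4 + η / 4 := by
            have : 2 ^ r * (2 * P) * d₃ = η / 4 := by rw [hd₃]; field_simp
            linarith
    refine (norm_add_le _ _).trans ?_
    have := norm_add_le (∑ n ∈ Finset.range n₀, (x n - zz n) ^ r)
      (∑ n ∈ Finset.Ico n₀ N, (x n - zz n) ^ r)
    linarith

end

end Pool.Agent.Lib.MP_164614_an
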