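import Mathlib
import Pool.Agent.Lib.MP_164614_an.MainP

set_option autoImplicit false

namespace Pool.Agent.Lib.MP_164614_an

open Set Filter Topology Metric
open scoped ENNReal

noncomputable section

variable {p : ℝ≥0∞} [Fact (1 ≤ p)]

/-- coordinate functions in the algebra -/
def co (p : ℝ≥0∞) [Fact (1 ≤ p)] (n : ℕ) : Au (L p) := ofDual (cf p n)

lemma ev_co (n : ℕ) (x : ball (0 : L p) 1) : ev x (co p n) = (x : L p) n := rfl

/-- the translated power sum in the algebra -/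
def qz (hp : p ≠ ∞) (r : ℕ) (hr : p.toReal ≤ r) (zz : L p) : Au (L p) :=
  mkAu (fun x => q hp r hr (x - zz))
    (((q_differentiable hp r hr).comp (differentiable_id.sub_const zz)).differentiableOn)
    (by
      have hb : ∀ x : ball (0 : L p) 1, ‖(x : L p) - zz‖ ≤ 1 + ‖zz‖ := fun x => by
        have := mem_ball_zero_iff.mp x.2
        exact (norm_sub_le _ _).trans (by linarith)
      have hL : LipschitzWith (Real.toNNReal (‖qCM hp r hr‖ * r * (1 + ‖zz‖) ^ (r - 1)))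
          fun x : ball (0 : L p) 1 => q hp r hr ((x : L p) - zz) := by
        refine LipschitzWith.of_dist_le_mul fun x y => ?_
        rw [Real.coe_toNNReal _ (by positivity), dist_eq_norm]
        have := q_lipschitz hp r hr ((x : L p) - zz) ((y : L p) - zz) (hb x) (hb y)
        rw [sub_sub_sub_cancel_right] at this
        rw [Subtype.dist_eq, dist_eq_norm]
        exact this
      exact hL.uniformContinuous)
    ((1 + ‖zz‖) ^ r) (fun x => by
      refine (norm_q_le hp r hr _).trans ?_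
      have := mem_ball_zero_iff.mp x.2
      gcongr
      exact (norm_sub_le _ _).trans (by linarith))

lemma ev_qz (hp : p ≠ ∞) (r : ℕ) (hr : p.toReal ≤ r) (zz : L p) (x : ball (0 : L p) 1) :
    ev x (qz hp r hr zz) = q hp r hr ((x : L p) - zz) := rfl

/-- linear part -/
def JN (zz : L p) (N : ℕ) : Au (L p) :=
  ∑ n ∈ Finset.range N, Jc p.toReal (zz n) • (co p n - algebraMap ℂ (Au (L p)) (zz n))

/-- noise part -/
def nuA (hp : p ≠ ∞) (r : ℕ) (hr : p.toReal ≤ r) (zz : L p) (c : ℝ) (N : ℕ) : Au (L p) :=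
  ((c : ℂ) ^ r)⁻¹ • (qz hp r hr zz -
    ∑ n ∈ Finset.range N, (co p n - algebraMap ℂ (Au (L p)) (zz n)) ^ r)

lemma spec_JN (zz : L p) (N : ℕ) (ψ : Spec (Au (L p))) :
    ψ (JN zz N) = ∑ n ∈ Finset.range N, Jc p.toReal (zz n) * (ψ (co p n) - zz n) := by
  unfold JN
  rw [map_sum]
  refine Finset.sum_congr rfl fun n _ => ?_
  rw [map_smul, map_sub, AlgHomClass.commutes]
  rfl

lemma spec_nuA (hp : p ≠ ∞) (r : ℕ) (hr : p.toReal ≤ r) (zz : L p) (c : ℝ) (N : ℕ)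
    (ψ : Spec (Au (L p))) : ψ (nuA hp r hr zz c N) =
      ((c : ℂ) ^ r)⁻¹ * (ψ (qz hp r hr zz) -
        ∑ n ∈ Finset.range N, (ψ (co p n) - zz n) ^ r) := by
  unfold nuA
  rw [map_smul, map_sub, map_sum, smul_eq_mul]
  congr 2
  refine Finset.sum_congr rfl fun n _ => ?_
  rw [map_pow, map_sub, AlgHomClass.commutes]
  rfl

lemma spec_expr {A : Type*} [NormedCommRing A] [NormedAlgebra ℂ A] [CompleteSpace A] (ψ : Spec A)
    (a b : A) (K κ : ℂ) (k : ℕ) :
    ψ (NormedSpace.exp (K • a) * b ^ k * NormedSpace.exp (κ • (b - 1))) =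
      Complex.exp (K * ψ a) * (ψ b) ^ k * Complex.exp (κ * (ψ b - 1)) := by
  rw [map_mul, map_mul, map_pow, spec_exp, spec_exp, map_smul, map_smul, map_sub, map_one,
    smul_eq_mul, smul_eq_mul]

/-- the separating function -/
def ffA (hp : p ≠ ∞) (r : ℕ) (hr : p.toReal ≤ r) (zz : L p) (c : ℝ) (N k : ℕ) (K κ : ℝ) :
    Au (L p) :=
  NormedSpace.exp ((K : ℂ) • JN zz N) * nuA hp r hr zz c N ^ k *
    NormedSpace.exp ((κ : ℂ) • (nuA hp r hr zz c N - 1))

lemma spec_ffA (hp : p ≠ ∞) (r : ℕ) (hr : p.toReal ≤ r) (zz : L p) (c : ℝ) (N k : ℕ) (K κ : ℝ)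
    (ψ : Spec (Au (L p))) : ψ (ffA hp r hr zz c N k K κ) =
      Complex.exp (K * ψ (JN zz N)) * (ψ (nuA hp r hr zz c N)) ^ k *
        Complex.exp (κ * (ψ (nuA hp r hr zz c N) - 1)) :=
  spec_expr ψ (JN zz N) (nuA hp r hr zz c N) K κ k

lemma ev_nuA (hp : p ≠ ∞) (r : ℕ) (hr : p.toReal ≤ r) (zz : L p) (c : ℝ) (N : ℕ)
    (x : ball (0 : L p) 1) : ev x (nuA hp r hr zz c N) =
      ((c : ℂ) ^ r)⁻¹ * q hp r hr (tl p N ((x : L p) - zz)) := by
  rw [spec_nuA, q_tl, ev_qz]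
  rfl

lemma ff_bound (hp : p ≠ ∞) (hp1 : 1 < p.toReal) (r : ℕ) (hr : p.toReal ≤ r) (zz : L p)
    (hzz1 : ‖zz‖ ≤ 1)
    {c : ℝ} (hc : 0 < c) (hc1 : c ≤ 1) (hzz : ‖zz‖ ^ p.toReal = 1 - c ^ p.toReal) (N k : ℕ)
    {κ : ℝ} (hκ : 0 ≤ κ)
    (hk : 4 * (2 / c) * (κ * ((r : ℝ) ^ 2 * (2 / c) ^ r + 1)) ≤ r * k)
    (x : ball (0 : L p) 1) :
    ‖ev x (ffA hp r hr zz c N k (r * (k + κ) / c ^ p.toReal) κ)‖ ≤
      Real.exp ((r * (k + κ) / c ^ p.toReal) * (‖tl p N zz‖ ^ p.toReal / p.toReal +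
        c ^ (p.toReal - 1) * ‖tl p N zz‖) - κ * (SD p.toReal zz (x : L p) N +
        ((‖tl p N ((x : L p) - zz)‖ / c - 1) ^ 2 + ((‖tl p N ((x : L p) - zz)‖ / c) ^ r -
        (((c : ℂ) ^ r)⁻¹ * q hp r hr (tl p N ((x : L p) - zz))).re)))) := by
  set P := p.toReal with hPdef
  have hP0 : 0 < P := by linarith
  have hr1 : 1 ≤ (r : ℝ) := by linarith
  have hcP : 0 < c ^ P := by positivity
  have hcP1 : c ^ P ≤ 1 := Real.rpow_le_one hc.le hc1 hP0.le
  have hcr : 0 < c ^ r := by positivity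
  set K := r * (k + κ) / c ^ P with hK
  have hKκ : κ ≤ K := by
    rw [hK, le_div_iff₀ hcP]
    have hk0 : (0 : ℝ) ≤ k := Nat.cast_nonneg k
    nlinarith [mul_nonneg hκ (sub_nonneg.mpr hcP1)]
  have hK0 : 0 ≤ K := hκ.trans hKκ
  have hxn : ‖(x : L p)‖ ≤ 1 := (mem_ball_zero_iff.mp x.2).le
  rw [spec_ffA, ev_nuA, spec_JN]
  set t := ‖tl p N ((x : L p) - zz)‖ / c with ht
  set ν := ((c : ℂ) ^ r)⁻¹ * q hp r hr (tl p N ((x : L p) - zz)) with hν
  have ht0 : 0 ≤ t := by positivity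
  have htc : ‖tl p N ((x : L p) - zz)‖ = t * c := by rw [ht]; field_simp
  have htT : t ≤ 2 / c := by
    rw [ht]
    gcongr
    refine (norm_tl_le hp N _).trans ((norm_sub_le _ _).trans ?_)
    linarith
  have hνt : ‖ν‖ ≤ t ^ r := by
    rw [hν, norm_mul, norm_inv, norm_pow, Complex.norm_real, Real.norm_of_nonneg hc.le,
      inv_mul_le_iff₀ hcr]
    refine (norm_q_le hp r hr _).trans (le_of_eq ?_)
    rw [htc, mul_pow]; ring
  have hlin := lin_est hp zz (x : L p) hxn hc hzz N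
  rw [← hPdef, ← ht] at hlin
  have hno := noise_est (ν' := ν.re) hκ ht0 htT (by rw [le_div_iff₀ hc]; linarith) hνt rfl hk
  have e1 : ‖Complex.exp ((K : ℂ) * ∑ n ∈ Finset.range N, Jc P (zz n) * (ev x (co p n) - zz n)) *
      ν ^ k * Complex.exp ((κ : ℂ) * (ν - 1))‖ =
      Real.exp (K * (∑ n ∈ Finset.range N, Jc P (zz n) * ((x : L p) n - zz n)).re) *
      (‖ν‖ ^ k * Real.exp (κ * (ν.re - 1))) := by
    rw [norm_mul, norm_mul, norm_pow, Complex.norm_exp, Complex.norm_exp, Complex.re_ofReal_mul,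
      Complex.re_ofReal_mul, Complex.sub_re, Complex.one_re, mul_assoc]
    rfl
  rw [e1]
  calc _ ≤ Real.exp (K * ((‖tl p N zz‖ ^ P / P + c ^ (P - 1) * ‖tl p N zz‖)
      - c ^ P * (t - 1) - SD P zz (x : L p) N)) *
      Real.exp (r * (k + κ) * (t - 1) - κ * ((t - 1) ^ 2 + (t ^ r - ν.re))) := by
        gcongr
    _ ≤ _ := by
        rw [← Real.exp_add, Real.exp_le_exp]
        have h1 : K * c ^ P = r * (k + κ) := by rw [hK]; field_simp
        have h2 := SD_nonneg hp1.le zz (x : L p) N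
        have h3 : κ * SD P zz (x : L p) N ≤ K * SD P zz (x : L p) N := by gcongr
        have h4 : K * (c ^ P * (t - 1)) = r * (k + κ) * (t - 1) := by rw [← mul_assoc, h1]
        nlinarith

end

end Pool.Agent.Lib.MP_164614_an
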