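import Mathlib
import Pool.Agent.Lib.MP_164614_an.LpQ

set_option autoImplicit false

namespace Pool.Agent.Lib.MP_164614_an

open Set Filter Topology
open scoped ENNReal

noncomputable section

/-- bounded sequences -/
abbrev Bd := BoundedContinuousFunction ℕ ℂ

lemma summable1 (x : L 1) : Summable fun n => ‖x n‖ := by
  have := summable_rpow (p := 1) ENNReal.one_ne_top x
  simpa using this

lemma norm1 (x : L 1) : ‖x‖ = ∑' n, ‖x n‖ := by
  rw [lp.norm_eq_tsum_rpow (by simp)]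
  simp

/-- constructor of a bounded sequence -/
def mkBd (f : ℕ → ℂ) (C : ℝ) (h : ∀ n, ‖f n‖ ≤ C) : Bd :=
  BoundedContinuousFunction.ofNormedAddCommGroup f continuous_of_discreteTopology C h

@[simp] lemma mkBd_apply (f : ℕ → ℂ) (C : ℝ) (h : ∀ n, ‖f n‖ ≤ C) (n : ℕ) : mkBd f C h n = f n :=
  rfl

lemma norm_mkBd_le (f : ℕ → ℂ) (C : ℝ) (h : ∀ n, ‖f n‖ ≤ C) : ‖mkBd f C h‖ ≤ C :=
  (BoundedContinuousFunction.norm_le ((norm_nonneg _).trans (h 0))).mpr h

lemma norm_Bd_le {g : Bd} {C : ℝ} (hC : 0 ≤ C) (h : ∀ n, ‖g n‖ ≤ C) : ‖g‖ ≤ C :=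
  (BoundedContinuousFunction.norm_le hC).mpr h

/-- restriction of a summable sequence to a set -/
def rXfun (C : Set ℕ) (x : L 1) : L 1 :=
  ⟨C.indicator x, by
    refine memℓp_gen ?_
    have h := summable1 x
    refine Summable.of_nonneg_of_le (fun n => by positivity) (fun n => ?_) h
    simp only [ENNReal.toReal_one, Real.rpow_one]
    by_cases hn : n ∈ C
    · rw [indicator_of_mem hn]
    · rw [indicator_of_notMem hn, norm_zero]; exact norm_nonneg _⟩

lemma rXfun_apply (C : Set ℕ) (x : L 1) (n : ℕ) : rXfun C x n = C.indicator x n := rfl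

/-- restriction as a linear map -/
def rX (C : Set ℕ) : L 1 →ₗ[ℂ] L 1 where
  toFun := rXfun C
  map_add' x y := by
    apply lp.ext
    funext n
    rw [rXfun_apply, lp.coeFn_add, lp.coeFn_add, Pi.add_apply, rXfun_apply, rXfun_apply]
    by_cases hn : n ∈ C
    · rw [indicator_of_mem hn, indicator_of_mem hn, indicator_of_mem hn]; rfl
    · rw [indicator_of_notMem hn, indicator_of_notMem hn, indicator_of_notMem hn, add_zero]
  map_smul' c x := by
    apply lp.ext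
    funext n
    rw [rXfun_apply, lp.coeFn_smul, RingHom.id_apply, lp.coeFn_smul, Pi.smul_apply, rXfun_apply]
    by_cases hn : n ∈ C
    · rw [indicator_of_mem hn, indicator_of_mem hn]; rfl
    · rw [indicator_of_notMem hn, indicator_of_notMem hn]; simp

lemma rX_apply (C : Set ℕ) (x : L 1) (n : ℕ) : rX C x n = C.indicator x n := rfl

lemma norm_rX (C : Set ℕ) (x : L 1) : ‖rX C x‖ = ∑' n, C.indicator (fun n => ‖x n‖) n := by
  rw [norm1]
  congr 1
  funext n
  rw [rX_apply]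
  by_cases hn : n ∈ C
  · rw [indicator_of_mem hn, indicator_of_mem hn]
  · rw [indicator_of_notMem hn, indicator_of_notMem hn, norm_zero]

lemma summable_ind (C : Set ℕ) (x : L 1) : Summable (C.indicator fun n => ‖x n‖) :=
  (summable1 x).indicator C

lemma norm_rX_le (C : Set ℕ) (x : L 1) : ‖rX C x‖ ≤ ‖x‖ := by
  rw [norm_rX, norm1]
  exact (summable_ind C x).tsum_le_tsum
    (fun n => indicator_le_self' (fun n _ => norm_nonneg _) n) (summable1 x)

lemma norm_rX_mono {C D : Set ℕ} (h : C ⊆ D) (x : L 1) : ‖rX C x‖ ≤ ‖rX D x‖ := by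
  rw [norm_rX, norm_rX]
  exact (summable_ind C x).tsum_le_tsum
    (fun n => indicator_le_indicator_of_subset h (fun n => norm_nonneg _) n) (summable_ind D x)

/-- mass is additive over finite partitions of the complement of `C` -/
lemma norm_partition {ι : Type*} [Fintype ι] [DecidableEq ι] (C : Set ℕ) (lam : ℕ → ι) (x : L 1) :
    (∑ i, ‖rX {n | n ∉ C ∧ lam n = i} x‖) + ‖rX C x‖ = ‖x‖ := by
  simp only [norm_rX]
  rw [norm1, ← Summable.tsum_finsetSum (fun i _ => summable_ind _ x),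
    ← Summable.tsum_add (summable_sum fun i _ => summable_ind _ x) (summable_ind C x)]
  congr 1
  funext n
  by_cases hn : n ∈ C
  · rw [indicator_of_mem hn, Finset.sum_eq_zero, zero_add]
    intro i _
    rw [indicator_of_notMem]
    rintro ⟨h, _⟩
    exact h hn
  · rw [indicator_of_notMem hn, add_zero, Finset.sum_eq_single (lam n)]
    · rw [indicator_of_mem]
      exact ⟨hn, rfl⟩
    · intro i _ hi
      rw [indicator_of_notMem]
      rintro ⟨_, h⟩
      exact hi h.symm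
    · intro h
      exact absurd (Finset.mem_univ _) h

lemma summable_mul1 (g : Bd) (x : L 1) : Summable fun n => g n * x n := by
  refine Summable.of_norm_bounded ((summable1 x).mul_left ‖g‖) fun n => ?_
  rw [norm_mul]
  gcongr
  exact g.norm_coe_le_norm n

/-- the functional of a bounded sequence -/
def Tb (g : Bd) : StrongDual ℂ (L 1) :=
  LinearMap.mkContinuous
    { toFun := fun x => ∑' n, g n * x n
      map_add' := fun x y => by
        rw [← Summable.tsum_add (summable_mul1 g x) (summable_mul1 g y)]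
        congr 1
        funext n
        rw [lp.coeFn_add, Pi.add_apply, mul_add]
      map_smul' := fun c x => by
        rw [RingHom.id_apply, smul_eq_mul, ← tsum_mul_left]
        congr 1
        funext n
        rw [lp.coeFn_smul, Pi.smul_apply, smul_eq_mul]
        ring } ‖g‖ (fun x => by
          change ‖∑' n, g n * x n‖ ≤ _
          rw [norm1, ← tsum_mul_left]
          refine tsum_of_norm_bounded ((summable1 x).mul_left ‖g‖).hasSum fun n => ?_
          rw [norm_mul]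
          gcongr
          exact g.norm_coe_le_norm n)

lemma Tb_apply (g : Bd) (x : L 1) : Tb g x = ∑' n, g n * x n := rfl

lemma norm_Tb_le (g : Bd) : ‖Tb g‖ ≤ ‖g‖ := LinearMap.mkContinuous_norm_le _ (norm_nonneg _) _

/-- restriction of a bounded sequence -/
def rBfun (C : Set ℕ) (g : Bd) : Bd :=
  mkBd (C.indicator g) ‖g‖ (fun n => by
    by_cases hn : n ∈ C
    · rw [indicator_of_mem hn]; exact g.norm_coe_le_norm n
    · rw [indicator_of_notMem hn, norm_zero]; exact norm_nonneg _)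

lemma norm_rBfun_le (C : Set ℕ) (g : Bd) : ‖rBfun C g‖ ≤ ‖g‖ := by
  unfold rBfun
  exact norm_mkBd_le _ _ _

/-- restriction as a continuous linear map -/
def rB (C : Set ℕ) : Bd →L[ℂ] Bd :=
  LinearMap.mkContinuous
    { toFun := rBfun C
      map_add' := fun f g => by
        ext n
        change C.indicator (⇑(f + g)) n = C.indicator f n + C.indicator g n
        by_cases hn : n ∈ C
        · simp [indicator_of_mem hn]
        · simp [indicator_of_notMem hn]
      map_smul' := fun c g => by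
        ext n
        change C.indicator (⇑(c • g)) n = c • C.indicator g n
        by_cases hn : n ∈ C
        · simp [indicator_of_mem hn]
        · simp [indicator_of_notMem hn] } 1 (fun g => by
          rw [one_mul]
          exact norm_rBfun_le C g)

lemma rB_apply (C : Set ℕ) (g : Bd) (n : ℕ) : rB C g n = C.indicator g n := rfl

lemma rB_mem {C : Set ℕ} (g : Bd) {n : ℕ} (hn : n ∈ C) : rB C g n = g n := by
  rw [rB_apply, indicator_of_mem hn]

lemma rB_notMem {C : Set ℕ} (g : Bd) {n : ℕ} (hn : n ∉ C) : rB C g n = 0 := by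
  rw [rB_apply, indicator_of_notMem hn]

lemma norm_rB_le (C : Set ℕ) (g : Bd) : ‖rB C g‖ ≤ ‖g‖ := norm_rBfun_le C g

lemma Tb_rB (C : Set ℕ) (g : Bd) (x : L 1) : Tb (rB C g) x = Tb g (rX C x) := by
  rw [Tb_apply, Tb_apply]
  congr 1
  funext n
  rw [rB_apply, rX_apply]
  by_cases hn : n ∈ C
  · rw [indicator_of_mem hn, indicator_of_mem hn]
  · rw [indicator_of_notMem hn, indicator_of_notMem hn]; simp

lemma norm_Tb_rB_le (C : Set ℕ) (g : Bd) (x : L 1) {b : ℝ} (hb : ∀ n ∈ C, ‖g n‖ ≤ b) :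
    ‖Tb (rB C g) x‖ ≤ b * ‖rX C x‖ := by
  rw [Tb_apply, norm_rX, ← tsum_mul_left]
  refine tsum_of_norm_bounded ((summable_ind C x).mul_left b).hasSum fun n => ?_
  by_cases hn : n ∈ C
  · rw [rB_mem g hn, indicator_of_mem hn, norm_mul]
    gcongr
    exact hb n hn
  · rw [rB_notMem g hn, indicator_of_notMem hn]; simp

lemma Tb_add (f g : Bd) : Tb (f + g) = Tb f + Tb g := by
  ext x
  rw [add_apply, Tb_apply, Tb_apply, Tb_apply,
    ← Summable.tsum_add (summable_mul1 f x) (summable_mul1 g x)]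
  congr 1
  funext n
  rw [BoundedContinuousFunction.add_apply, add_mul]

lemma Tb_smul (c : ℂ) (g : Bd) : Tb (c • g) = c • Tb g := by
  ext x
  rw [smul_apply, Tb_apply, Tb_apply, smul_eq_mul, ← tsum_mul_left]
  congr 1
  funext n
  rw [BoundedContinuousFunction.smul_apply, smul_eq_mul, mul_assoc]

/-- `Tb` as a linear map -/
def TbL : Bd →ₗ[ℂ] StrongDual ℂ (L 1) where
  toFun := Tb
  map_add' := Tb_add
  map_smul' := Tb_smul

/-- every functional is given by a bounded sequence -/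
lemma exists_Tb (l : StrongDual ℂ (L 1)) : ∃ g : Bd, Tb g = l ∧ ‖g‖ ≤ ‖l‖ := by
  have hb : ∀ n, ‖l (lp.single 1 n (1 : ℂ))‖ ≤ ‖l‖ := fun n => by
    refine (l.le_opNorm _).trans ?_
    rw [lp.norm_single one_pos, norm_one, mul_one]
  refine ⟨mkBd (fun n => l (lp.single 1 n (1 : ℂ))) ‖l‖ hb, ?_, norm_mkBd_le _ _ _⟩
  ext x
  rw [Tb_apply]
  have h1 := lp.hasSum_single ENNReal.one_ne_top x
  have h2 : HasSum (fun n => l (lp.single 1 n (x n))) (l x) := h1.mapL l
  rw [← h2.tsum_eq]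
  congr 1
  funext n
  rw [mkBd_apply]
  have : lp.single 1 n (x n) = (x n) • (lp.single 1 n (1 : ℂ) : L 1) := by
    rw [← lp.single_smul]; simp
  rw [this, map_smul, smul_eq_mul, mul_comm]

/-- the functional on bounded sequences induced by an element of the bidual -/
def Zc (z : StrongDual ℂ (StrongDual ℂ (L 1))) : Bd →L[ℂ] ℂ :=
  LinearMap.mkContinuous (z.toLinearMap.comp TbL) ‖z‖ (fun g => by
    change ‖z (Tb g)‖ ≤ _
    refine (z.le_opNorm _).trans ?_
    gcongr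
    exact norm_Tb_le g)

lemma Zc_apply (z : StrongDual ℂ (StrongDual ℂ (L 1))) (g : Bd) : Zc z g = z (Tb g) := rfl

lemma norm_Zc (z : StrongDual ℂ (StrongDual ℂ (L 1))) : ‖Zc z‖ = ‖z‖ := by
  refine le_antisymm ?_ ?_
  · refine ContinuousLinearMap.opNorm_le_bound _ (norm_nonneg z) fun g => ?_
    rw [Zc_apply]
    refine (z.le_opNorm _).trans ?_
    gcongr
    exact norm_Tb_le g
  refine ContinuousLinearMap.opNorm_le_bound _ (norm_nonneg _) fun l => ?_
  obtain ⟨g, hg, hgn⟩ := exists_Tb l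
  rw [← hg, ← Zc_apply]
  refine ((Zc z).le_opNorm g).trans ?_
  rw [hg]
  gcongr

/-- variation of a functional on a set -/
def Vr (Z : Bd →L[ℂ] ℂ) (C : Set ℕ) : ℝ := ‖Z.comp (rB C)‖

lemma norm_Z_rB_le (Z : Bd →L[ℂ] ℂ) (C : Set ℕ) (g : Bd) : ‖Z (rB C g)‖ ≤ Vr Z C * ‖g‖ :=
  (Z.comp (rB C)).le_opNorm g

lemma Vr_nonneg (Z : Bd →L[ℂ] ℂ) (C : Set ℕ) : 0 ≤ Vr Z C := norm_nonneg _

lemma rB_rB_of_subset {C D : Set ℕ} (h : C ⊆ D) (g : Bd) : rB D (rB C g) = rB C g := by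
  ext n
  by_cases hn : n ∈ C
  · rw [rB_mem _ (h hn)]
  · rw [rB_notMem g hn]
    by_cases hn' : n ∈ D
    · rw [rB_mem _ hn', rB_notMem g hn]
    · rw [rB_notMem _ hn']

lemma norm_Z_rB_le' (Z : Bd →L[ℂ] ℂ) {C D : Set ℕ} (h : C ⊆ D) (g : Bd) :
    ‖Z (rB C g)‖ ≤ Vr Z D * ‖g‖ := by
  rw [← rB_rB_of_subset h g]
  refine (norm_Z_rB_le Z D _).trans ?_
  have := Vr_nonneg Z D
  gcongr
  exact norm_rB_le C g

lemma Vr_mono (Z : Bd →L[ℂ] ℂ) {C D : Set ℕ} (h : C ⊆ D) : Vr Z C ≤ Vr Z D :=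
  ContinuousLinearMap.opNorm_le_bound _ (norm_nonneg _) fun g => norm_Z_rB_le' Z h g

lemma Vr_univ (Z : Bd →L[ℂ] ℂ) : Vr Z univ = ‖Z‖ := by
  unfold Vr
  congr 1
  ext g
  rw [ContinuousLinearMap.comp_apply]
  congr 1
  ext n
  rw [rB_mem g (mem_univ n)]

/-- superadditivity of the variation -/
lemma Vr_add (Z : Bd →L[ℂ] ℂ) {C D : Set ℕ} (h : Disjoint C D) :
    Vr Z C + Vr Z D ≤ Vr Z (C ∪ D) := by
  refine le_of_forall_pos_le_add fun ε hε => ?_
  have hex : ∀ E : Set ℕ, ∃ g : Bd, ‖g‖ ≤ 1 ∧ Vr Z E - ε / 2 < ‖Z (rB E g)‖ := by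
    intro E
    by_cases hl : Vr Z E - ε / 2 < 0
    · exact ⟨0, by rw [norm_zero]; norm_num, by rw [map_zero, map_zero, norm_zero]; exact hl⟩
    · push Not at hl
      obtain ⟨x, a, b⟩ := ContinuousLinearMap.exists_lt_apply_of_lt_opNorm (Z.comp (rB E))
        (show Vr Z E - ε / 2 < ‖Z.comp (rB E)‖ by unfold Vr; linarith)
      exact ⟨x, a.le, b⟩
  obtain ⟨g₁, hg₁, hg₁'⟩ := hex C
  obtain ⟨g₂, hg₂, hg₂'⟩ := hex D
  obtain ⟨c₁, hc₁, hc₁'⟩ := RCLike.exists_norm_eq_mul_self (Z (rB C g₁))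
  obtain ⟨c₂, hc₂, hc₂'⟩ := RCLike.exists_norm_eq_mul_self (Z (rB D g₂))
  set g : Bd := c₁ • rB C g₁ + c₂ • rB D g₂ with hg
  have hgval : ∀ n, g n = c₁ * rB C g₁ n + c₂ * rB D g₂ n := fun n => rfl
  have hgn : ‖g‖ ≤ 1 := by
    refine norm_Bd_le zero_le_one fun n => ?_
    rw [hgval]
    by_cases hn : n ∈ C
    · have hn' : n ∉ D := fun h' => (Set.disjoint_left.mp h) hn h'
      rw [rB_mem _ hn, rB_notMem _ hn', mul_zero, add_zero, norm_mul, hc₁, one_mul]
      exact (g₁.norm_coe_le_norm n).trans hg₁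
    · rw [rB_notMem _ hn, mul_zero, zero_add, norm_mul, hc₂, one_mul]
      exact (((rB D g₂).norm_coe_le_norm n).trans (norm_rB_le D g₂)).trans hg₂
  have hgr : rB (C ∪ D) g = g := by
    ext n
    by_cases hn : n ∈ C ∪ D
    · rw [rB_mem _ hn]
    · rw [rB_notMem _ hn, hgval, rB_notMem _ fun h' => hn (Or.inl h'),
        rB_notMem _ fun h' => hn (Or.inr h')]
      simp
  have hZ : Z (rB (C ∪ D) g) = ((‖Z (rB C g₁)‖ + ‖Z (rB D g₂)‖ : ℝ) : ℂ) := by
    rw [hgr, hg, map_add, map_smul, map_smul, smul_eq_mul, smul_eq_mul]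
    push_cast
    have e1 : ((‖Z (rB C g₁)‖ : ℝ) : ℂ) = c₁ * Z (rB C g₁) := hc₁'
    have e2 : ((‖Z (rB D g₂)‖ : ℝ) : ℂ) = c₂ * Z (rB D g₂) := hc₂'
    rw [e1, e2]
  have h1 := norm_Z_rB_le Z (C ∪ D) g
  rw [hZ, Complex.norm_real, Real.norm_of_nonneg (by positivity)] at h1
  have h2 : Vr Z (C ∪ D) * ‖g‖ ≤ Vr Z (C ∪ D) * 1 := by
    have := Vr_nonneg Z (C ∪ D)
    gcongr
  linarith

/-- a unimodular nearly norming sequence -/
lemma exists_unimodular (Z : Bd →L[ℂ] ℂ) {δ : ℝ} (hδ : 0 < δ) :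
    ∃ h : Bd, (∀ n, ‖h n‖ = 1) ∧ ‖Z‖ - δ ≤ ‖Z h‖ := by
  obtain ⟨g, hg, hg'⟩ : ∃ g : Bd, ‖g‖ ≤ 1 ∧ ‖Z‖ - δ / 2 < ‖Z g‖ := by
    by_cases hl : ‖Z‖ - δ / 2 < 0
    · exact ⟨0, by rw [norm_zero]; norm_num, by rw [map_zero, norm_zero]; exact hl⟩
    · push Not at hl
      obtain ⟨x, a, b⟩ := ContinuousLinearMap.exists_lt_apply_of_lt_opNorm Z
        (show ‖Z‖ - δ / 2 < ‖Z‖ by linarith)
      exact ⟨x, a.le, b⟩
  have hg1 : ∀ n, ‖g n‖ ≤ 1 := fun n => (g.norm_coe_le_norm n).trans hg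
  -- phases
  have hu : ∀ n, ∃ u : ℂ, ‖u‖ = 1 ∧ g n = ‖g n‖ * u := by
    intro n
    rcases eq_or_ne (g n) 0 with h0 | h0
    · exact ⟨1, norm_one, by rw [h0, norm_zero]; simp⟩
    · have hne : ((‖g n‖ : ℝ) : ℂ) ≠ 0 := by
        exact_mod_cast norm_ne_zero_iff.mpr h0
      refine ⟨g n / ‖g n‖, ?_, ?_⟩
      · rw [norm_div, Complex.norm_real, norm_norm, div_self (norm_ne_zero_iff.mpr h0)]
      · rw [mul_div_cancel₀ _ hne]
  choose u hu1 hu2 using hu
  set h : Bd := mkBd u 1 (fun n => (hu1 n).le) with hh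
  set e : Bd := h - g with he
  have hev : ∀ n, e n = ((1 - ‖g n‖ : ℝ) : ℂ) * u n := by
    intro n
    have : e n = u n - g n := rfl
    rw [this]
    nth_rewrite 1 [hu2 n]
    push_cast
    ring
  obtain ⟨c, hc, hc'⟩ := RCLike.exists_norm_eq_mul_self (Z e)
  obtain ⟨c₂, hc₂, hc₂'⟩ := RCLike.exists_norm_eq_mul_self (Z g)
  have hc3 : ((‖Z e‖ : ℝ) : ℂ) = c * Z e := hc'
  have hc4 : ((‖Z g‖ : ℝ) : ℂ) = c₂ * Z g := hc₂'
  set f : Bd := c₂ • g + c • e with hf
  have hfn : ‖f‖ ≤ 1 := by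
    refine norm_Bd_le zero_le_one fun n => ?_
    have : f n = c₂ * g n + c * e n := rfl
    rw [this]
    refine (norm_add_le _ _).trans ?_
    rw [norm_mul, norm_mul, hc, hc₂, one_mul, one_mul, hev, norm_mul, hu1, mul_one,
      Complex.norm_real, Real.norm_of_nonneg (by linarith [hg1 n])]
    linarith
  have hZf : Z f = ((‖Z g‖ + ‖Z e‖ : ℝ) : ℂ) := by
    rw [hf, map_add, map_smul, map_smul, smul_eq_mul, smul_eq_mul]
    push_cast
    rw [hc3, hc4]
  have h1 := Z.le_opNorm f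
  rw [hZf, Complex.norm_real, Real.norm_of_nonneg (by positivity)] at h1
  have h2 : ‖Z‖ * ‖f‖ ≤ ‖Z‖ * 1 := by gcongr
  have h3 : ‖Z e‖ ≤ δ / 2 := by linarith
  refine ⟨h, fun n => hu1 n, ?_⟩
  have h4 : Z g = Z h - Z e := by rw [he, map_sub]; ring
  have h5 : ‖Z g‖ ≤ ‖Z h‖ + ‖Z e‖ := by rw [h4]; exact norm_sub_le _ _
  linarith

end

end Pool.Agent.Lib.MP_164614_an
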