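import Mathlib
import Pool.Agent.Lib.MP_164614_an.L1
import Pool.Agent.Lib.MP_164614_an.Au

set_option autoImplicit false

namespace Pool.Agent.Lib.MP_164614_an

open Set Filter Topology Metric
open scoped ENNReal

noncomputable section

/-- inner sums of a bounded kernel -/
def kin (κ : ℕ → ℕ → ℂ) (M : ℝ) (hκ : ∀ n m, ‖κ n m‖ ≤ M) (y : L 1) : Bd :=
  mkBd (fun n => Tb (mkBd (κ n) M (hκ n)) y) (M * ‖y‖) (fun n => by
    refine (ContinuousLinearMap.le_opNorm _ _).trans ?_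
    gcongr
    exact (norm_Tb_le _).trans (norm_mkBd_le _ _ _))

lemma kin_apply (κ : ℕ → ℕ → ℂ) (M : ℝ) (hκ : ∀ n m, ‖κ n m‖ ≤ M) (y : L 1) (n : ℕ) :
    kin κ M hκ y n = ∑' m, κ n m * y m := rfl

lemma kin_add (κ : ℕ → ℕ → ℂ) (M : ℝ) (hκ : ∀ n m, ‖κ n m‖ ≤ M) (y y' : L 1) :
    kin κ M hκ (y + y') = kin κ M hκ y + kin κ M hκ y' := by
  ext n
  change Tb (mkBd (κ n) M (hκ n)) (y + y') = Tb (mkBd (κ n) M (hκ n)) y +
    Tb (mkBd (κ n) M (hκ n)) y'
  rw [map_add]

lemma kin_smul (κ : ℕ → ℕ → ℂ) (M : ℝ) (hκ : ∀ n m, ‖κ n m‖ ≤ M) (c : ℂ) (y : L 1) :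
    kin κ M hκ (c • y) = c • kin κ M hκ y := by
  ext n
  change Tb (mkBd (κ n) M (hκ n)) (c • y) = c • Tb (mkBd (κ n) M (hκ n)) y
  rw [map_smul]

/-- the bilinear form of a bounded kernel -/
def Bf (κ : ℕ → ℕ → ℂ) (M : ℝ) (hκ : ∀ n m, ‖κ n m‖ ≤ M) : L 1 →L[ℂ] L 1 →L[ℂ] ℂ :=
  LinearMap.mkContinuous₂
    (LinearMap.mk₂ ℂ (fun x y => Tb (kin κ M hκ y) x)
      (fun x x' y => map_add _ x x')
      (fun c x y => map_smul _ c x)
      (fun x y y' => by rw [kin_add, Tb_add, add_apply])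
      (fun c x y => by rw [kin_smul, Tb_smul, smul_apply])) M
    (fun x y => by
      change ‖Tb (kin κ M hκ y) x‖ ≤ _
      refine (ContinuousLinearMap.le_opNorm _ _).trans ?_
      have h1 : ‖Tb (kin κ M hκ y)‖ ≤ M * ‖y‖ := (norm_Tb_le _).trans (norm_mkBd_le _ _ _)
      calc ‖Tb (kin κ M hκ y)‖ * ‖x‖ ≤ (M * ‖y‖) * ‖x‖ := by gcongr
        _ = M * ‖x‖ * ‖y‖ := by ring)

lemma Bf_apply (κ : ℕ → ℕ → ℂ) (M : ℝ) (hκ : ∀ n m, ‖κ n m‖ ≤ M) (x y : L 1) :
    Bf κ M hκ x y = ∑' n, (∑' m, κ n m * y m) * x n := rfl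

lemma norm_Bf_le (κ : ℕ → ℕ → ℂ) (M : ℝ) (hκ : ∀ n m, ‖κ n m‖ ≤ M) (x y : L 1) :
    ‖Bf κ M hκ x y‖ ≤ M * ‖x‖ * ‖y‖ := by
  change ‖Tb (kin κ M hκ y) x‖ ≤ _
  refine (ContinuousLinearMap.le_opNorm _ _).trans ?_
  have h1 : ‖Tb (kin κ M hκ y)‖ ≤ M * ‖y‖ := (norm_Tb_le _).trans (norm_mkBd_le _ _ _)
  calc ‖Tb (kin κ M hκ y)‖ * ‖x‖ ≤ (M * ‖y‖) * ‖x‖ := by gcongr
    _ = M * ‖x‖ * ‖y‖ := by ring

lemma Bf_single (κ : ℕ → ℕ → ℂ) (M : ℝ) (hκ : ∀ n m, ‖κ n m‖ ≤ M) (n m : ℕ) :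
    Bf κ M hκ (lp.single 1 n (1 : ℂ)) (lp.single 1 m (1 : ℂ)) = κ n m := by
  rw [Bf_apply, tsum_eq_single n]
  · rw [lp.single_apply_self, mul_one, tsum_eq_single m]
    · rw [lp.single_apply_self, mul_one]
    · intro k hk
      rw [lp.single_apply_ne 1 m _ hk, mul_zero]
  · intro k hk
    rw [lp.single_apply_ne 1 n _ hk, mul_zero]

/-- truncation -/
def tr (N : ℕ) (y : L 1) : L 1 := y - tl 1 N y

lemma tr_apply (N : ℕ) (y : L 1) (n : ℕ) : tr N y n = if n < N then y n else 0 := by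
  unfold tr
  rw [lp.coeFn_sub, Pi.sub_apply, tl_apply]
  split_ifs <;> simp

lemma tr_tendsto (y : L 1) : Tendsto (fun N => tr N y) atTop (𝓝 y) := by
  have h1 := (lp.hasSum_single (p := 1) ENNReal.one_ne_top y).tendsto_sum_nat
  refine h1.congr fun N => ?_
  unfold tr tl
  rw [sub_sub_cancel]

lemma Bf_tr (κ : ℕ → ℕ → ℂ) (M : ℝ) (hκ : ∀ n m, ‖κ n m‖ ≤ M) (N : ℕ) (y : L 1) :
    Bf κ M hκ (tr N y) (tr N y) =
      ∑ n ∈ Finset.range N, (∑ m ∈ Finset.range N, κ n m * y m) * y n := by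
  rw [Bf_apply, tsum_eq_sum (s := Finset.range N)]
  · refine Finset.sum_congr rfl fun n hn => ?_
    rw [tr_apply, if_pos (Finset.mem_range.mp hn), tsum_eq_sum (s := Finset.range N)]
    · congr 1
      refine Finset.sum_congr rfl fun m hm => ?_
      rw [tr_apply, if_pos (Finset.mem_range.mp hm)]
    · intro m hm
      rw [tr_apply, if_neg (by simpa using hm), mul_zero]
  · intro n hn
    rw [tr_apply, if_neg (by simpa using hn), mul_zero]

/-- weighted Mantel theorem -/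
lemma mantel (adj : ℕ → ℕ → Prop) [DecidableRel adj] (hsym : ∀ n m, adj n m → adj m n)
    (htri : ∀ n m l, adj n m → adj m l → adj n l → False) (s : Finset ℕ) (w : ℕ → ℝ)
    (hw : ∀ n, 0 ≤ w n) :
    2 * ∑ n ∈ s, ∑ m ∈ s, (if adj n m then w m * w n else 0) ≤ (∑ n ∈ s, w n) ^ 2 := by
  rcases s.eq_empty_or_nonempty with he | hne
  · subst he; simp
  · set Nb : ℕ → ℝ := fun v => ∑ m ∈ s, if adj v m then w m else 0 with hNb
    obtain ⟨v, hv, hmax⟩ := Finset.exists_max_image s Nb hne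
    set W := ∑ n ∈ s, w n with hW
    have hNb0 : ∀ u, 0 ≤ Nb u := fun u => Finset.sum_nonneg fun m _ => by
      split_ifs
      · exact hw m
      · exact le_rfl
    -- split each pair
    have hpt : ∀ n ∈ s, ∀ m ∈ s, (if adj n m then w m * w n else 0) ≤
        (if adj v n then 0 else (if adj n m then w m * w n else 0)) +
        (if adj v m then 0 else (if adj m n then w n * w m else 0)) := by
      intro n _ m _
      have hp : 0 ≤ w m * w n := mul_nonneg (hw m) (hw n)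
      have hp' : 0 ≤ w n * w m := mul_nonneg (hw n) (hw m)
      by_cases h1 : adj n m
      · have h2 : adj m n := hsym _ _ h1
        by_cases h3 : adj v n
        · by_cases h4 : adj v m
          · exact (htri v n m h3 h1 h4).elim
          · simp only [h1, h2, h3, h4, if_true, if_false]
            linarith
        · by_cases h4 : adj v m
          · simp only [h1, h2, h3, h4, if_true, if_false]; linarith
          · simp only [h1, h2, h3, h4, if_true, if_false]; linarith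
      · have h2 : ¬ adj m n := fun h => h1 (hsym _ _ h)
        simp only [h1, h2, if_false]
        split_ifs <;> simp
    have hsum : ∑ n ∈ s, ∑ m ∈ s, (if adj n m then w m * w n else 0) ≤
        2 * ∑ n ∈ s, (if adj v n then 0 else w n * Nb n) := by
      calc ∑ n ∈ s, ∑ m ∈ s, (if adj n m then w m * w n else 0)
          ≤ ∑ n ∈ s, ∑ m ∈ s, ((if adj v n then 0 else (if adj n m then w m * w n else 0)) +
            (if adj v m then 0 else (if adj m n then w n * w m else 0))) :=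
            Finset.sum_le_sum fun n hn => Finset.sum_le_sum fun m hm => hpt n hn m hm
        _ = (∑ n ∈ s, ∑ m ∈ s, (if adj v n then 0 else (if adj n m then w m * w n else 0))) +
            ∑ m ∈ s, ∑ n ∈ s, (if adj v m then 0 else (if adj m n then w n * w m else 0)) := by
            simp only [Finset.sum_add_distrib]
            congr 1
            exact Finset.sum_comm
        _ = 2 * ∑ n ∈ s, (if adj v n then 0 else w n * Nb n) := by
            have e : ∀ n ∈ s, (∑ m ∈ s, if adj v n then 0 else (if adj n m then w m * w n else 0))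
                = if adj v n then 0 else w n * Nb n := by
              intro n _
              by_cases h : adj v n
              · simp [h]
              · simp only [h, if_false]
                rw [hNb, Finset.mul_sum]
                refine Finset.sum_congr rfl fun m _ => ?_
                split_ifs
                · ring
                · ring
            rw [Finset.sum_congr rfl e]
            ring
    have hsum2 : ∑ n ∈ s, (if adj v n then 0 else w n * Nb n) ≤ (W - Nb v) * Nb v := by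
      have h1 : ∑ n ∈ s, (if adj v n then 0 else w n * Nb n) ≤
          ∑ n ∈ s, (if adj v n then 0 else w n) * Nb v := by
        refine Finset.sum_le_sum fun n hn => ?_
        by_cases h : adj v n
        · simp [h]
        · simp only [h, if_false]
          exact mul_le_mul_of_nonneg_left (hmax n hn) (hw n)
      refine h1.trans (le_of_eq ?_)
      rw [← Finset.sum_mul]
      congr 1
      rw [hW, hNb, ← Finset.sum_sub_distrib]
      refine Finset.sum_congr rfl fun n _ => ?_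
      split_ifs <;> ring
    nlinarith [sq_nonneg (W - 2 * Nb v)]

section graph

variable (adj : ℕ → ℕ → Prop)

open Classical in
/-- kernel of the form `Q` -/
def kQ (n m : ℕ) : ℂ := if adj n m then 2 else 0

open Classical in
/-- kernel of the form `R` -/
def kR (n m : ℕ) : ℂ := if adj n m then 1 else -1

lemma kQ_le (n m : ℕ) : ‖kQ adj n m‖ ≤ 2 := by
  unfold kQ; split_ifs <;> simp

lemma kR_le (n m : ℕ) : ‖kR adj n m‖ ≤ 1 := by
  unfold kR; split_ifs <;> simp

/-- the form `Q` -/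
def Qf (y : L 1) : ℂ := Bf (kQ adj) 2 (kQ_le adj) y y

/-- the form `R` -/
def Rf (y : L 1) : ℂ := Bf (kR adj) 1 (kR_le adj) y y

/-- the form `q = (Q + R) / 2` -/
def qf (y : L 1) : ℂ := (1 / 2) * (Qf adj y + Rf adj y)

/-- the constant sequence one -/
def oneB : Bd := mkBd (fun _ => 1) 1 (fun _ => by simp)

lemma Qf_sub_Rf (y : L 1) : Qf adj y - Rf adj y = (Tb oneB y) ^ 2 := by
  unfold Qf Rf
  rw [Bf_apply, Bf_apply, Tb_apply]
  have hs : Summable fun m => y m := (summable1 y).of_norm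
  have e1 : ∀ n, (∑' m, kQ adj n m * y m) = (∑' m, kR adj n m * y m) + ∑' m, y m := by
    intro n
    have h1 : Summable fun m => kR adj n m * y m :=
      summable_mul1 (mkBd (kR adj n) 1 (kR_le adj n)) y
    rw [← h1.tsum_add hs]
    congr 1
    funext m
    unfold kQ kR
    split_ifs <;> ring
  have h2 : Summable fun n => (∑' m, kR adj n m * y m) * y n :=
    summable_mul1 (kin (kR adj) 1 (kR_le adj) y) y
  have h3 : Summable fun n => (∑' m, y m) * y n := hs.mul_left _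
  have e2 : (∑' n, (∑' m, kQ adj n m * y m) * y n) =
      (∑' n, (∑' m, kR adj n m * y m) * y n) + ∑' n, (∑' m, y m) * y n := by
    rw [← h2.tsum_add h3]
    congr 1
    funext n
    rw [e1, add_mul]
  rw [e2, tsum_mul_left]
  have e3 : (∑' n, oneB n * y n) = ∑' n, y n := by
    congr 1
    funext n
    change (1 : ℂ) * y n = y n
    rw [one_mul]
  rw [e3]
  ring

lemma norm_Rf_le (y : L 1) : ‖Rf adj y‖ ≤ ‖y‖ ^ 2 := by
  refine (norm_Bf_le _ _ _ _ _).trans (le_of_eq ?_)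
  ring

variable {adj}

lemma norm_Qf_le (hsym : ∀ n m, adj n m → adj m n)
    (htri : ∀ n m l, adj n m → adj m l → adj n l → False) (y : L 1) :
    ‖Qf adj y‖ ≤ ‖y‖ ^ 2 := by
  classical
  have hcont : Continuous fun y : L 1 => ‖Qf adj y‖ := by
    unfold Qf
    fun_prop
  have h1 : Tendsto (fun N => ‖Qf adj (tr N y)‖) atTop (𝓝 ‖Qf adj y‖) :=
    (hcont.tendsto y).comp (tr_tendsto y)
  refine le_of_tendsto h1 (Eventually.of_forall fun N => ?_)
  unfold Qf
  rw [Bf_tr]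
  calc ‖∑ n ∈ Finset.range N, (∑ m ∈ Finset.range N, kQ adj n m * y m) * y n‖
      ≤ ∑ n ∈ Finset.range N, ∑ m ∈ Finset.range N,
        (2 * if adj n m then ‖y m‖ * ‖y n‖ else 0) := by
        refine (norm_sum_le _ _).trans (Finset.sum_le_sum fun n _ => ?_)
        rw [Finset.sum_mul]
        refine (norm_sum_le _ _).trans (Finset.sum_le_sum fun m _ => ?_)
        rw [norm_mul, norm_mul]
        unfold kQ
        split_ifs with h
        · have : ‖(2 : ℂ)‖ = 2 := by norm_num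
          rw [this]; linarith
        · simp
    _ = 2 * ∑ n ∈ Finset.range N, ∑ m ∈ Finset.range N,
        (if adj n m then ‖y m‖ * ‖y n‖ else 0) := by
        rw [Finset.mul_sum]
        refine Finset.sum_congr rfl fun n _ => ?_
        rw [Finset.mul_sum]
    _ ≤ (∑ n ∈ Finset.range N, ‖y n‖) ^ 2 :=
        mantel adj hsym htri (Finset.range N) (fun n => ‖y n‖) (fun n => norm_nonneg _)
    _ ≤ ‖y‖ ^ 2 := by
        gcongr
        rw [norm1]
        exact (summable1 y).sum_le_tsum _ fun n _ => norm_nonneg _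

lemma norm_qf_le (hsym : ∀ n m, adj n m → adj m n)
    (htri : ∀ n m l, adj n m → adj m l → adj n l → False) (y : L 1) :
    ‖qf adj y‖ ≤ ‖y‖ ^ 2 := by
  unfold qf
  rw [norm_mul]
  have h1 := norm_Qf_le hsym htri y
  have h2 := norm_Rf_le adj y
  have h3 := norm_add_le (Qf adj y) (Rf adj y)
  have : ‖(1 / 2 : ℂ)‖ = 1 / 2 := by norm_num
  rw [this]
  linarith

/-- the sum functional is small where `q` is nearly maximal -/
lemma norm_sum_pow_le (hsym : ∀ n m, adj n m → adj m n)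
    (htri : ∀ n m l, adj n m → adj m l → adj n l → False) (y : L 1) :
    ‖Tb oneB y‖ ^ 4 ≤ 4 * (‖y‖ ^ 4 - ‖qf adj y‖ ^ 2) := by
  have h1 := norm_Qf_le hsym htri y
  have h2 := norm_Rf_le adj y
  have h3 := Qf_sub_Rf adj y
  have h4 : ‖Tb oneB y‖ ^ 4 = ‖Qf adj y - Rf adj y‖ ^ 2 := by
    rw [h3, norm_pow]; ring
  have h5 := parallelogram_law_with_norm ℝ (Qf adj y) (Rf adj y)
  have h6 : ‖Qf adj y + Rf adj y‖ = 2 * ‖qf adj y‖ := by
    unfold qf
    rw [norm_mul]
    have : ‖(1 / 2 : ℂ)‖ = 1 / 2 := by norm_num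
    rw [this]; ring
  rw [h4]
  have h7 : ‖Qf adj y‖ ^ 2 ≤ ‖y‖ ^ 4 := by
    calc ‖Qf adj y‖ ^ 2 ≤ (‖y‖ ^ 2) ^ 2 := by gcongr
      _ = ‖y‖ ^ 4 := by ring
  have h8 : ‖Rf adj y‖ ^ 2 ≤ ‖y‖ ^ 4 := by
    calc ‖Rf adj y‖ ^ 2 ≤ (‖y‖ ^ 2) ^ 2 := by gcongr
      _ = ‖y‖ ^ 4 := by ring
  rw [h6] at h5
  nlinarith

lemma Bf_diff (κ : ℕ → ℕ → ℂ) (M : ℝ) (hκ : ∀ n m, ‖κ n m‖ ≤ M) (x y : L 1) :
    ‖Bf κ M hκ x x - Bf κ M hκ y y‖ ≤ M * ‖x - y‖ * (‖x‖ + ‖y‖) := by
  have e : Bf κ M hκ x x - Bf κ M hκ y y = Bf κ M hκ (x - y) x + Bf κ M hκ y (x - y) := by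
    rw [map_sub, map_sub, sub_apply]
    ring
  rw [e]
  refine (norm_add_le _ _).trans ?_
  have h1 := norm_Bf_le κ M hκ (x - y) x
  have h2 := norm_Bf_le κ M hκ y (x - y)
  nlinarith [norm_nonneg (x - y), norm_nonneg x, norm_nonneg y]

lemma qf_diff (adj : ℕ → ℕ → Prop) (x y : L 1) :
    ‖qf adj x - qf adj y‖ ≤ 3 / 2 * ‖x - y‖ * (‖x‖ + ‖y‖) := by
  have h1 := Bf_diff (kQ adj) 2 (kQ_le adj) x y
  have h2 := Bf_diff (kR adj) 1 (kR_le adj) x y
  have e : qf adj x - qf adj y = (1 / 2) * ((Qf adj x - Qf adj y) + (Rf adj x - Rf adj y)) := by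
    unfold qf; ring
  rw [e, norm_mul]
  have h3 := norm_add_le (Qf adj x - Qf adj y) (Rf adj x - Rf adj y)
  have : ‖(1 / 2 : ℂ)‖ = 1 / 2 := by norm_num
  rw [this]
  have h1' : ‖Qf adj x - Qf adj y‖ ≤ 2 * ‖x - y‖ * (‖x‖ + ‖y‖) := h1
  have h2' : ‖Rf adj x - Rf adj y‖ ≤ 1 * ‖x - y‖ * (‖x‖ + ‖y‖) := h2
  linarith

lemma qf_differentiable (adj : ℕ → ℕ → Prop) : Differentiable ℂ (qf adj) := by
  unfold qf Qf Rf
  fun_prop

lemma qf_smul (adj : ℕ → ℕ → Prop) (c : ℂ) (y : L 1) : qf adj (c • y) = c ^ 2 * qf adj y := by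
  unfold qf Qf Rf
  simp only [map_smul, smul_apply, smul_eq_mul]
  ring

lemma qf_edge (hsym : ∀ n m, adj n m → adj m n) (hirr : ∀ n, ¬ adj n n) {n m : ℕ}
    (h : adj n m) (c : ℂ) :
    qf adj ((c / 2) • (lp.single 1 n (1 : ℂ) - lp.single 1 m (1 : ℂ))) = -c ^ 2 := by
  rw [qf_smul]
  unfold qf Qf Rf
  simp only [map_sub, sub_apply, Bf_single]
  unfold kQ kR
  rw [if_pos h, if_pos (hsym _ _ h), if_neg (hirr n), if_neg (hirr m), if_pos h,
    if_pos (hsym _ _ h), if_neg (hirr n), if_neg (hirr m)]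
  ring

end graph

/-- restriction as a continuous linear map -/
def rXc (C : Set ℕ) : L 1 →L[ℂ] L 1 :=
  (rX C).mkContinuous 1 (fun x => by rw [one_mul]; exact norm_rX_le C x)

lemma rXc_apply (C : Set ℕ) (x : L 1) : rXc C x = rX C x := rfl

/-- the noise form as an element of the algebra -/
def qA (adj : ℕ → ℕ → Prop) (C : Set ℕ) : Au (L 1) :=
  mkAu (fun x => qf adj (rXc C x))
    (((qf_differentiable adj).comp (rXc C).differentiable).differentiableOn)
    (by
      have hb : ∀ x : ball (0 : L 1) 1, ‖rXc C (x : L 1)‖ ≤ 1 := fun x =>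
        (norm_rX_le C _).trans (mem_ball_zero_iff.mp x.2).le
      have hL : LipschitzWith 3 fun x : ball (0 : L 1) 1 => qf adj (rXc C (x : L 1)) := by
        refine LipschitzWith.of_dist_le_mul fun x y => ?_
        rw [dist_eq_norm, Subtype.dist_eq, dist_eq_norm]
        refine (qf_diff adj _ _).trans ?_
        have h1 := hb x
        have h2 := hb y
        have h3 : ‖rXc C (x : L 1) - rXc C (y : L 1)‖ ≤ ‖(x : L 1) - y‖ := by
          rw [← map_sub]; exact norm_rX_le C _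
        have h4 : 0 ≤ ‖rXc C (x : L 1) - rXc C (y : L 1)‖ := norm_nonneg _
        have h5 : ((3 : NNReal) : ℝ) = 3 := rfl
        rw [h5]
        calc 3 / 2 * ‖rXc C (x : L 1) - rXc C (y : L 1)‖ * (‖rXc C (x : L 1)‖ + ‖rXc C (y : L 1)‖)
            ≤ 3 / 2 * ‖(x : L 1) - y‖ * (1 + 1) := by gcongr
          _ = 3 * ‖(x : L 1) - y‖ := by ring
      exact hL.uniformContinuous)
    3 (fun x => by
      have h1 : ‖rXc C (x : L 1)‖ ≤ 1 := (norm_rX_le C _).trans (mem_ball_zero_iff.mp x.2).le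
      have h2 := qf_diff adj (rXc C (x : L 1)) 0
      have h3 : qf adj (0 : L 1) = 0 := by
        unfold qf Qf Rf; simp
      rw [h3, sub_zero, sub_zero, norm_zero, add_zero] at h2
      refine h2.trans ?_
      nlinarith [norm_nonneg (rXc C (x : L 1))])

lemma ev_qA (adj : ℕ → ℕ → Prop) (C : Set ℕ) (x : ball (0 : L 1) 1) :
    ev x (qA adj C) = qf adj (rX C (x : L 1)) := rfl

end

end Pool.Agent.Lib.MP_164614_an
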