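import Mathlib
import Pool.Agent.Lib.MP_164614_an.Forms
import Pool.Agent.Lib.MP_164614_an.MainP

set_option autoImplicit false

namespace Pool.Agent.Lib.MP_164614_an

open Set Filter Topology Metric
open scoped ENNReal

noncomputable section

/-- the basic quadratic estimate -/
lemma quad_est {w : ℂ} {τ m K : ℝ} (hK : 0 ≤ K) (hw : ‖w‖ ≤ m) (hm : m ≤ 1) :
    ((4 * K : ℝ) * (w - τ) - (K : ℂ) * (w - τ) ^ 2).re ≤ 4 * K * (m - τ) - K * ‖w - τ‖ ^ 2 := by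
  have e1 : ((4 * K : ℝ) * (w - τ) - (K : ℂ) * (w - τ) ^ 2).re =
      4 * K * (w.re - τ) - K * ((w.re - τ) ^ 2 - w.im ^ 2) := by
    rw [Complex.sub_re, Complex.re_ofReal_mul, Complex.re_ofReal_mul, pow_two, Complex.mul_re]
    simp only [Complex.sub_re, Complex.ofReal_re, Complex.sub_im, Complex.ofReal_im, sub_zero]
    ring
  have e2 : ‖w - τ‖ ^ 2 = (w.re - τ) ^ 2 + w.im ^ 2 := by
    rw [← Complex.normSq_eq_norm_sq, Complex.normSq_apply]
    simp only [Complex.sub_re, Complex.ofReal_re, Complex.sub_im, Complex.ofReal_im, sub_zero]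
    ring
  have e3 : ‖w‖ ^ 2 = w.re ^ 2 + w.im ^ 2 := by
    rw [← Complex.normSq_eq_norm_sq, Complex.normSq_apply]
    ring
  rw [e1, e2]
  have h1 : w.re ≤ ‖w‖ := Complex.re_le_norm w
  have h2 : 0 ≤ ‖w‖ := norm_nonneg w
  have h3 : w.im ^ 2 ≤ 2 * (‖w‖ - w.re) := by nlinarith
  nlinarith

/-- a phase -/
def ph (w : ℂ) : ℂ := (RCLike.exists_norm_eq_mul_self w).choose

lemma norm_ph (w : ℂ) : ‖ph w‖ = 1 := (RCLike.exists_norm_eq_mul_self w).choose_spec.1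

lemma ph_mul (w : ℂ) : ph w * w = (‖w‖ : ℝ) := (RCLike.exists_norm_eq_mul_self w).choose_spec.2.symm

variable {ι : Type} [Fintype ι]

/-- cells -/
def Ls (C : Set ℕ) (lam : ℕ → ι) (i : ι) : Set ℕ := {n | n ∉ C ∧ lam n = i}

/-- normalised functionals of the cells -/
def wB (Z : Bd →L[ℂ] ℂ) (C : Set ℕ) (lam : ℕ → ι) (h : Bd) (i : ι) : Bd :=
  ph (Z (rB (Ls C lam i) h)) • rB (Ls C lam i) h

/-- targets -/
def ta (Z : Bd →L[ℂ] ℂ) (C : Set ℕ) (lam : ℕ → ι) (h : Bd) (i : ι) : ℝ :=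
  ‖Z (rB (Ls C lam i) h)‖

/-- defects as elements of the algebra -/
def dA (Z : Bd →L[ℂ] ℂ) (C : Set ℕ) (lam : ℕ → ι) (h : Bd) (i : ι) : Au (L 1) :=
  ofDual (Tb (wB Z C lam h i)) - algebraMap ℂ (Au (L 1)) (ta Z C lam h i)

/-- defects at points -/
def dv (Z : Bd →L[ℂ] ℂ) (C : Set ℕ) (lam : ℕ → ι) (h : Bd) (x : L 1) (i : ι) : ℂ :=
  Tb (rB (Ls C lam i) h) x - Z (rB (Ls C lam i) h)

omit [Fintype ι] in
lemma ev_dA (Z : Bd →L[ℂ] ℂ) (C : Set ℕ) (lam : ℕ → ι) (h : Bd) (i : ι)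
    (x : ball (0 : L 1) 1) : ev x (dA Z C lam h i) = Tb (wB Z C lam h i) (x : L 1) -
      (ta Z C lam h i : ℂ) := by
  unfold dA
  rw [map_sub, AlgHomClass.commutes, ev_ofDual]
  rfl

omit [Fintype ι] in
lemma Tb_wB (Z : Bd →L[ℂ] ℂ) (C : Set ℕ) (lam : ℕ → ι) (h : Bd) (i : ι) (x : L 1) :
    Tb (wB Z C lam h i) x - (ta Z C lam h i : ℂ) =
      ph (Z (rB (Ls C lam i) h)) * dv Z C lam h x i := by
  unfold wB ta dv
  rw [Tb_smul, smul_apply, smul_eq_mul, mul_sub, ph_mul]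

omit [Fintype ι] in
lemma spec_dA (z : StrongDual ℂ (StrongDual ℂ (L 1))) (C : Set ℕ) (lam : ℕ → ι) (h : Bd) (i : ι)
    (ψ : Spec (Au (L 1))) (hψ : ∀ l : StrongDual ℂ (L 1), ψ (ofDual l) = z l) :
    ψ (dA (Zc z) C lam h i) = 0 := by
  unfold dA
  rw [map_sub, AlgHomClass.commutes, hψ, ← Zc_apply]
  unfold wB ta
  rw [map_smul, smul_eq_mul, ph_mul]
  exact sub_self _

/-- the exponential factor -/
def EA (Z : Bd →L[ℂ] ℂ) (C : Set ℕ) (lam : ℕ → ι) (h : Bd) (K : ℝ) : Au (L 1) :=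
  NormedSpace.exp (∑ i, (((4 * K : ℝ) : ℂ) • dA Z C lam h i - (K : ℂ) • dA Z C lam h i ^ 2))

lemma spec_expsum {A : Type*} [NormedCommRing A] [NormedAlgebra ℂ A] [CompleteSpace A] (ψ : Spec A)
    (a : ι → A) (K K' : ℂ) :
    ψ (NormedSpace.exp (∑ i, (K • a i - K' • a i ^ 2))) =
      Complex.exp (∑ i, (K * ψ (a i) - K' * (ψ (a i)) ^ 2)) := by
  rw [spec_exp, map_sum]
  congr 1
  refine Finset.sum_congr rfl fun i _ => ?_
  rw [map_sub, map_smul, map_smul, map_pow, smul_eq_mul, smul_eq_mul]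

lemma spec_EA (Z : Bd →L[ℂ] ℂ) (C : Set ℕ) (lam : ℕ → ι) (h : Bd) (K : ℝ)
    (ψ : Spec (Au (L 1))) : ψ (EA Z C lam h K) =
      Complex.exp (∑ i, (((4 * K : ℝ) : ℂ) * ψ (dA Z C lam h i) -
        (K : ℂ) * (ψ (dA Z C lam h i)) ^ 2)) :=
  spec_expsum ψ _ _ _

lemma spec_EA_eq_one (z : StrongDual ℂ (StrongDual ℂ (L 1))) (C : Set ℕ) (lam : ℕ → ι) (h : Bd)
    (K : ℝ) (ψ : Spec (Au (L 1))) (hψ : ∀ l : StrongDual ℂ (L 1), ψ (ofDual l) = z l) :
    ψ (EA (Zc z) C lam h K) = 1 := by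
  rw [spec_EA, Finset.sum_eq_zero, Complex.exp_zero]
  intro i _
  rw [spec_dA z C lam h i ψ hψ]
  ring

/-- the targets are nearly norming -/
lemma sum_ta_ge (Z : Bd →L[ℂ] ℂ) (C : Set ℕ) (lam : ℕ → ι) {h : Bd} (hh : ∀ n, ‖h n‖ = 1) :
    ‖Z h‖ - Vr Z C ≤ ∑ i, ta Z C lam h i := by
  have hsum : h = (∑ i, rB (Ls C lam i) h) + rB C h := by
    ext n
    have : (∑ i, rB (Ls C lam i) h + rB C h) n = (∑ i, rB (Ls C lam i) h n) + rB C h n := by
      rw [BoundedContinuousFunction.add_apply, BoundedContinuousFunction.sum_apply]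
    rw [this]
    by_cases hn : n ∈ C
    · rw [rB_mem h hn, Finset.sum_eq_zero, zero_add]
      intro i _
      exact rB_notMem h fun h' => h'.1 hn
    · rw [rB_notMem h hn, add_zero, Finset.sum_eq_single (lam n)]
      · rw [rB_mem h (show n ∈ Ls C lam (lam n) from ⟨hn, rfl⟩)]
      · intro i _ hi
        exact rB_notMem h fun h' => hi h'.2.symm
      · intro h'
        exact absurd (Finset.mem_univ _) h'
  have h1 : Z h = (∑ i, Z (rB (Ls C lam i) h)) + Z (rB C h) := by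
    conv_lhs => rw [hsum]
    rw [map_add, map_sum]
  have h2 : ‖h‖ ≤ 1 := norm_Bd_le zero_le_one fun n => (hh n).le
  have h3 : ‖Z (rB C h)‖ ≤ Vr Z C := by
    refine (norm_Z_rB_le Z C h).trans ?_
    have := Vr_nonneg Z C
    nlinarith
  have h4 : ‖Z h‖ ≤ (∑ i, ta Z C lam h i) + ‖Z (rB C h)‖ := by
    rw [h1]
    refine (norm_add_le _ _).trans ?_
    gcongr
    exact norm_sum_le _ _
  linarith

omit [Fintype ι] in
lemma norm_Tb_wB_le (Z : Bd →L[ℂ] ℂ) (C : Set ℕ) (lam : ℕ → ι) {h : Bd} (hh : ∀ n, ‖h n‖ = 1)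
    (i : ι) (x : L 1) : ‖Tb (wB Z C lam h i) x‖ ≤ ‖rX (Ls C lam i) x‖ := by
  unfold wB
  rw [Tb_smul, smul_apply, norm_smul, norm_ph, one_mul]
  refine (norm_Tb_rB_le (Ls C lam i) h x (b := 1) (fun n _ => (hh n).le)).trans ?_
  rw [one_mul]

/-- estimate of the exponential factor -/
lemma norm_EA_le (Z : Bd →L[ℂ] ℂ) (C : Set ℕ) (lam : ℕ → ι) {h : Bd} (hh : ∀ n, ‖h n‖ = 1)
    {K : ℝ} (hK : 0 ≤ K) (x : ball (0 : L 1) 1) :
    ‖ev x (EA Z C lam h K)‖ ≤ Real.exp (4 * K * (1 - ‖rX C (x : L 1)‖ - ‖Z h‖ + Vr Z C) -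
      K * ∑ i, ‖dv Z C lam h (x : L 1) i‖ ^ 2) := by
  classical
  have hx : ‖(x : L 1)‖ ≤ 1 := (mem_ball_zero_iff.mp x.2).le
  rw [spec_EA, Complex.norm_exp, Real.exp_le_exp, Complex.re_sum]
  have h1 : ∀ i ∈ (Finset.univ : Finset ι), (((4 * K : ℝ) : ℂ) * ev x (dA Z C lam h i) -
      (K : ℂ) * (ev x (dA Z C lam h i)) ^ 2).re ≤
      4 * K * (‖rX (Ls C lam i) (x : L 1)‖ - ta Z C lam h i) -
        K * ‖dv Z C lam h (x : L 1) i‖ ^ 2 := by
    intro i _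
    rw [ev_dA]
    have h2 := quad_est (w := Tb (wB Z C lam h i) (x : L 1)) (τ := ta Z C lam h i)
      (m := ‖rX (Ls C lam i) (x : L 1)‖) hK (norm_Tb_wB_le Z C lam hh i _)
      ((norm_rX_le _ _).trans hx)
    refine h2.trans (le_of_eq ?_)
    rw [Tb_wB, norm_mul, norm_ph, one_mul]
  refine (Finset.sum_le_sum h1).trans ?_
  rw [Finset.sum_sub_distrib, ← Finset.mul_sum, ← Finset.mul_sum, Finset.sum_sub_distrib]
  have h3 := norm_partition C lam (x : L 1)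
  have h4 := sum_ta_ge Z C lam hh
  have h5 : (∑ i, ‖rX (Ls C lam i) (x : L 1)‖) + ‖rX C (x : L 1)‖ = ‖(x : L 1)‖ := h3
  have h6 : 4 * K * (∑ i, ‖rX (Ls C lam i) (x : L 1)‖ - ∑ i, ta Z C lam h i) ≤
      4 * K * (1 - ‖rX C (x : L 1)‖ - ‖Z h‖ + Vr Z C) := by
    apply mul_le_mul_of_nonneg_left _ (by positivity)
    linarith
  linarith

/-- separation of a functional -/
lemma func_sep (Z : Bd →L[ℂ] ℂ) (hZ : ‖Z‖ ≤ 1) (C : Set ℕ) (lam : ℕ → ι) {h : Bd}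
    (g : Bd) (b : ι → ℂ) (a : ℂ) {G ε₁ : ℝ} (hε₁ : 0 ≤ ε₁)
    (hgG : ‖g‖ ≤ G) (hb : ∀ i, ‖b i‖ ≤ G) (ha : ‖a‖ ≤ G)
    (hcell : ∀ n, n ∉ C → ‖g n - b (lam n) * h n‖ ≤ ε₁) (hC : ∀ n ∈ C, ‖g n - a‖ ≤ ε₁)
    (x : L 1) (hx : ‖x‖ ≤ 1) :
    ‖Tb g x - Z g‖ ≤ G * (∑ i, ‖dv Z C lam h x i‖) + 3 * ε₁ + G * ‖Tb oneB (rX C x)‖ +
      G * Vr Z C := by
  classical
  set g' : Bd := ∑ i, b i • rB (Ls C lam i) h with hg'
  set g'' : Bd := rB Cᶜ g - g' with hg''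
  have hg'v : ∀ n, g' n = if n ∈ C then 0 else b (lam n) * h n := by
    intro n
    rw [hg', BoundedContinuousFunction.sum_apply]
    split_ifs with hn
    · refine Finset.sum_eq_zero fun i _ => ?_
      rw [BoundedContinuousFunction.smul_apply, rB_notMem h (fun h' => h'.1 hn), smul_zero]
    · rw [Finset.sum_eq_single (lam n)]
      · rw [BoundedContinuousFunction.smul_apply,
          rB_mem h (show n ∈ Ls C lam (lam n) from ⟨hn, rfl⟩), smul_eq_mul]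
      · intro i _ hi
        rw [BoundedContinuousFunction.smul_apply, rB_notMem h (fun h' => hi h'.2.symm), smul_zero]
      · intro h'
        exact absurd (Finset.mem_univ _) h'
  have hg''n : ‖g''‖ ≤ ε₁ := by
    refine norm_Bd_le hε₁ fun n => ?_
    have : g'' n = rB Cᶜ g n - g' n := rfl
    rw [this, hg'v]
    split_ifs with hn
    · rw [rB_notMem g (show n ∉ Cᶜ from fun h' => h' hn), sub_zero, norm_zero]; exact hε₁
    · rw [rB_mem g (show n ∈ Cᶜ from hn)]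
      exact hcell n hn
  have hdec : g = g' + g'' + rB C g := by
    ext n
    have : (g' + g'' + rB C g) n = g' n + (rB Cᶜ g n - g' n) + rB C g n := rfl
    rw [this]
    by_cases hn : n ∈ C
    · rw [rB_notMem g (show n ∉ Cᶜ from fun h' => h' hn), rB_mem g hn]; ring
    · rw [rB_mem g (show n ∈ Cᶜ from hn), rB_notMem g hn]; ring
  have e1 : Tb g x - Z g = (Tb g' x - Z g') + (Tb g'' x - Z g'') + (Tb (rB C g) x - Z (rB C g)) := by
    conv_lhs => rw [hdec]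
    rw [Tb_add, Tb_add, add_apply, add_apply, map_add, map_add]
    ring
  have e2 : Tb g' x - Z g' = ∑ i, b i * dv Z C lam h x i := by
    have h1 : Tb g' = ∑ i, b i • Tb (rB (Ls C lam i) h) := by
      have := map_sum TbL (fun i => b i • rB (Ls C lam i) h) Finset.univ
      simp only [map_smul] at this
      exact this
    have h2 : Z g' = ∑ i, b i * Z (rB (Ls C lam i) h) := by
      rw [hg', map_sum]
      refine Finset.sum_congr rfl fun i _ => ?_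
      rw [map_smul, smul_eq_mul]
    rw [h1, h2, sum_apply, ← Finset.sum_sub_distrib]
    refine Finset.sum_congr rfl fun i _ => ?_
    unfold dv
    rw [smul_apply, smul_eq_mul, mul_sub]
  have b1 : ‖Tb g' x - Z g'‖ ≤ G * ∑ i, ‖dv Z C lam h x i‖ := by
    rw [e2, Finset.mul_sum]
    refine (norm_sum_le _ _).trans (Finset.sum_le_sum fun i _ => ?_)
    rw [norm_mul]
    gcongr
    exact hb i
  have b2 : ‖Tb g'' x - Z g''‖ ≤ 2 * ε₁ := by
    refine (norm_sub_le _ _).trans ?_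
    have h1 : ‖Tb g'' x‖ ≤ ε₁ := by
      refine (ContinuousLinearMap.le_opNorm _ _).trans ?_
      calc ‖Tb g''‖ * ‖x‖ ≤ ε₁ * 1 := by
            gcongr
            exact (norm_Tb_le _).trans hg''n
        _ = ε₁ := mul_one _
    have h2 : ‖Z g''‖ ≤ ε₁ := by
      refine (Z.le_opNorm _).trans ?_
      calc ‖Z‖ * ‖g''‖ ≤ 1 * ε₁ := by gcongr
        _ = ε₁ := one_mul _
    linarith
  have b3 : ‖Tb (rB C g) x - Z (rB C g)‖ ≤ G * ‖Tb oneB (rX C x)‖ + ε₁ + G * Vr Z C := by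
    refine (norm_sub_le _ _).trans ?_
    have h1 : Tb (rB C g) x = a * Tb oneB (rX C x) + Tb (rB C (g - a • oneB)) x := by
      have : rB C g = a • rB C oneB + rB C (g - a • oneB) := by
        rw [map_sub, map_smul]; abel
      rw [this, Tb_add, add_apply, Tb_smul, smul_apply, Tb_rB C oneB, smul_eq_mul]
    have h2 : ‖Tb (rB C (g - a • oneB)) x‖ ≤ ε₁ := by
      refine (norm_Tb_rB_le C (g - a • oneB) x (b := ε₁) fun n hn => ?_).trans ?_
      · have : (g - a • oneB) n = g n - a * 1 := rfl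
        rw [this, mul_one]
        exact hC n hn
      · have := (norm_rX_le C x).trans hx
        nlinarith
    have h3 : ‖Z (rB C g)‖ ≤ G * Vr Z C := by
      refine (norm_Z_rB_le Z C g).trans ?_
      have := Vr_nonneg Z C
      rw [mul_comm]
      gcongr
    have h4 : ‖Tb (rB C g) x‖ ≤ G * ‖Tb oneB (rX C x)‖ + ε₁ := by
      rw [h1]
      refine (norm_add_le _ _).trans ?_
      rw [norm_mul]
      gcongr
    linarith
  rw [e1]
  have h5 := norm_add_le ((Tb g' x - Z g') + (Tb g'' x - Z g'')) (Tb (rB C g) x - Z (rB C g))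
  have h6 := norm_add_le (Tb g' x - Z g') (Tb g'' x - Z g'')
  linarith

end

end Pool.Agent.Lib.MP_164614_an
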