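import Mathlib
import Pool.Agent.Lib.MP_164614_an.AsmP

set_option autoImplicit false

namespace Pool.Agent.Lib.MP_164614_an

open Set Filter Topology Metric
open scoped ENNReal

noncomputable section

variable {p : ℝ≥0∞} [Fact (1 ≤ p)]

/-- generators -/
def gen (hp : p ≠ ∞) (r : ℕ) (hr : p.toReal ≤ r) (zz : L p) : Option ℕ → Au (L p)
  | none => qz hp r hr zz
  | some n => co p n

/-- prescribed values -/
def val (r : ℕ) (zz : L p) (c : ℝ) : Option ℕ → ℂ
  | none => (c : ℂ) ^ r
  | some n => zz n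

/-- generators as functions on the whole space -/
def genF (hp : p ≠ ∞) (r : ℕ) (hr : p.toReal ≤ r) (zz : L p) : Option ℕ → L p → ℂ
  | none => fun x => q hp r hr (x - zz)
  | some n => fun x => x n

lemma ev_gen (hp : p ≠ ∞) (r : ℕ) (hr : p.toReal ≤ r) (zz : L p) (i : Option ℕ)
    (x : ball (0 : L p) 1) : ev x (gen hp r hr zz i) = genF hp r hr zz i x := by
  cases i <;> rfl

lemma continuous_genF (hp : p ≠ ∞) (r : ℕ) (hr : p.toReal ≤ r) (zz : L p) (i : Option ℕ) :
    Continuous (genF hp r hr zz i) := by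
  cases i with
  | none => exact (q_differentiable hp r hr).continuous.comp (continuous_id.sub continuous_const)
  | some n => exact (cf p n).continuous

/-- approximate points -/
def ym (zz : L p) (c : ℝ) (m : ℕ) : L p := zz - tl p m zz + lp.single p m (c : ℂ)

lemma ym_apply (zz : L p) (c : ℝ) (m n : ℕ) :
    ym zz c m n = (if n < m then zz n else 0) + (if n = m then (c : ℂ) else 0) := by
  unfold ym
  rw [lp.coeFn_add, Pi.add_apply, lp.coeFn_sub, Pi.sub_apply, tl_apply, lp.single_apply]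
  by_cases h : n = m
  · subst h; simp
  · have : (m = n) = False := by
      simp only [eq_iff_iff, iff_false]; exact fun h2 => h h2.symm
    split_ifs <;> simp_all

lemma norm_ym (hp : p ≠ ∞) (zz : L p) {c : ℝ} (hc : 0 ≤ c)
    (hzz : ‖zz‖ ^ p.toReal = 1 - c ^ p.toReal) (m : ℕ) : ‖ym zz c m‖ ≤ 1 := by
  have hP := toReal_ge_one hp
  set P := p.toReal with hPdef
  have hP0 : 0 < P := by linarith
  have hp0 : 0 < p := by
    rcases eq_or_ne p 0 with h | h
    · rw [h] at hPdef; simp at hPdef; linarith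
    · exact pos_iff_ne_zero.mpr h
  have h1 : tl p m (ym zz c m) = lp.single p m (c : ℂ) := by
    apply lp.ext
    funext n
    rw [tl_apply, ym_apply, lp.single_apply]
    by_cases h : n = m
    · subst h; simp
    · have h' : ¬ m = n := fun h2 => h h2.symm
      simp only [h, if_false, add_zero]
      split_ifs <;> simp_all
  have h2 := norm_tl hp m (ym zz c m)
  rw [h1, lp.norm_single hp0, Complex.norm_real, Real.norm_of_nonneg hc, ← hPdef] at h2
  have h3 : ∑ i ∈ Finset.range m, ‖ym zz c m i‖ ^ P = ∑ i ∈ Finset.range m, ‖zz i‖ ^ P := by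
    refine Finset.sum_congr rfl fun i hi => ?_
    have := Finset.mem_range.mp hi
    rw [ym_apply, if_pos this, if_neg (by omega), add_zero]
  have h4 := lp.sum_rpow_le_norm_rpow (by linarith : 0 < p.toReal) zz (Finset.range m)
  rw [← hPdef] at h4
  have h5 : ‖ym zz c m‖ ^ P ≤ 1 := by linarith
  by_contra hcon
  push Not at hcon
  have := Real.one_lt_rpow hcon hP0
  linarith

lemma tendsto_genF (hp : p ≠ ∞) (r : ℕ) (hr : p.toReal ≤ r) (zz : L p) {c : ℝ}
    (i : Option ℕ) : Tendsto (fun m => genF hp r hr zz i (ym zz c m)) atTop (𝓝 (val r zz c i)) := by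
  have hP := toReal_ge_one hp
  have hr0 : r ≠ 0 := by
    rintro rfl
    norm_num at hr
    linarith
  cases i with
  | some n =>
    refine tendsto_const_nhds.congr' ?_
    filter_upwards [eventually_gt_atTop n] with m hm
    change zz n = ym zz c m n
    rw [ym_apply, if_pos hm, if_neg (by omega), add_zero]
  | none =>
    change Tendsto (fun m => q hp r hr (ym zz c m - zz)) atTop (𝓝 ((c : ℂ) ^ r))
    have hp0 : 0 < p := by
      rcases eq_or_ne p 0 with h | h
      · rw [h] at hP; simp at hP; linarith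
      · exact pos_iff_ne_zero.mpr h
    have hq1 : ∀ m, q hp r hr (lp.single p m (c : ℂ)) = (c : ℂ) ^ r := by
      intro m
      rw [q_eq, tsum_eq_single m]
      · rw [lp.single_apply_self]
      · intro n hn
        rw [lp.single_apply_ne p m _ hn, zero_pow hr0]
    have e : ∀ m, ym zz c m - zz = lp.single p m (c : ℂ) - tl p m zz := by
      intro m; unfold ym; abel
    rw [tendsto_iff_norm_sub_tendsto_zero]
    have hR1 : ∀ m, ‖(lp.single p m (c : ℂ) : L p)‖ ≤ |c| + ‖zz‖ := fun m => by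
      rw [lp.norm_single hp0, Complex.norm_real, Real.norm_eq_abs]
      have := norm_nonneg zz
      linarith
    have hR2 : ∀ m, ‖(lp.single p m (c : ℂ) : L p) - tl p m zz‖ ≤ |c| + ‖zz‖ := fun m => by
      refine (norm_sub_le _ _).trans ?_
      rw [lp.norm_single hp0, Complex.norm_real, Real.norm_eq_abs]
      have := norm_tl_le hp m zz
      linarith
    have hb : ∀ m, ‖q hp r hr (ym zz c m - zz) - (c : ℂ) ^ r‖ ≤
        (‖qCM hp r hr‖ * r * (|c| + ‖zz‖) ^ (r - 1)) * ‖tl p m zz‖ := by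
      intro m
      rw [e, ← hq1 m]
      refine (q_lipschitz hp r hr _ _ (hR2 m) (hR1 m)).trans ?_
      have : (lp.single p m (c : ℂ) : L p) - tl p m zz - lp.single p m (c : ℂ) = - tl p m zz := by
        abel
      rw [this, norm_neg]
    refine squeeze_zero (fun m => norm_nonneg _) hb ?_
    have := ((tl_tendsto hp zz).norm).const_mul (‖qCM hp r hr‖ * r * (|c| + ‖zz‖) ^ (r - 1))
    rw [norm_zero, mul_zero] at this
    exact this

/-- points in the open ball near a point of the closed ball -/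
lemma exists_ball_near {X : Type*} [NormedAddCommGroup X] [NormedSpace ℂ X] {ι : Type*}
    (G : ι → X → ℂ) (hG : ∀ i, Continuous (G i)) (t : ι → ℂ) (s : Finset ι) {η : ℝ} (y : X)
    (hy : ‖y‖ ≤ 1) (h : ∀ i ∈ s, ‖G i y - t i‖ < η) :
    ∃ x : ball (0 : X) 1, ∀ i ∈ s, ‖G i x - t i‖ < η := by
  have h1 : ∀ᶠ θ : ℝ in 𝓝[<] 1, ∀ i ∈ s, ‖G i ((θ : ℂ) • y) - t i‖ < η := by
    rw [eventually_all_finset]
    intro i hi
    have hc : Continuous fun θ : ℝ => ‖G i ((θ : ℂ) • y) - t i‖ :=
      (((hG i).comp (Complex.continuous_ofReal.smul continuous_const)).sub continuous_const).norm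
    have h2 : Tendsto (fun θ : ℝ => ‖G i ((θ : ℂ) • y) - t i‖) (𝓝[<] 1)
        (𝓝 ‖G i (((1 : ℝ) : ℂ) • y) - t i‖) := (hc.tendsto 1).mono_left nhdsWithin_le_nhds
    rw [Complex.ofReal_one, one_smul] at h2
    exact h2.eventually (eventually_lt_nhds (h i hi))
  have h2 : ∀ᶠ θ : ℝ in 𝓝[<] 1, 0 < θ ∧ θ < 1 := by
    filter_upwards [Ioo_mem_nhdsLT (zero_lt_one : (0 : ℝ) < 1)] with θ hθ
    exact ⟨hθ.1, hθ.2⟩
  obtain ⟨θ, h3, h4, h5⟩ := (h1.and h2).exists
  refine ⟨⟨(θ : ℂ) • y, ?_⟩, h3⟩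
  rw [mem_ball_zero_iff, norm_smul, Complex.norm_real, Real.norm_of_nonneg h4.le]
  nlinarith [norm_nonneg y]

/-- a general reduction: it is enough to test on points of the ball -/
lemma good_of_points {X : Type*} [NormedAddCommGroup X] [NormedSpace ℂ X] {ι : Type*}
    (g : ι → Au X) (t : ι → ℂ)
    (hne : ∀ s : Finset ι, ∀ η : ℝ, 0 < η → ∃ x : ball (0 : X) 1, ∀ i ∈ s, ‖ev x (g i) - t i‖ ≤ η)
    (hsep : ∀ s : Finset ι, ∀ η : ℝ, 0 < η → ∀ ε : ℝ, 0 < ε → ∃ f : Au X,
      (∀ ψ : Spec (Au X), (∀ i, ψ (g i) = t i) → ψ f = 1) ∧ (∀ x, ‖ev x f‖ ≤ 5 / 4) ∧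
      ∀ x, (∀ i ∈ s, ‖ev x (g i) - t i‖ ≤ η) ∨ ‖ev x f‖ ≤ ε) :
    Good {ψ : Spec (Au X) | ∀ i, ψ (g i) = t i} := by
  refine good_of_values Au_norm_one g t ?_ ?_
  · intro s η hη
    obtain ⟨x, hx⟩ := hne s η hη
    exact ⟨ev x, hx⟩
  · intro s η hη
    set B : ℝ := 1 + ∑ i ∈ s, (‖g i‖ + ‖t i‖) with hB
    have hB0 : 0 < B := by
      have : 0 ≤ ∑ i ∈ s, (‖g i‖ + ‖t i‖) := Finset.sum_nonneg fun i _ => by positivity
      linarith
    obtain ⟨f, hf1, hf2, hf3⟩ := hsep s (η / 2) (by positivity) (η / B) (by positivity)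
    refine ⟨f, hf1, norm_le_of_ev (by norm_num) hf2, fun i hi => ?_⟩
    refine norm_le_of_ev hη.le fun x => ?_
    have e : ev x (f * (g i - algebraMap ℂ (Au X) (t i))) = ev x f * (ev x (g i) - t i) := by
      rw [map_mul, map_sub, AlgHomClass.commutes]; rfl
    rw [e, norm_mul]
    have hbi : ‖ev x (g i) - t i‖ ≤ B := by
      refine (norm_sub_le _ _).trans ?_
      have h1 := norm_ev_le Au_norm_one (g i) (ev x)
      have h2 : ‖g i‖ + ‖t i‖ ≤ ∑ i ∈ s, (‖g i‖ + ‖t i‖) :=
        Finset.single_le_sum (f := fun i => ‖g i‖ + ‖t i‖) (fun i _ => by positivity) hi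
      linarith
    rcases hf3 x with h | h
    · calc ‖ev x f‖ * ‖ev x (g i) - t i‖ ≤ 5 / 4 * (η / 2) := by
            gcongr
            · exact hf2 x
            · exact h i hi
        _ ≤ η := by linarith
    · calc ‖ev x f‖ * ‖ev x (g i) - t i‖ ≤ (η / B) * B := by gcongr
        _ = η := by field_simp

lemma exists_bound_option (s : Finset (Option ℕ)) : ∃ n₁ : ℕ, ∀ n, some n ∈ s → n < n₁ := by
  classical
  refine ⟨(s.image fun o => o.getD 0).sup id + 1, fun n hn => ?_⟩
  have : n ∈ s.image fun o => o.getD 0 := Finset.mem_image.mpr ⟨some n, hn, rfl⟩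
  have h2 := Finset.le_sup (f := id) this
  simp only [id] at h2
  omega

/-- the good set in the fiber, `‖z‖ < 1` -/
theorem good_pos (hp : p ≠ ∞) (hp1 : 1 < p.toReal) (r : ℕ) (hr : p.toReal ≤ r) (zz : L p)
    (hzz1 : ‖zz‖ ≤ 1) {c : ℝ} (hc : 0 < c) (hc1 : c ≤ 1)
    (hzz : ‖zz‖ ^ p.toReal = 1 - c ^ p.toReal) :
    Good {ψ : Spec (Au (L p)) | ∀ i, ψ (gen hp r hr zz i) = val r zz c i} := by
  have hP0 : 0 < p.toReal := by linarith
  have hr1 : 1 ≤ (r : ℝ) := by linarith
  have hcr : 0 < c ^ r := by positivity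
  have hccr : (c : ℂ) ^ r ≠ 0 := by
    apply pow_ne_zero; exact_mod_cast hc.ne'
  refine good_of_points _ _ ?_ ?_
  · intro s η hη
    have h1 : ∀ᶠ m in atTop, ∀ i ∈ s, ‖genF hp r hr zz i (ym zz c m) - val r zz c i‖ < η := by
      rw [eventually_all_finset]
      intro i _
      have h2 := (tendsto_iff_norm_sub_tendsto_zero.mp (tendsto_genF hp r hr zz (c := c) i))
      exact h2.eventually (eventually_lt_nhds hη)
    obtain ⟨m, hm⟩ := h1.exists
    obtain ⟨x, hx⟩ := exists_ball_near (genF hp r hr zz) (continuous_genF hp r hr zz) _ s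
      (ym zz c m) (norm_ym hp zz hc.le hzz m) hm
    refine ⟨x, fun i hi => ?_⟩
    rw [ev_gen]
    exact (hx i hi).le
  · intro s η hη ε hε
    obtain ⟨n₁, hn₁⟩ := exists_bound_option s
    obtain ⟨d, hd, n₀, hsep⟩ := sep_points hp hp1 hr zz hzz1 hc hη n₁
    -- choose κ
    set l := Real.log (5 / 4) with hl
    have hl0 : 0 < l := Real.log_pos (by norm_num)
    obtain ⟨κ, hκ0, hκ⟩ : ∃ κ : ℝ, 0 ≤ κ ∧ Real.exp (l - κ * d) ≤ ε := by
      refine ⟨max 0 ((l - Real.log ε) / d), le_max_left _ _, ?_⟩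
      rw [← Real.exp_log hε, Real.exp_le_exp, Real.exp_log hε]
      have h1 : (l - Real.log ε) / d ≤ max 0 ((l - Real.log ε) / d) := le_max_right _ _
      rw [div_le_iff₀ hd] at h1
      linarith
    obtain ⟨k, hk⟩ := exists_nat_ge (4 * (2 / c) * (κ * ((r : ℝ) ^ 2 * (2 / c) ^ r + 1)))
    have hk' : 4 * (2 / c) * (κ * ((r : ℝ) ^ 2 * (2 / c) ^ r + 1)) ≤ r * k := by
      have hk0 : (0 : ℝ) ≤ k := Nat.cast_nonneg k
      nlinarith
    set K := r * (k + κ) / c ^ p.toReal with hK
    obtain ⟨N, hN, hNK⟩ : ∃ N ≥ n₀, K * (‖tl p N zz‖ ^ p.toReal / p.toReal +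
        c ^ (p.toReal - 1) * ‖tl p N zz‖) ≤ l := by
      have h1 := (tl_tendsto hp zz).norm
      rw [norm_zero] at h1
      have h2 : Tendsto (fun N => K * (‖tl p N zz‖ ^ p.toReal / p.toReal +
        c ^ (p.toReal - 1) * ‖tl p N zz‖)) atTop (𝓝 (K * ((0 : ℝ) ^ p.toReal / p.toReal +
        c ^ (p.toReal - 1) * 0))) :=
        (((h1.rpow_const (Or.inr hP0.le)).div_const _).add (h1.const_mul _)).const_mul _
      rw [Real.zero_rpow hP0.ne', zero_div, mul_zero, add_zero, mul_zero] at h2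
      obtain ⟨N, h3, h4⟩ := ((h2.eventually (eventually_le_nhds hl0)).and
        (eventually_ge_atTop n₀)).exists
      exact ⟨N, h4, h3⟩
    have hbound := fun x => ff_bound hp hp1 r hr zz hzz1 hc hc1 hzz N k hκ0 hk' x
    rw [← hK] at hbound
    have hnn : ∀ x : ball (0 : L p) 1, 0 ≤ SD p.toReal zz (x : L p) N +
        ((‖tl p N ((x : L p) - zz)‖ / c - 1) ^ 2 + ((‖tl p N ((x : L p) - zz)‖ / c) ^ r -
        (((c : ℂ) ^ r)⁻¹ * q hp r hr (tl p N ((x : L p) - zz))).re)) := by
      intro x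
      have h1 := SD_nonneg hp1.le zz (x : L p) N
      have h2 : (((c : ℂ) ^ r)⁻¹ * q hp r hr (tl p N ((x : L p) - zz))).re ≤
          (‖tl p N ((x : L p) - zz)‖ / c) ^ r := by
        refine (Complex.re_le_norm _).trans ?_
        rw [norm_mul, norm_inv, norm_pow, Complex.norm_real, Real.norm_of_nonneg hc.le,
          inv_mul_le_iff₀ hcr, div_pow, mul_div_cancel₀ _ hcr.ne']
        exact norm_q_le hp r hr _
      nlinarith [sq_nonneg (‖tl p N ((x : L p) - zz)‖ / c - 1)]
    refine ⟨ffA hp r hr zz c N k K κ, ?_, ?_, ?_⟩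
    · intro ψ hψ
      have h1 : ∀ n, ψ (co p n) = zz n := fun n => hψ (some n)
      have h2 : ψ (qz hp r hr zz) = (c : ℂ) ^ r := hψ none
      have hr0 : r ≠ 0 := by rintro rfl; norm_num at hr1
      have h3 : ψ (JN zz N) = 0 := by
        rw [spec_JN]
        refine Finset.sum_eq_zero fun n _ => ?_
        rw [h1, sub_self, mul_zero]
      have h4 : ψ (nuA hp r hr zz c N) = 1 := by
        rw [spec_nuA, h2, Finset.sum_eq_zero, sub_zero, inv_mul_cancel₀ hccr]
        intro n _
        rw [h1, sub_self, zero_pow hr0]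
      rw [spec_ffA, h3, h4]
      simp
    · intro x
      refine (hbound x).trans ?_
      have h1 := mul_nonneg hκ0 (hnn x)
      calc _ ≤ Real.exp l := by
            rw [Real.exp_le_exp]; linarith
        _ = 5 / 4 := Real.exp_log (by norm_num)
    · intro x
      by_cases hlt : SD p.toReal zz (x : L p) N +
        ((‖tl p N ((x : L p) - zz)‖ / c - 1) ^ 2 + ((‖tl p N ((x : L p) - zz)‖ / c) ^ r -
        (((c : ℂ) ^ r)⁻¹ * q hp r hr (tl p N ((x : L p) - zz))).re)) < d
      · left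
        obtain ⟨h1, h2⟩ := hsep N hN (x : L p) (mem_ball_zero_iff.mp x.2).le hlt
        intro i hi
        rw [ev_gen]
        cases i with
        | none => exact h2
        | some n => exact h1 n (hn₁ n hi)
      · right
        push Not at hlt
        refine (hbound x).trans (le_trans ?_ hκ)
        rw [Real.exp_le_exp]
        have := mul_le_mul_of_nonneg_left hlt hκ0
        linarith

/-- the fiber over a point of the unit sphere -/
theorem good_sphere (hp : p ≠ ∞) (hp1 : 1 < p.toReal) (zz : L p) (hzz1 : ‖zz‖ = 1) :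
    Good {ψ : Spec (Au (L p)) | ∀ n, ψ (co p n) = zz n} := by
  have hP0 : 0 < p.toReal := by linarith
  have hp0 : p ≠ 0 := by
    rintro rfl
    simp at hP0
  refine good_of_points _ _ ?_ ?_
  · intro s η hη
    obtain ⟨x, hx⟩ := exists_ball_near (fun n (x : L p) => x n) (fun n => (cf p n).continuous)
      (fun n => zz n) s zz hzz1.le (fun i _ => by rw [sub_self, norm_zero]; exact hη)
    exact ⟨x, fun i hi => (hx i hi).le⟩
  · intro s η hη ε hε
    obtain ⟨n₁, hn₁⟩ : ∃ n₁ : ℕ, ∀ n ∈ s, n < n₁ :=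
      ⟨s.sup id + 1, fun n hn => by
        have := Finset.le_sup (f := id) hn
        simp only [id] at this
        omega⟩
    obtain ⟨d, hd, hsep⟩ := Dd_sep_finite hp1 (fun n => zz n) hη n₁
    set l := Real.log (5 / 4) with hl
    have hl0 : 0 < l := Real.log_pos (by norm_num)
    obtain ⟨K, hK0, hK⟩ : ∃ κ : ℝ, 0 ≤ κ ∧ Real.exp (l - κ * d) ≤ ε := by
      refine ⟨max 0 ((l - Real.log ε) / d), le_max_left _ _, ?_⟩
      rw [← Real.exp_log hε, Real.exp_le_exp, Real.exp_log hε]
      have h1 : (l - Real.log ε) / d ≤ max 0 ((l - Real.log ε) / d) := le_max_right _ _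
      rw [div_le_iff₀ hd] at h1
      linarith
    obtain ⟨N, hN, hNK⟩ : ∃ N ≥ n₁, K * (‖tl p N zz‖ ^ p.toReal / p.toReal) ≤ l := by
      have h1 := (tl_tendsto hp zz).norm
      rw [norm_zero] at h1
      have h2 : Tendsto (fun N => K * (‖tl p N zz‖ ^ p.toReal / p.toReal)) atTop
          (𝓝 (K * ((0 : ℝ) ^ p.toReal / p.toReal))) :=
        (((h1.rpow_const (Or.inr hP0.le)).div_const _)).const_mul _
      rw [Real.zero_rpow hP0.ne', zero_div, mul_zero] at h2
      obtain ⟨N, h3, h4⟩ := ((h2.eventually (eventually_le_nhds hl0)).and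
        (eventually_ge_atTop n₁)).exists
      exact ⟨N, h4, h3⟩
    have hbound : ∀ x : ball (0 : L p) 1, ‖ev x (NormedSpace.exp ((K : ℂ) • JN zz N))‖ ≤
        Real.exp (l - K * SD p.toReal zz (x : L p) N) := by
      intro x
      rw [spec_exp, map_smul, smul_eq_mul, spec_JN, Complex.norm_exp, Complex.re_ofReal_mul]
      have h1 : (∑ n ∈ Finset.range N, Jc p.toReal (zz n) * (ev x (co p n) - zz n)).re =
        ((∑ n ∈ Finset.range N, ‖(x : L p) n‖ ^ p.toReal) -
          ∑ n ∈ Finset.range N, ‖zz n‖ ^ p.toReal) / p.toReal - SD p.toReal zz (x : L p) N :=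
        re_sum_J p.toReal zz (x : L p) N
      rw [h1, Real.exp_le_exp]
      have h2 := sum_rpow_le hp (mem_ball_zero_iff.mp x.2).le N
      have h3 := norm_tl hp N zz
      rw [hzz1, Real.one_rpow] at h3
      have h4 : ((∑ n ∈ Finset.range N, ‖(x : L p) n‖ ^ p.toReal) -
          ∑ n ∈ Finset.range N, ‖zz n‖ ^ p.toReal) / p.toReal ≤
          ‖tl p N zz‖ ^ p.toReal / p.toReal :=
        div_le_div_of_nonneg_right (by linarith) hP0.le
      have h5 := mul_le_mul_of_nonneg_left h4 hK0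
      nlinarith
    refine ⟨NormedSpace.exp ((K : ℂ) • JN zz N), ?_, ?_, ?_⟩
    · intro ψ hψ
      rw [spec_exp, map_smul, smul_eq_mul, spec_JN, Finset.sum_eq_zero]
      · simp
      · intro n _
        rw [hψ n, sub_self, mul_zero]
    · intro x
      refine (hbound x).trans ?_
      have h1 := mul_nonneg hK0 (SD_nonneg hp1.le zz (x : L p) N)
      calc _ ≤ Real.exp l := by
            rw [Real.exp_le_exp]; linarith
        _ = 5 / 4 := Real.exp_log (by norm_num)
    · intro x
      by_cases hlt : SD p.toReal zz (x : L p) N < d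
      · left
        intro n hn
        have h1 : Dd p.toReal (zz n) ((x : L p) n) ≤ SD p.toReal zz (x : L p) N :=
          Finset.single_le_sum (f := fun n => Dd p.toReal (zz n) ((x : L p) n))
            (fun i _ => Dd_nonneg hp1.le _ _) (Finset.mem_range.mpr (lt_of_lt_of_le (hn₁ n hn) hN))
        have h2 : ‖(x : L p) n‖ ≤ 1 :=
          (lp.norm_apply_le_norm hp0 (x : L p) n).trans (mem_ball_zero_iff.mp x.2).le
        exact (hsep n (hn₁ n hn) _ h2 (lt_of_le_of_lt h1 hlt)).le
      · right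
        push Not at hlt
        refine (hbound x).trans (le_trans ?_ hK)
        rw [Real.exp_le_exp]
        have := mul_le_mul_of_nonneg_left hlt hK0
        linarith

/-- All fibers contain strong boundary points, `1 < p < ∞`. -/
theorem strong_boundary_of_one_lt (hp : p ≠ ∞) (hp1 : 1 < p.toReal)
    (z : StrongDual ℂ (StrongDual ℂ (L p))) (hz : ‖z‖ ≤ 1) :
    ∃ φ ∈ fiber z, StrongBoundary φ := by
  have hP0 : 0 < p.toReal := by linarith
  have hsum := bidual_sum_le hp hp1 z hz
  have hmem : Memℓp (fun n => z (cf p n)) p :=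
    memℓp_gen' (C := 1) (fun s => by
      obtain ⟨N, hN⟩ : ∃ N, s ⊆ Finset.range N :=
        ⟨s.sup id + 1, fun n hn => by
          have := Finset.le_sup (f := id) hn
          simp only [id] at this
          rw [Finset.mem_range]
          omega⟩
      exact (Finset.sum_le_sum_of_subset_of_nonneg hN fun i _ _ => by positivity).trans (hsum N))
  set zz : L p := ⟨fun n => z (cf p n), hmem⟩ with hzz
  have hzzn : ∀ n, zz n = z (cf p n) := fun n => rfl
  have hzz1 : ‖zz‖ ≤ 1 := by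
    refine lp.norm_le_of_forall_sum_le hP0 zero_le_one fun s => ?_
    obtain ⟨N, hN⟩ : ∃ N, s ⊆ Finset.range N :=
      ⟨s.sup id + 1, fun n hn => by
        have := Finset.le_sup (f := id) hn
        simp only [id] at this
        rw [Finset.mem_range]
        omega⟩
    rw [Real.one_rpow]
    exact (Finset.sum_le_sum_of_subset_of_nonneg hN fun i _ _ => by positivity).trans (hsum N)
  obtain ⟨r, hr⟩ := exists_nat_ge p.toReal
  rcases eq_or_lt_of_le hzz1 with h1 | h1
  · obtain ⟨φ, hφ, hsb⟩ := (good_sphere hp hp1 zz h1).exists_strongBoundary Au_norm_one Au_norm_le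
    refine ⟨φ, mem_fiber_of_coord hp hp1 z φ fun n => ?_, hsb⟩
    rw [← hzzn]
    exact hφ n
  · set c : ℝ := (1 - ‖zz‖ ^ p.toReal) ^ (1 / p.toReal) with hc
    have h2 : ‖zz‖ ^ p.toReal < 1 := Real.rpow_lt_one (norm_nonneg _) h1 hP0
    have h2' : 0 ≤ ‖zz‖ ^ p.toReal := by positivity
    have hc0 : 0 < c := by
      apply Real.rpow_pos_of_pos; linarith
    have hcP : c ^ p.toReal = 1 - ‖zz‖ ^ p.toReal := by
      rw [hc, ← Real.rpow_mul (by linarith), one_div, inv_mul_cancel₀ hP0.ne', Real.rpow_one]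
    have hc1 : c ≤ 1 := Real.rpow_le_one (by linarith) (by linarith) (by positivity)
    obtain ⟨φ, hφ, hsb⟩ := (good_pos hp hp1 r hr zz hzz1 hc0 hc1
      (by linarith)).exists_strongBoundary Au_norm_one Au_norm_le
    refine ⟨φ, mem_fiber_of_coord hp hp1 z φ fun n => ?_, hsb⟩
    rw [← hzzn]
    exact hφ (some n)

end

end Pool.Agent.Lib.MP_164614_an
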