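import Mathlib
import Pool.Agent.Lib.MP_164614_an.UA

set_option autoImplicit false

namespace Pool.Agent.Lib.MP_164614_an

open Set Filter Topology WeakDual

noncomputable section

variable {A : Type*} [NormedCommRing A] [NormedAlgebra ℂ A] [CompleteSpace A]

/-- The approximate separation property. -/
structure Pre (F : Set (Spec A)) : Prop where
  ne : F.Nonempty
  cl : IsClosed F
  sep : ∀ U : Set (Spec A), IsOpen U → F ⊆ U → ∀ ε : ℝ, 0 < ε → ∃ f : A,
    (∀ ψ ∈ F, ‖ψ f - 1‖ ≤ ε) ∧ (∀ ψ : Spec A, ‖ψ f‖ ≤ 1 + ε) ∧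
      ∀ ψ : Spec A, ψ ∉ U → ‖ψ f‖ ≤ ε

/-- compactness of chains: an open set containing the intersection contains a member -/
lemma chain_subset_open {c : Set (Set (Spec A))} (hcl : ∀ F ∈ c, IsClosed F)
    (hch : IsChain (· ⊆ ·) c) (hne : c.Nonempty) {U : Set (Spec A)} (hU : IsOpen U)
    (hcU : ⋂₀ c ⊆ U) : ∃ C ∈ c, C ⊆ U := by
  have hdir : DirectedOn (· ⊇ ·) c := by
    intro x hx y hy
    rcases hch.total hx hy with h | h
    · exact ⟨x, hx, Subset.rfl, h⟩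
    · exact ⟨y, hy, h, Subset.rfl⟩
  obtain ⟨C, hC⟩ := hne
  by_contra hcon
  push Not at hcon
  have : Nonempty ↑((fun C => C ∩ Uᶜ) '' c) := ⟨⟨_, C, hC, rfl⟩⟩
  have : (⋂₀ ((fun C => C ∩ Uᶜ) '' c)).Nonempty := by
    refine IsCompact.nonempty_sInter_of_directed_nonempty_isCompact_isClosed ?_ ?_ ?_ ?_
    · rintro _ ⟨x, hx, rfl⟩ _ ⟨y, hy, rfl⟩
      obtain ⟨w, hw, h1, h2⟩ := hdir x hx y hy
      exact ⟨_, ⟨w, hw, rfl⟩, inter_subset_inter_left _ h1, inter_subset_inter_left _ h2⟩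
    · rintro _ ⟨x, hx, rfl⟩
      obtain ⟨a, ha, ha'⟩ := not_subset.mp (hcon x hx)
      exact ⟨a, ha, ha'⟩
    · rintro _ ⟨x, hx, rfl⟩
      exact ((hcl x hx).inter hU.isClosed_compl).isCompact
    · rintro _ ⟨x, hx, rfl⟩
      exact (hcl x hx).inter hU.isClosed_compl
  obtain ⟨a, ha⟩ := this
  have h1 : a ∈ ⋂₀ c := fun x hx => (ha _ ⟨x, hx, rfl⟩).1
  exact (ha _ ⟨C, hC, rfl⟩).2 (hcU h1)

/-- Intersections of chains. -/
theorem Pre.sInter {c : Set (Set (Spec A))} (hc : ∀ F ∈ c, Pre F) (hch : IsChain (· ⊆ ·) c)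
    (hne : c.Nonempty) : Pre (⋂₀ c) := by
  have hcl : IsClosed (⋂₀ c) := isClosed_sInter fun F hF => (hc F hF).cl
  refine ⟨?_, hcl, ?_⟩
  · by_contra hcon
    rw [not_nonempty_iff_eq_empty] at hcon
    obtain ⟨C, hC, hC2⟩ := chain_subset_open (fun F hF => (hc F hF).cl) hch hne isOpen_empty
      (by rw [hcon])
    obtain ⟨a, ha⟩ := (hc C hC).ne
    exact hC2 ha
  · intro U hU hcU ε hε
    obtain ⟨C, hC, hC2⟩ := chain_subset_open (fun F hF => (hc F hF).cl) hch hne hU hcU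
    obtain ⟨f, h1, h2, h3⟩ := (hc C hC).sep U hU hC2 ε hε
    exact ⟨f, fun ψ hψ => h1 ψ (hψ C hC), h2, h3⟩

/-- Peak subsets. -/
theorem Pre.peak_subset (h1 : ‖(1 : A)‖ ≤ 1)
    {F : Set (Spec A)} (hF : Pre F) (h : A) (hle : ∀ ψ ∈ F, ‖ψ h‖ ≤ 1)
    (hlt : ∀ ψ ∈ F, ψ h = 1 ∨ ‖ψ h‖ < 1) (hex : ∃ ψ ∈ F, ψ h = 1) :
    Pre {ψ : Spec A | ψ ∈ F ∧ ψ h = 1} := by
  refine ⟨?_, ?_, ?_⟩
  · obtain ⟨ψ, a, b⟩ := hex
    exact ⟨ψ, a, b⟩
  · exact hF.cl.inter (isClosed_eq (cont_ev h) continuous_const)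
  · intro U hU hFU ε₀ hε₀
    -- work with a smaller ε
    set ε : ℝ := min (ε₀ / 3) 1 with hεdef
    have hε : 0 < ε := lt_min (by positivity) one_pos
    have hε1 : ε ≤ 1 := min_le_right _ _
    have hε3 : 3 * ε ≤ ε₀ := by
      have := min_le_left (ε₀ / 3) 1
      rw [← hεdef] at this
      linarith
    have hK : IsCompact (F ∩ Uᶜ) := (hF.cl.inter hU.isClosed_compl).isCompact
    obtain ⟨q, hq0, hq1, hq⟩ : ∃ q : ℝ, 0 ≤ q ∧ q < 1 ∧ ∀ ψ ∈ F ∩ Uᶜ, ‖ψ h‖ ≤ q := by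
      rcases (F ∩ Uᶜ).eq_empty_or_nonempty with he | hne
      · exact ⟨0, le_rfl, zero_lt_one, by rw [he]; simp⟩
      · obtain ⟨φ, hφ, hmax⟩ := hK.exists_isMaxOn hne (cont_ev h).norm.continuousOn
        refine ⟨‖φ h‖, norm_nonneg _, ?_, fun ψ hψ => hmax hψ⟩
        rcases hlt φ hφ.1 with h' | h'
        · exact absurd (hFU ⟨hφ.1, h'⟩) hφ.2
        · exact h'
    obtain ⟨m, hm⟩ := exists_pow_lt_of_lt_one hε hq1
    set u := h ^ m with hu
    have hψu : ∀ ψ : Spec A, ψ u = (ψ h) ^ m := fun ψ => by rw [hu, map_pow]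
    set W : Set (Spec A) := {ψ | ‖ψ u‖ < 1 + ε} ∩ (U ∪ {ψ | ‖ψ u‖ < ε}) with hW
    have hWo : IsOpen W := (isOpen_lt (cont_ev u).norm continuous_const).inter
      (hU.union (isOpen_lt (cont_ev u).norm continuous_const))
    have hFW : F ⊆ W := by
      intro ψ hψ
      refine ⟨?_, ?_⟩
      · simp only [mem_ofPred_eq, hψu, norm_pow]
        exact lt_of_le_of_lt (pow_le_one₀ (norm_nonneg _) (hle ψ hψ)) (by linarith)
      · by_cases hψU : ψ ∈ U
        · exact Or.inl hψU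
        · right
          simp only [mem_ofPred_eq, hψu, norm_pow]
          exact lt_of_le_of_lt (pow_le_pow_left₀ (norm_nonneg _) (hq ψ ⟨hψ, hψU⟩) m) hm
    set ε' : ℝ := ε / (3 * (1 + ‖u‖)) with hε'
    have hε'0 : 0 < ε' := by positivity
    have hε'1 : ε' ≤ ε / 3 := by
      rw [hε']
      have : (0 : ℝ) < 1 + ‖u‖ := by positivity
      rw [div_le_div_iff₀ (by positivity) (by norm_num)]
      nlinarith [norm_nonneg u]
    have hε'2 : ‖u‖ * ε' ≤ ε := by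
      rw [hε']
      have : (0 : ℝ) < 1 + ‖u‖ := by positivity
      rw [← mul_div_assoc, div_le_iff₀ (by positivity)]
      nlinarith [norm_nonneg u]
    obtain ⟨g, hg1, hg2, hg3⟩ := hF.sep W hWo hFW ε' hε'0
    have hval : ∀ ψ : Spec A, ‖ψ (u * g)‖ = ‖ψ u‖ * ‖ψ g‖ := fun ψ => by
      rw [map_mul, norm_mul]
    have hoffW : ∀ ψ : Spec A, ψ ∉ W → ‖ψ (u * g)‖ ≤ ε := by
      intro ψ hψ
      rw [hval]
      refine le_trans ?_ hε'2
      gcongr
      · exact norm_ev_le h1 u ψ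
      · exact hg3 ψ hψ
    refine ⟨u * g, ?_, ?_, ?_⟩
    · rintro ψ ⟨hψF, hψ1⟩
      rw [map_mul, hψu, hψ1, one_pow, one_mul]
      exact (hg1 ψ hψF).trans (by linarith)
    · intro ψ
      by_cases hψW : ψ ∈ W
      · rw [hval]
        have ha : ‖ψ u‖ ≤ 1 + ε := le_of_lt hψW.1
        calc ‖ψ u‖ * ‖ψ g‖ ≤ (1 + ε) * (1 + ε') := by gcongr; exact hg2 ψ
          _ ≤ (1 + ε) * (1 + ε / 3) := by gcongr
          _ ≤ 1 + ε₀ := by nlinarith
      · exact (hoffW ψ hψW).trans (by linarith)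
    · intro ψ hψU
      by_cases hψW : ψ ∈ W
      · rw [hval]
        have ha : ‖ψ u‖ ≤ ε := by
          rcases hψW.2 with h' | h'
          · exact absurd h' hψU
          · exact le_of_lt h'
        calc ‖ψ u‖ * ‖ψ g‖ ≤ ε * (1 + ε') := by gcongr; exact hg2 ψ
          _ ≤ ε * 2 := by gcongr; linarith
          _ ≤ ε₀ := by linarith
      · exact (hoffW ψ hψW).trans (by linarith)

/-- Every set with the approximate separation property contains a strong boundary point. -/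
theorem Pre.exists_strongBoundary (h1 : ‖(1 : A)‖ ≤ 1)
    (hn : ∀ (f : A) (r : ℝ), 0 ≤ r → (∀ ψ : Spec A, ‖ψ f‖ ≤ r) → ‖f‖ ≤ r)
    {F : Set (Spec A)} (hF : Pre F) : ∃ φ ∈ F, StrongBoundary φ := by
  obtain ⟨G, hGF, hG⟩ := zorn_superset_nonempty {G : Set (Spec A) | Pre G}
    (fun c hc hch hne => ⟨⋂₀ c, Pre.sInter (fun F hF => hc hF) hch hne,
      fun s hs => sInter_subset_of_mem hs⟩) F hF
  have hGg : Pre G := hG.prop
  obtain ⟨φ, hφ⟩ := hGg.ne
  have hsing : G = {φ} := by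
    by_contra hcon
    obtain ⟨φ₂, hφ₂, hne⟩ : ∃ φ₂ ∈ G, φ₂ ≠ φ := by
      by_contra hc2
      push Not at hc2
      exact hcon (Subset.antisymm (fun x hx => hc2 x hx) (by rintro _ rfl; exact hφ))
    obtain ⟨f, hf⟩ : ∃ f : A, φ₂ f ≠ φ f := by
      by_contra hc2
      push Not at hc2
      exact hne (DFunLike.ext _ _ hc2)
    set h : A := f - algebraMap ℂ A (φ₂ f) with hh
    have hval : ∀ ψ : Spec A, ψ h = ψ f - φ₂ f := fun ψ => by
      rw [hh, map_sub, AlgHomClass.commutes]; rfl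
    have hz : φ₂ h = 0 := by rw [hval, sub_self]
    have hnz : φ h ≠ 0 := by rw [hval]; exact sub_ne_zero.mpr (Ne.symm hf)
    obtain ⟨φ₀, hφ₀, hmax⟩ := hGg.cl.isCompact.exists_isMaxOn hGg.ne (cont_ev h).norm.continuousOn
    have hmax' : ∀ ψ ∈ G, ‖ψ h‖ ≤ ‖φ₀ h‖ := fun ψ hψ => hmax hψ
    have hpos : 0 < ‖φ₀ h‖ := lt_of_lt_of_le (norm_pos_iff.mpr hnz) (hmax' φ hφ)
    have hne0 : φ₀ h ≠ 0 := norm_pos_iff.mp hpos
    set k : A := (1 / 2 : ℂ) • (1 + (φ₀ h)⁻¹ • h) with hk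
    have hkval : ∀ ψ : Spec A, ψ k = 1 / 2 * (1 + ψ h / φ₀ h) := fun ψ => by
      rw [hk, map_smul, map_add, map_one, map_smul, smul_eq_mul, smul_eq_mul]; ring
    have hbd : ∀ ψ ∈ G, ‖ψ h / φ₀ h‖ ≤ 1 := fun ψ hψ => by
      rw [norm_div]; exact div_le_one_of_le₀ (hmax' ψ hψ) (norm_nonneg _)
    have hstrict : ∀ w : ℂ, ‖w‖ ≤ 1 → 1 / 2 * (1 + w) = 1 ∨ ‖1 / 2 * (1 + w)‖ < 1 := by
      intro w hw
      by_cases hw1 : w = 1
      · left; rw [hw1]; norm_num
      · right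
        rw [norm_mul]
        have e : ‖(1 / 2 : ℂ)‖ = 1 / 2 := by norm_num
        rw [e]
        have h3 : ‖1 + w‖ < 2 := by
          by_contra hc3
          push Not at hc3
          have h4 : ‖1 + w‖ ^ 2 = 1 + 2 * w.re + ‖w‖ ^ 2 := by
            rw [← Complex.normSq_eq_norm_sq, ← Complex.normSq_eq_norm_sq, Complex.normSq_apply,
              Complex.normSq_apply]
            simp only [Complex.add_re, Complex.one_re, Complex.add_im, Complex.one_im]
            ring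
          have h5 : (4 : ℝ) ≤ ‖1 + w‖ ^ 2 := by nlinarith
          have h6 : ‖w‖ ^ 2 ≤ 1 := pow_le_one₀ (norm_nonneg _) hw
          have h7 : 1 ≤ w.re := by linarith
          have h8 : w.re ^ 2 + w.im ^ 2 ≤ 1 := by
            rw [← Complex.normSq_eq_norm_sq, Complex.normSq_apply] at h6
            nlinarith
          have h9 : w.im = 0 := by nlinarith
          have h10 : w.re = 1 := by nlinarith
          exact hw1 (Complex.ext h10 h9)
        linarith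
    have hkle : ∀ ψ ∈ G, ‖ψ k‖ ≤ 1 := fun ψ hψ => by
      rw [hkval]
      rcases hstrict _ (hbd ψ hψ) with h' | h'
      · rw [h', norm_one]
      · exact h'.le
    have hgood := hGg.peak_subset h1 k hkle (fun ψ hψ => by
      rw [hkval]; exact hstrict _ (hbd ψ hψ)) ⟨φ₀, hφ₀, by
        rw [hkval, div_self hne0]; norm_num⟩
    have hsub : {ψ : Spec A | ψ ∈ G ∧ ψ k = 1} ⊆ G := fun ψ hψ => hψ.1
    have := hG.le_of_le hgood hsub
    have h3 := (this hφ₂).2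
    rw [hkval, hz] at h3
    norm_num at h3
  -- the singleton is good
  have hgood : Good ({φ} : Set (Spec A)) := by
    refine ⟨⟨φ, rfl⟩, isClosed_singleton, ?_⟩
    intro U hU hFU
    rw [hsing] at hGg
    obtain ⟨f, hf1, hf2, hf3⟩ := hGg.sep U hU hFU (1 / 10) (by norm_num)
    have hφf : ‖φ f - 1‖ ≤ 1 / 10 := hf1 φ rfl
    have hφn : 9 / 10 ≤ ‖φ f‖ := by
      have h3 := norm_sub_norm_le (1 : ℂ) (1 - φ f)
      rw [sub_sub_cancel, norm_one, norm_sub_rev] at h3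
      linarith
    have hφ0 : φ f ≠ 0 := by
      intro h0
      rw [h0, norm_zero] at hφn
      norm_num at hφn
    refine ⟨(φ f)⁻¹ • f, ?_, ?_, ?_⟩
    · rintro ψ rfl
      rw [map_smul, smul_eq_mul, inv_mul_cancel₀ hφ0]
    · intro ψ
      rw [map_smul, smul_eq_mul, norm_mul, norm_inv, inv_mul_le_iff₀ (by linarith)]
      have := hf2 ψ
      linarith
    · intro ψ hψ
      rw [map_smul, smul_eq_mul, norm_mul, norm_inv, inv_mul_le_iff₀ (by linarith)]
      have := hf3 ψ hψ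
      linarith
  obtain ⟨φ', hφ', hs⟩ := hgood.exists_strongBoundary h1 hn
  have : φ' = φ := hφ'
  subst this
  exact ⟨φ', hGF hφ, hs⟩

/-- Criterion for a set defined by approximate values. -/
theorem pre_of_values (h1 : ‖(1 : A)‖ ≤ 1) {ι : Type*} (g : ι → A) (t : ι → ℂ) (δ : ι → ℝ)
    (hne : ∀ s : Finset ι, ∃ ψ : Spec A, ∀ i ∈ s, ‖ψ (g i) - t i‖ ≤ δ i)
    (hsep : ∀ i : ι, ∀ ε : ℝ, 0 < ε → ∃ f : A,
      (∀ ψ : Spec A, (∀ j, ‖ψ (g j) - t j‖ ≤ δ j) → ‖ψ f - 1‖ ≤ ε) ∧ ‖f‖ ≤ 1 + ε ∧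
      ∀ ψ : Spec A, δ i < ‖ψ (g i) - t i‖ → ‖ψ f‖ ≤ ε) :
    Pre {ψ : Spec A | ∀ i, ‖ψ (g i) - t i‖ ≤ δ i} := by
  classical
  let K : Finset ι → Set (Spec A) := fun s => {ψ | ∀ i ∈ s, ‖ψ (g i) - t i‖ ≤ δ i}
  have hKcl : ∀ q, IsClosed (K q) := by
    intro q
    have : K q = ⋂ i ∈ q, {ψ : Spec A | ‖ψ (g i) - t i‖ ≤ δ i} := by
      ext ψ; simp [K]
    rw [this]
    refine isClosed_biInter fun i _ => isClosed_le ((cont_ev (g i)).sub continuous_const).norm
      continuous_const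
  have hanti : ∀ q q' : Finset ι, q ⊆ q' → K q' ⊆ K q := by
    intro q q' h ψ hψ i hi
    exact hψ i (h hi)
  have hdir : Directed (· ⊇ ·) K := by
    intro q q'
    exact ⟨q ∪ q', hanti _ _ Finset.subset_union_left, hanti _ _ Finset.subset_union_right⟩
  have hinter : (⋂ q, K q) = {ψ : Spec A | ∀ i, ‖ψ (g i) - t i‖ ≤ δ i} := by
    ext ψ
    simp only [mem_iInter, mem_ofPred_eq]
    constructor
    · intro h i
      exact h {i} i (Finset.mem_singleton_self i)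
    · intro h q i _
      exact h i
  have hFcl : IsClosed {ψ : Spec A | ∀ i, ‖ψ (g i) - t i‖ ≤ δ i} := by
    rw [← hinter]; exact isClosed_iInter hKcl
  refine ⟨?_, hFcl, ?_⟩
  · rw [← hinter]
    refine IsCompact.nonempty_iInter_of_directed_nonempty_isCompact_isClosed K hdir ?_
      (fun q => (hKcl q).isCompact) hKcl
    intro s
    obtain ⟨ψ, hψ⟩ := hne s
    exact ⟨ψ, hψ⟩
  · intro U hU hFU ε hε
    obtain ⟨q, hq⟩ : ∃ q, K q ⊆ U := by
      rw [← hinter] at hFU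
      exact exists_subset_nhds_of_isCompact hdir (fun q => (hKcl q).isCompact)
        (fun x hx => hU.mem_nhds (hFU hx))
    -- product over q
    have key : ∀ s : Finset ι, ∀ ε : ℝ, 0 < ε → ∃ f : A,
        (∀ ψ : Spec A, (∀ j, ‖ψ (g j) - t j‖ ≤ δ j) → ‖ψ f - 1‖ ≤ ε) ∧
        (∀ ψ : Spec A, ‖ψ f‖ ≤ 1 + ε) ∧
        ∀ ψ : Spec A, (∃ i ∈ s, δ i < ‖ψ (g i) - t i‖) → ‖ψ f‖ ≤ ε := by
      intro s
      induction s using Finset.induction_on with
      | empty =>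
        intro ε hε
        refine ⟨1, fun ψ _ => ?_, fun ψ => ?_, fun ψ h => ?_⟩
        · rw [map_one, sub_self, norm_zero]; exact hε.le
        · rw [map_one, norm_one]; linarith
        · obtain ⟨i, hi, _⟩ := h
          exact absurd hi (Finset.notMem_empty i)
      | insert a s ha ih =>
        intro ε₀ hε₀
        set ε : ℝ := min (ε₀ / 3) 1 with hεdef
        have hε : 0 < ε := lt_min (by positivity) one_pos
        have hε1 : ε ≤ 1 := min_le_right _ _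
        have hε3 : 3 * ε ≤ ε₀ := by
          have := min_le_left (ε₀ / 3) 1
          rw [← hεdef] at this
          linarith
        obtain ⟨f, hf1, hf2, hf3⟩ := ih ε hε
        obtain ⟨f', hf1', hf2', hf3'⟩ := hsep a ε hε
        have hf2'' : ∀ ψ : Spec A, ‖ψ f'‖ ≤ 1 + ε := fun ψ => (norm_ev_le h1 f' ψ).trans hf2'
        refine ⟨f * f', fun ψ hψ => ?_, fun ψ => ?_, fun ψ h => ?_⟩
        · have e : ψ (f * f') - 1 = ψ f * (ψ f' - 1) + (ψ f - 1) := by rw [map_mul]; ring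
          rw [e]
          refine (norm_add_le _ _).trans ?_
          rw [norm_mul]
          have a1 := hf1 ψ hψ
          have a2 := hf1' ψ hψ
          have a3 := hf2 ψ
          have : ‖ψ f‖ * ‖ψ f' - 1‖ ≤ (1 + ε) * ε := by gcongr
          nlinarith
        · rw [map_mul, norm_mul]
          calc ‖ψ f‖ * ‖ψ f'‖ ≤ (1 + ε) * (1 + ε) := by
                gcongr
                · exact hf2 ψ
                · exact hf2'' ψ
            _ ≤ 1 + ε₀ := by nlinarith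
        · rw [map_mul, norm_mul]
          obtain ⟨i, hi, hlt⟩ := h
          rcases Finset.mem_insert.mp hi with rfl | hi'
          · calc ‖ψ f‖ * ‖ψ f'‖ ≤ (1 + ε) * ε := by
                  gcongr
                  · exact hf2 ψ
                  · exact hf3' ψ hlt
              _ ≤ ε₀ := by nlinarith
          · calc ‖ψ f‖ * ‖ψ f'‖ ≤ ε * (1 + ε) := by
                  gcongr
                  · exact hf3 ψ ⟨i, hi', hlt⟩
                  · exact hf2'' ψ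
              _ ≤ ε₀ := by nlinarith
    obtain ⟨f, hf1, hf2, hf3⟩ := key q ε hε
    refine ⟨f, fun ψ hψ => hf1 ψ hψ, hf2, fun ψ hψ => hf3 ψ ?_⟩
    by_contra hcon
    push Not at hcon
    exact hψ (hq hcon)

end

end Pool.Agent.Lib.MP_164614_an
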