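import Mathlib
import Pool.Agent.Lib.MP_164614_an.L1

set_option autoImplicit false

namespace Pool.Agent.Lib.MP_164614_an

open Set Filter Topology

/-- the shift graph on codes of pairs -/
def adjP (j k : ℕ) : Prop :=
  (Nat.unpair j).1 < (Nat.unpair j).2 ∧ (Nat.unpair k).1 < (Nat.unpair k).2 ∧
    ((Nat.unpair j).2 = (Nat.unpair k).1 ∨ (Nat.unpair k).2 = (Nat.unpair j).1)

lemma adjP_symm {j k : ℕ} (h : adjP j k) : adjP k j := ⟨h.2.1, h.1, h.2.2.symm⟩

lemma adjP_irrefl (j : ℕ) : ¬ adjP j j := by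
  rintro ⟨h1, _, h3 | h3⟩ <;> omega

lemma adjP_triangle {j k l : ℕ} (h1 : adjP j k) (h2 : adjP k l) (h3 : adjP j l) : False := by
  obtain ⟨a1, a2, a3⟩ := h1
  obtain ⟨b1, b2, b3⟩ := h2
  obtain ⟨c1, c2, c3⟩ := h3
  rcases a3 with a3 | a3 <;> rcases b3 with b3 | b3 <;> rcases c3 with c3 | c3 <;> omega

/-- finitely colourable sets -/
def Colorable (S : Set ℕ) : Prop :=
  ∃ (m : ℕ) (c : ℕ → Fin m), ∀ j ∈ S, ∀ k ∈ S, adjP j k → c j ≠ c k

lemma colorable_of_finite {κ : Type} [Finite κ] {S : Set ℕ} (c : ℕ → κ)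
    (h : ∀ j ∈ S, ∀ k ∈ S, adjP j k → c j ≠ c k) : Colorable S := by
  obtain ⟨m, ⟨e⟩⟩ := Finite.exists_equiv_fin κ
  exact ⟨m, fun j => e (c j), fun j hj k hk hjk he => h j hj k hk hjk (e.injective he)⟩

lemma not_colorable_univ : ¬ Colorable univ := by
  rintro ⟨m, c, hc⟩
  -- out-colours
  let Out : ℕ → Set (Fin m) := fun i => {a | ∃ k, i < k ∧ c (Nat.pair i k) = a}
  obtain ⟨i, j, hij, hO⟩ : ∃ i j, i < j ∧ Out i = Out j := by
    obtain ⟨i, j, hne, hO⟩ := Finite.exists_ne_map_eq_of_infinite Out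
    rcases lt_or_gt_of_ne hne with h | h
    · exact ⟨i, j, h, hO⟩
    · exact ⟨j, i, h, hO.symm⟩
  have h1 : c (Nat.pair i j) ∈ Out i := ⟨j, hij, rfl⟩
  rw [hO] at h1
  obtain ⟨k, hk, hck⟩ := h1
  refine hc (Nat.pair j k) (mem_univ _) (Nat.pair i j) (mem_univ _) ?_ hck
  unfold adjP
  simp only [Nat.unpair_pair]
  exact ⟨hk, hij, Or.inr trivial⟩

/-- the filter of complements of finitely colourable sets -/
def colFilter : Filter ℕ where
  sets := {S | Colorable Sᶜ}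
  univ_sets := by
    change Colorable univᶜ
    refine colorable_of_finite (κ := Unit) (fun _ => ()) ?_
    intro j hj
    exact absurd (mem_univ j) hj
  sets_of_superset := by
    intro S T hS hST
    obtain ⟨m, c, hc⟩ := hS
    exact ⟨m, c, fun j hj k hk => hc j (fun h => hj (hST h)) k (fun h => hk (hST h))⟩
  inter_sets := by
    classical
    intro S T hS hT
    obtain ⟨m, c, hc⟩ := hS
    obtain ⟨m', c', hc'⟩ := hT
    refine colorable_of_finite (κ := Bool × Fin m × Fin m')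
      (fun j => (decide (j ∈ S), c j, c' j)) ?_
    intro j hj k hk hjk he
    simp only [Prod.mk.injEq, decide_eq_decide] at he
    obtain ⟨h1, h2, h3⟩ := he
    by_cases hjS : j ∈ S
    · have hkS := h1.mp hjS
      have hjT : j ∉ T := fun h => hj ⟨hjS, h⟩
      have hkT : k ∉ T := fun h => hk ⟨hkS, h⟩
      exact hc' j hjT k hkT hjk h3
    · have hkS : k ∉ S := fun h => hjS (h1.mpr h)
      exact hc j hjS k hkS hjk h2

lemma mem_colFilter {S : Set ℕ} : S ∈ colFilter ↔ Colorable Sᶜ := Iff.rfl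

instance : NeBot colFilter := by
  rw [neBot_iff]
  intro h
  have : (∅ : Set ℕ) ∈ colFilter := by rw [h]; exact mem_bot
  rw [mem_colFilter, compl_empty] at this
  exact not_colorable_univ this

lemma Ici_mem_colFilter (J : ℕ) : Ici J ∈ colFilter := by
  rw [mem_colFilter]
  refine colorable_of_finite (κ := Fin (J + 1)) (fun j => ⟨min j J, by omega⟩) ?_
  intro j hj k hk hjk he
  simp only [mem_compl_iff, mem_Ici, not_le] at hj hk
  simp only [Fin.mk.injEq] at he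
  have : j = k := by omega
  subst this
  exact adjP_irrefl j hjk

/-- an ultrafilter all of whose members contain an edge -/
noncomputable def colUltra : Ultrafilter ℕ := Ultrafilter.of colFilter

lemma edge_of_mem_colUltra {S : Set ℕ} (hS : S ∈ colUltra) : ∃ j ∈ S, ∃ k ∈ S, adjP j k := by
  by_contra hcon
  push Not at hcon
  have h1 : Sᶜ ∈ colFilter := by
    rw [mem_colFilter, compl_compl]
    exact colorable_of_finite (κ := Unit) (fun _ => ()) fun j hj k hk hjk =>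
      absurd hjk (hcon j hj k hk)
  have h2 : Sᶜ ∈ colUltra := Ultrafilter.of_le colFilter h1
  have h3 := inter_mem hS h2
  rw [inter_compl_self] at h3
  exact colUltra.empty_notMem h3

/-- infinite sets can be halved -/
lemma exists_half (Z : Bd →L[ℂ] ℂ) {A : Set ℕ} (hA : A.Infinite) :
    ∃ B ⊆ A, B.Infinite ∧ Vr Z B ≤ Vr Z A / 2 := by
  set f := hA.natEmbedding A with hf
  set B₁ : Set ℕ := range fun k : ℕ => (f (2 * k) : ℕ) with hB₁
  set B₂ : Set ℕ := range fun k : ℕ => (f (2 * k + 1) : ℕ) with hB₂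
  have hfi : ∀ a b : ℕ, (f a : ℕ) = f b → a = b := fun a b h => f.injective (Subtype.ext h)
  have h1 : B₁ ⊆ A := by rintro _ ⟨k, rfl⟩; exact (f (2 * k)).2
  have h2 : B₂ ⊆ A := by rintro _ ⟨k, rfl⟩; exact (f (2 * k + 1)).2
  have hd : Disjoint B₁ B₂ := by
    rw [Set.disjoint_left]
    rintro _ ⟨k, rfl⟩ ⟨l, hl⟩
    have := hfi _ _ hl
    omega
  have i1 : B₁.Infinite := infinite_range_of_injective fun a b h => by
    have := hfi _ _ h; omega
  have i2 : B₂.Infinite := infinite_range_of_injective fun a b h => by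
    have := hfi _ _ h; omega
  have hV := (Vr_add Z hd).trans (Vr_mono Z (union_subset h1 h2))
  rcases le_total (Vr Z B₁) (Vr Z B₂) with h | h
  · exact ⟨B₁, h1, i1, by linarith⟩
  · exact ⟨B₂, h2, i2, by linarith⟩

/-- an increasing sequence with small tails -/
lemma exists_small_seq (Z : Bd →L[ℂ] ℂ) : ∃ e : ℕ → ℕ, Function.Injective e ∧
    ∀ J : ℕ, Vr Z (e '' Ici J) ≤ ‖Z‖ / 2 ^ J := by
  -- states
  let St := {q : Set ℕ × ℕ // q.1.Infinite ∧ q.2 ∈ q.1}
  have step : ∀ s : St, ∃ s' : St, s'.1.1 ⊆ s.1.1 ∧ Vr Z s'.1.1 ≤ Vr Z s.1.1 / 2 ∧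
      s.1.2 < s'.1.2 := by
    intro s
    obtain ⟨B, hB1, hB2, hB3⟩ := exists_half Z s.2.1
    obtain ⟨b, hb, hb'⟩ := hB2.exists_gt s.1.2
    exact ⟨⟨(B, b), hB2, hb⟩, hB1, hB3, hb'⟩
  choose nxt hnxt using step
  let s₀ : St := ⟨(univ, 0), infinite_univ, mem_univ _⟩
  let seq : ℕ → St := fun n => Nat.rec s₀ (fun _ s => nxt s) n
  have hs : ∀ n, seq (n + 1) = nxt (seq n) := fun n => rfl
  have hanti : Antitone fun n => (seq n).1.1 := antitone_nat_of_succ_le fun n => by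
    rw [hs]; exact (hnxt _).1
  have hmono : StrictMono fun n => (seq n).1.2 := strictMono_nat_of_lt_succ fun n => by
    rw [hs]; exact (hnxt _).2.2
  have hV : ∀ n, Vr Z (seq n).1.1 ≤ ‖Z‖ / 2 ^ n := by
    intro n
    induction n with
    | zero =>
      change Vr Z univ ≤ _
      rw [Vr_univ]; simp
    | succ n ih =>
      rw [hs]
      refine (hnxt _).2.1.trans ?_
      rw [pow_succ, ← div_div]
      linarith
  refine ⟨fun n => (seq n).1.2, hmono.injective, fun J => ?_⟩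
  refine (Vr_mono Z ?_).trans (hV J)
  rintro _ ⟨n, hn, rfl⟩
  exact hanti hn (seq n).2.2

/-- the graph and the ultrafilter used for the noise -/
theorem exists_graph (Z : Bd →L[ℂ] ℂ) : ∃ (adj : ℕ → ℕ → Prop) (U : Ultrafilter ℕ),
    (∀ n m, adj n m → adj m n) ∧ (∀ n, ¬ adj n n) ∧
    (∀ n m l, adj n m → adj m l → adj n l → False) ∧
    (∀ C ∈ U, ∃ n ∈ C, ∃ m ∈ C, adj n m) ∧ ∀ δ : ℝ, 0 < δ → ∃ C ∈ U, Vr Z C ≤ δ := by
  obtain ⟨e, he, hV⟩ := exists_small_seq Z
  refine ⟨fun n m => ∃ j k, e j = n ∧ e k = m ∧ adjP j k, colUltra.map e, ?_, ?_, ?_, ?_, ?_⟩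
  · rintro n m ⟨j, k, hj, hk, h⟩
    exact ⟨k, j, hk, hj, adjP_symm h⟩
  · rintro n ⟨j, k, hj, hk, h⟩
    have : j = k := he (hj.trans hk.symm)
    subst this
    exact adjP_irrefl j h
  · rintro n m l ⟨j, k, hj, hk, h⟩ ⟨j', k', hj', hk', h'⟩ ⟨j'', k'', hj'', hk'', h''⟩
    have e1 : k = j' := he (hk.trans hj'.symm)
    have e2 : j = j'' := he (hj.trans hj''.symm)
    have e3 : k' = k'' := he (hk'.trans hk''.symm)
    subst e1 e2 e3
    exact adjP_triangle h h' h''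
  · intro C hC
    rw [Ultrafilter.mem_map] at hC
    obtain ⟨j, hj, k, hk, h⟩ := edge_of_mem_colUltra hC
    exact ⟨e j, hj, e k, hk, j, k, rfl, rfl, h⟩
  · intro δ hδ
    obtain ⟨J, hJ⟩ : ∃ J : ℕ, ‖Z‖ / 2 ^ J ≤ δ := by
      have h1 : Tendsto (fun J : ℕ => ‖Z‖ * (1 / 2 : ℝ) ^ J) atTop (𝓝 (‖Z‖ * 0)) :=
        (tendsto_pow_atTop_nhds_zero_of_lt_one (by norm_num) (by norm_num)).const_mul _
      rw [mul_zero] at h1
      obtain ⟨J, hJ⟩ := (h1.eventually (eventually_le_nhds hδ)).exists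
      refine ⟨J, le_trans (le_of_eq ?_) hJ⟩
      rw [one_div, inv_pow, div_eq_mul_inv]
    refine ⟨e '' Ici J, ?_, (hV J).trans hJ⟩
    rw [Ultrafilter.mem_map]
    have : Ici J ⊆ e ⁻¹' (e '' Ici J) := subset_preimage_image e _
    exact mem_of_superset (Ultrafilter.of_le colFilter (Ici_mem_colFilter J)) this

end Pool.Agent.Lib.MP_164614_an
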