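import Mathlib
import Pool.Agent.Lib.MP_164614_an.Exp1
import Pool.Agent.Lib.MP_164614_an.Ultra
import Pool.Agent.Lib.MP_164614_an.UA2
import Pool.Agent.Lib.MP_164614_an.FinP

set_option autoImplicit false

namespace Pool.Agent.Lib.MP_164614_an

open Set Filter Topology Metric
open scoped ENNReal

noncomputable section

/-- transfer from points of the ball to the whole spectrum -/
lemma transfer {X : Type*} [NormedAddCommGroup X] [NormedSpace ℂ X] (g : Au X) (t : ℂ) {δ ε : ℝ}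
    (hδ : 0 < δ) (hε : 0 < ε) : ∃ η : ℝ, 0 < η ∧ ∀ f : Au X, (∀ x, ‖ev x f‖ ≤ 2) →
      (∀ x, ‖ev x f‖ ≤ η ∨ ‖ev x g - t‖ ≤ δ / 2) → ∀ ψ : Spec (Au X), δ < ‖ψ g - t‖ →
      ‖ψ f‖ ≤ ε := by
  set G : ℝ := ‖g‖ + ‖t‖ + δ with hG
  have hG0 : 0 < G := by positivity
  obtain ⟨n, hn⟩ := exists_pow_lt_of_lt_one (show (0 : ℝ) < ε / 2 by positivity)
    (show (1 / 2 : ℝ) < 1 by norm_num)
  refine ⟨ε * (δ / G) ^ n, by positivity, fun f hf2 hf ψ hψ => ?_⟩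
  have hu : ‖f * (g - algebraMap ℂ (Au X) t) ^ n‖ ≤ ε * δ ^ n := by
    refine norm_le_of_ev (by positivity) fun x => ?_
    have e : ev x (f * (g - algebraMap ℂ (Au X) t) ^ n) = ev x f * (ev x g - t) ^ n := by
      rw [map_mul, map_pow, map_sub, AlgHomClass.commutes]; rfl
    rw [e, norm_mul, norm_pow]
    have hb : ‖ev x g - t‖ ≤ G := by
      refine (norm_sub_le _ _).trans ?_
      have := norm_ev_le Au_norm_one g (ev x)
      linarith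
    rcases hf x with h | h
    · calc ‖ev x f‖ * ‖ev x g - t‖ ^ n ≤ (ε * (δ / G) ^ n) * G ^ n := by gcongr
        _ = ε * δ ^ n := by rw [div_pow]; field_simp
    · calc ‖ev x f‖ * ‖ev x g - t‖ ^ n ≤ 2 * (δ / 2) ^ n := by
            gcongr
            exact hf2 x
        _ = 2 * (1 / 2) ^ n * δ ^ n := by rw [div_pow, one_div, inv_pow]; field_simp
        _ ≤ ε * δ ^ n := by
            have : 2 * (1 / 2 : ℝ) ^ n ≤ ε := by linarith
            gcongr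
  have h1 := (norm_ev_le Au_norm_one (f * (g - algebraMap ℂ (Au X) t) ^ n) ψ).trans hu
  have e : ψ (f * (g - algebraMap ℂ (Au X) t) ^ n) = ψ f * (ψ g - t) ^ n := by
    rw [map_mul, map_pow, map_sub, AlgHomClass.commutes]; rfl
  rw [e, norm_mul, norm_pow] at h1
  have h2 : δ ^ n ≤ ‖ψ g - t‖ ^ n := pow_le_pow_left₀ hδ.le hψ.le n
  have h3 : ‖ψ f‖ * δ ^ n ≤ ε * δ ^ n :=
    (mul_le_mul_of_nonneg_left h2 (norm_nonneg _)).trans h1
  exact le_of_mul_le_mul_right h3 (by positivity)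

/-- general compactness for the noise defect -/
lemma H_sep_gen {T η : ℝ} (Φ : ℝ × ℂ → ℝ) (hΦ : Continuous Φ) (h1 : Φ (1, 1) < η) :
    ∃ d : ℝ, 0 < d ∧ ∀ (t : ℝ) (ν : ℂ), 0 ≤ t → t ≤ T → ‖ν‖ ≤ t ^ 2 →
      (t - 1) ^ 2 + (t ^ 2 - ν.re) < d → Φ (t, ν) < η := by
  have hK : IsCompact ((Icc (0 : ℝ) T ×ˢ Metric.closedBall (0 : ℂ) (|T| ^ 2)) ∩
      {q : ℝ × ℂ | ‖q.2‖ ≤ q.1 ^ 2 ∧ η ≤ Φ q}) := by
    refine (isCompact_Icc.prod (isCompact_closedBall _ _)).inter_right ?_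
    exact (isClosed_le continuous_snd.norm (continuous_fst.pow 2)).inter
      (isClosed_le continuous_const hΦ)
  obtain ⟨d, hd, hd2⟩ := hK.exists_forall_le'
    (f := fun q : ℝ × ℂ => (q.1 - 1) ^ 2 + (q.1 ^ 2 - q.2.re))
    (by fun_prop) (a := 0) (by
      rintro ⟨t, ν⟩ ⟨_, h2, h3⟩
      simp only at h2 h3 ⊢
      have h4 : ν.re ≤ t ^ 2 := (Complex.re_le_norm ν).trans h2
      by_contra hcon
      push Not at hcon
      have h5 : (t - 1) ^ 2 = 0 := by nlinarith [sq_nonneg (t - 1)]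
      have h6 : t = 1 := by nlinarith
      subst h6
      simp only [one_pow] at h2 h4 hcon
      have h7 : ν.re = 1 := by nlinarith
      have h8 : ν.re ^ 2 + ν.im ^ 2 ≤ 1 := by
        have := Complex.normSq_eq_norm_sq ν
        rw [Complex.normSq_apply] at this
        have h9 : ‖ν‖ ^ 2 ≤ 1 := pow_le_one₀ (norm_nonneg _) h2
        nlinarith
      have h9 : ν.im = 0 := by nlinarith
      have : ν = 1 := Complex.ext h7 h9
      rw [this] at h3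
      linarith)
  refine ⟨d, hd, fun t ν ht htT hν h => ?_⟩
  by_contra hcon
  push Not at hcon
  have := hd2 (t, ν) ⟨⟨⟨ht, htT⟩, by
    simp only [mem_closedBall_zero_iff]
    refine hν.trans (pow_le_pow_left₀ ht (htT.trans (le_abs_self T)) 2)⟩, hν, hcon⟩
  simp only at this
  linarith

/-- choice of the parameters -/
lemma choose_params {c : ℝ} (hc : 0 < c) {θ dH η ε δm : ℝ} (hθ : 0 < θ) (hdH : 0 < dH)
    (hη : 0 < η) (hε : 0 < ε) (hδm : 0 < δm) : ∃ (κ K : ℝ) (k : ℕ) (δ₂ : ℝ), 0 ≤ κ ∧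
      2 * c * K = k + κ ∧ 0 ≤ K ∧
      4 * (1 / c) * (κ * (((2 : ℕ) : ℝ) ^ 2 * (1 / c) ^ 2 + 1)) ≤ ((2 : ℕ) : ℝ) * k ∧
      0 < δ₂ ∧ δ₂ ≤ δm ∧ Real.exp (8 * K * δ₂) ≤ 1 + ε ∧
      Real.exp (8 * K * δ₂ - κ * dH) ≤ η ∧ Real.exp (8 * K * δ₂ - K * θ ^ 2) ≤ η ∧
      ∀ ν : ℂ, ‖ν - 1‖ ≤ 40 * δ₂ / c ^ 2 → ‖ν ^ k * Complex.exp (κ * (ν - 1)) - 1‖ ≤ ε := by
  -- κ
  obtain ⟨κ, hκ0, hκ⟩ : ∃ κ : ℝ, 0 ≤ κ ∧ 1 - Real.log η ≤ κ * dH := by
    refine ⟨max 0 ((1 - Real.log η) / dH), le_max_left _ _, ?_⟩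
    rw [← div_le_iff₀ hdH]
    exact le_max_right _ _
  obtain ⟨k, hk⟩ := exists_nat_ge (4 * (1 / c) * (κ * (((2 : ℕ) : ℝ) ^ 2 * (1 / c) ^ 2 + 1)) +
    max 0 (2 * c * ((1 - Real.log η) / θ ^ 2)))
  set K : ℝ := (k + κ) / (2 * c) with hK
  have hk0 : (0 : ℝ) ≤ k := Nat.cast_nonneg k
  have hKc : 2 * c * K = k + κ := by rw [hK]; field_simp
  have hK0 : 0 ≤ K := by rw [hK]; positivity
  have hA : 0 ≤ 4 * (1 / c) * (κ * (((2 : ℕ) : ℝ) ^ 2 * (1 / c) ^ 2 + 1)) := by positivity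
  have hKθ : 1 - Real.log η ≤ K * θ ^ 2 := by
    rw [← div_le_iff₀ (by positivity)]
    have h1 : 2 * c * ((1 - Real.log η) / θ ^ 2) ≤ 2 * c * K := by
      rw [hKc]
      have := le_max_right 0 (2 * c * ((1 - Real.log η) / θ ^ 2))
      linarith
    exact le_of_mul_le_mul_left h1 (by positivity)
  -- continuity in ν
  have hcont : Continuous fun ν : ℂ => ν ^ k * Complex.exp (κ * (ν - 1)) := by fun_prop
  have hval : (1 : ℂ) ^ k * Complex.exp (κ * (1 - 1)) = 1 := by simp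
  obtain ⟨ω, hω, hω2⟩ := Metric.continuousAt_iff.mp (hcont.continuousAt (x := (1 : ℂ))) ε hε
  -- δ₂
  set l := Real.log (1 + ε) with hl
  have hl0 : 0 < l := Real.log_pos (by linarith)
  set δ₂ : ℝ := min (min δm (min l 1 / (8 * (K + 1)))) (ω * c ^ 2 / 80) with hδ₂
  have hδ₂0 : 0 < δ₂ := by
    refine lt_min (lt_min hδm ?_) (by positivity)
    have : 0 < min l 1 := lt_min hl0 one_pos
    positivity
  have hδ₂1 : δ₂ ≤ δm := (min_le_left _ _).trans (min_le_left _ _)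
  have hδ₂2 : δ₂ ≤ min l 1 / (8 * (K + 1)) := (min_le_left _ _).trans (min_le_right _ _)
  have hδ₂3 : δ₂ ≤ ω * c ^ 2 / 80 := min_le_right _ _
  have h8 : 8 * K * δ₂ ≤ min l 1 := by
    rw [le_div_iff₀ (by positivity)] at hδ₂2
    nlinarith
  have h8l : 8 * K * δ₂ ≤ l := h8.trans (min_le_left _ _)
  have h81 : 8 * K * δ₂ ≤ 1 := h8.trans (min_le_right _ _)
  refine ⟨κ, K, k, δ₂, hκ0, hKc, hK0, ?_, hδ₂0, hδ₂1, ?_, ?_, ?_, ?_⟩
  · have := le_max_left 0 (2 * c * ((1 - Real.log η) / θ ^ 2))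
    push_cast at hk ⊢
    push_cast at hA
    linarith
  · calc Real.exp (8 * K * δ₂) ≤ Real.exp l := Real.exp_le_exp.mpr h8l
      _ = 1 + ε := Real.exp_log (by linarith)
  · calc Real.exp (8 * K * δ₂ - κ * dH) ≤ Real.exp (Real.log η) := Real.exp_le_exp.mpr (by linarith)
      _ = η := Real.exp_log hη
  · calc Real.exp (8 * K * δ₂ - K * θ ^ 2) ≤ Real.exp (Real.log η) :=
          Real.exp_le_exp.mpr (by linarith)
      _ = η := Real.exp_log hη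
  · intro ν hν
    have h1 : dist ν 1 < ω := by
      rw [dist_eq_norm]
      refine lt_of_le_of_lt hν ?_
      have h2 : 40 * δ₂ / c ^ 2 ≤ ω / 2 := by
        rw [div_le_iff₀ (by positivity)]
        linarith
      linarith
    have h2 := hω2 h1
    rw [hval, dist_eq_norm] at h2
    exact h2.le

variable {ι : Type} [Fintype ι]

/-- the normalised noise form -/
def nu1 (adj : ℕ → ℕ → Prop) (C : Set ℕ) (c : ℝ) : Au (L 1) := (-((c : ℂ) ^ 2)⁻¹) • qA adj C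

/-- the peaking function -/
def pk (Z : Bd →L[ℂ] ℂ) (C : Set ℕ) (lam : ℕ → ι) (h : Bd) (adj : ℕ → ℕ → Prop) (c K κ : ℝ)
    (k : ℕ) : Au (L 1) :=
  EA Z C lam h K * (nu1 adj C c ^ k * NormedSpace.exp ((κ : ℂ) • (nu1 adj C c - 1)))

lemma spec_noise {A : Type*} [NormedCommRing A] [NormedAlgebra ℂ A] [CompleteSpace A] (ψ : Spec A)
    (a b : A) (κ : ℂ) (k : ℕ) :
    ψ (a * (b ^ k * NormedSpace.exp (κ • (b - 1)))) =
      ψ a * ((ψ b) ^ k * Complex.exp (κ * (ψ b - 1))) := by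
  rw [map_mul, map_mul, map_pow, spec_exp, map_smul, map_sub, map_one, smul_eq_mul]

lemma spec_pk (Z : Bd →L[ℂ] ℂ) (C : Set ℕ) (lam : ℕ → ι) (h : Bd) (adj : ℕ → ℕ → Prop) (c K κ : ℝ)
    (k : ℕ) (ψ : Spec (Au (L 1))) : ψ (pk Z C lam h adj c K κ k) =
      ψ (EA Z C lam h K) * ((ψ (nu1 adj C c)) ^ k * Complex.exp (κ * (ψ (nu1 adj C c) - 1))) :=
  spec_noise ψ _ _ _ _

/-- noise values at points -/
def nv (adj : ℕ → ℕ → Prop) (C : Set ℕ) (c : ℝ) (x : L 1) : ℂ :=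
  (-((c : ℂ) ^ 2)⁻¹) * qf adj (rX C x)

lemma ev_nu1 (adj : ℕ → ℕ → Prop) (C : Set ℕ) (c : ℝ) (x : ball (0 : L 1) 1) :
    ev x (nu1 adj C c) = nv adj C c (x : L 1) := by
  unfold nu1 nv
  rw [map_smul, smul_eq_mul, ev_qA]

lemma norm_nv_le {adj : ℕ → ℕ → Prop} (hsym : ∀ n m, adj n m → adj m n)
    (htri : ∀ n m l, adj n m → adj m l → adj n l → False) (C : Set ℕ) {c : ℝ} (hc : 0 < c)
    (x : L 1) : ‖nv adj C c x‖ ≤ (‖rX C x‖ / c) ^ 2 := by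
  unfold nv
  rw [norm_mul, norm_neg, norm_inv, norm_pow, Complex.norm_real, Real.norm_of_nonneg hc.le,
    inv_mul_le_iff₀ (by positivity), div_pow, mul_div_cancel₀ _ (by positivity)]
  exact norm_qf_le hsym htri _

/-- the noise defect at a point -/
def Hd (adj : ℕ → ℕ → Prop) (C : Set ℕ) (c : ℝ) (x : L 1) : ℝ :=
  (‖rX C x‖ / c - 1) ^ 2 + ((‖rX C x‖ / c) ^ 2 - (nv adj C c x).re)

lemma Hd_nonneg {adj : ℕ → ℕ → Prop} (hsym : ∀ n m, adj n m → adj m n)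
    (htri : ∀ n m l, adj n m → adj m l → adj n l → False) (C : Set ℕ) {c : ℝ} (hc : 0 < c)
    (x : L 1) : 0 ≤ Hd adj C c x := by
  unfold Hd
  have h1 := (Complex.re_le_norm _).trans (norm_nv_le hsym htri C hc x)
  nlinarith [sq_nonneg (‖rX C x‖ / c - 1)]

/-- main bound for the peaking function -/
lemma norm_pk_le (Z : Bd →L[ℂ] ℂ) (C : Set ℕ) (lam : ℕ → ι) {h : Bd} (hh : ∀ n, ‖h n‖ = 1)
    {adj : ℕ → ℕ → Prop} (hsym : ∀ n m, adj n m → adj m n)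
    (htri : ∀ n m l, adj n m → adj m l → adj n l → False) {c K κ : ℝ} {k : ℕ} (hc : 0 < c)
    (hZc : ‖Z‖ = 1 - c) (hκ : 0 ≤ κ) (hK : 0 ≤ K) (hKc : 2 * c * K = k + κ)
    (hk : 4 * (1 / c) * (κ * (((2 : ℕ) : ℝ) ^ 2 * (1 / c) ^ 2 + 1)) ≤ ((2 : ℕ) : ℝ) * k)
    {δ₂ : ℝ} (hC : Vr Z C ≤ δ₂) (hZh : ‖Z‖ - δ₂ ≤ ‖Z h‖) (x : ball (0 : L 1) 1) :
    ‖ev x (pk Z C lam h adj c K κ k)‖ ≤ Real.exp (8 * K * δ₂ -
      K * (∑ i, ‖dv Z C lam h (x : L 1) i‖ ^ 2) - κ * Hd adj C c (x : L 1)) := by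
  have hx : ‖(x : L 1)‖ ≤ 1 := (mem_ball_zero_iff.mp x.2).le
  have hc1 : c ≤ 1 := by
    have := norm_nonneg Z
    linarith
  rw [spec_pk, ev_nu1, norm_mul]
  set t := ‖rX C (x : L 1)‖ / c with ht
  have htc : ‖rX C (x : L 1)‖ = c * t := by rw [ht]; field_simp
  have h1 := norm_EA_le Z C lam hh hK x
  have h2 : ‖nv adj C c (x : L 1) ^ k * Complex.exp (κ * (nv adj C c (x : L 1) - 1))‖ =
      ‖nv adj C c (x : L 1)‖ ^ k * Real.exp (κ * ((nv adj C c (x : L 1)).re - 1)) := by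
    rw [norm_mul, norm_pow, Complex.norm_exp, Complex.re_ofReal_mul, Complex.sub_re,
      Complex.one_re]
  rw [h2]
  have h3 := noise_est (t := t) (T := 1 / c) (ν := nv adj C c (x : L 1))
    (ν' := (nv adj C c (x : L 1)).re) (r := 2) (k := k) hκ (by positivity)
    (by rw [ht]; gcongr; exact (norm_rX_le C _).trans hx) (by rw [le_div_iff₀ hc]; linarith)
    (norm_nv_le hsym htri C hc _) rfl hk
  calc _ ≤ Real.exp (4 * K * (1 - ‖rX C (x : L 1)‖ - ‖Z h‖ + Vr Z C) -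
      K * ∑ i, ‖dv Z C lam h (x : L 1) i‖ ^ 2) *
      Real.exp (((2 : ℕ) : ℝ) * (k + κ) * (t - 1) - κ * ((t - 1) ^ 2 +
        (t ^ 2 - (nv adj C c (x : L 1)).re))) := by gcongr
    _ ≤ _ := by
        rw [← Real.exp_add, Real.exp_le_exp]
        have h4 : 4 * K * (1 - ‖rX C (x : L 1)‖ - ‖Z h‖ + Vr Z C) ≤
            4 * K * (c - c * t + 2 * δ₂) := by
          apply mul_le_mul_of_nonneg_left _ (by positivity)
          linarith
        have h5 : 4 * K * (c - c * t + 2 * δ₂) = -(2 * (k + κ) * (t - 1)) + 8 * K * δ₂ := by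
          rw [← hKc]; ring
        have h6 : Hd adj C c (x : L 1) = (t - 1) ^ 2 + (t ^ 2 - (nv adj C c (x : L 1)).re) := rfl
        rw [h6]
        push_cast
        linarith

end

end Pool.Agent.Lib.MP_164614_an
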