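import Mathlib
import Pool.Agent.Lib.MP_164614_an.Peak1

set_option autoImplicit false

namespace Pool.Agent.Lib.MP_164614_an

open Set Filter Topology Metric
open scoped ENNReal

noncomputable section

/-- existence of peaking functions with prescribed quality -/
lemma peak_exists (z : StrongDual ℂ (StrongDual ℂ (L 1))) {c : ℝ} (hc : 0 < c)
    (hz : ‖z‖ = 1 - c) {adj : ℕ → ℕ → Prop} (hsym : ∀ n m, adj n m → adj m n)
    (htri : ∀ n m l, adj n m → adj m l → adj n l → False)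
    {θ dH η ε δm : ℝ} (hθ : 0 < θ) (hdH : 0 < dH)
    (hη : 0 < η) (hε : 0 < ε) (hδm : 0 < δm) :
    ∃ δ₂ : ℝ, 0 < δ₂ ∧ δ₂ ≤ δm ∧ ∀ (ι : Type) (_ : Fintype ι) (C : Set ℕ) (lam : ℕ → ι) (h : Bd),
      Vr (Zc z) C ≤ δ₂ → (∀ n, ‖h n‖ = 1) → ‖Zc z‖ - δ₂ ≤ ‖Zc z h‖ → ∃ f : Au (L 1),
      (∀ ψ : Spec (Au (L 1)), (∀ l, ψ (ofDual l) = z l) →
        ‖ψ (qA adj C) - (-(c : ℂ) ^ 2)‖ ≤ 40 * δ₂ → ‖ψ f - 1‖ ≤ ε) ∧
      (∀ x, ‖ev x f‖ ≤ 1 + ε) ∧
      ∀ x : ball (0 : L 1) 1, ‖ev x f‖ ≤ η ∨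
        ((∀ i, ‖dv (Zc z) C lam h (x : L 1) i‖ < θ) ∧ Hd adj C c (x : L 1) < dH) := by
  obtain ⟨κ, K, k, δ₂, hκ, hKc, hK, hk, hδ₂, hδ₂m, he1, he2, he3, he4⟩ :=
    choose_params hc hθ hdH hη hε hδm
  refine ⟨δ₂, hδ₂, hδ₂m, ?_⟩
  intro ι _ C lam h hC hh hZh
  have hbound := fun x => norm_pk_le (Zc z) C lam hh hsym htri hc (by rw [norm_Zc, hz]) hκ hK
    hKc hk hC hZh x
  refine ⟨pk (Zc z) C lam h adj c K κ k, ?_, ?_, ?_⟩
  · intro ψ hψ hq
    rw [spec_pk, spec_EA_eq_one z C lam h K ψ hψ, one_mul]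
    apply he4
    unfold nu1
    rw [map_smul, smul_eq_mul]
    have hc2 : (c : ℂ) ^ 2 ≠ 0 := by
      apply pow_ne_zero; exact_mod_cast hc.ne'
    have e : -((c : ℂ) ^ 2)⁻¹ * ψ (qA adj C) - 1 =
        (-((c : ℂ) ^ 2)⁻¹) * (ψ (qA adj C) - (-(c : ℂ) ^ 2)) := by
      have h1 : ((c : ℂ) ^ 2)⁻¹ * (c : ℂ) ^ 2 = 1 := inv_mul_cancel₀ hc2
      linear_combination h1
    rw [e, norm_mul, norm_neg, norm_inv, norm_pow, Complex.norm_real, Real.norm_of_nonneg hc.le,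
      div_eq_inv_mul]
    gcongr
  · intro x
    refine (hbound x).trans (le_trans ?_ he1)
    rw [Real.exp_le_exp]
    have h1 : 0 ≤ K * ∑ i, ‖dv (Zc z) C lam h (x : L 1) i‖ ^ 2 :=
      mul_nonneg hK (Finset.sum_nonneg fun i _ => by positivity)
    have h2 : 0 ≤ κ * Hd adj C c (x : L 1) := mul_nonneg hκ (Hd_nonneg hsym htri C hc _)
    linarith
  · intro x
    have h1 : 0 ≤ ∑ i, ‖dv (Zc z) C lam h (x : L 1) i‖ ^ 2 :=
      Finset.sum_nonneg fun i _ => by positivity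
    have h2 : 0 ≤ Hd adj C c (x : L 1) := Hd_nonneg hsym htri C hc _
    by_cases hH : Hd adj C c (x : L 1) < dH
    · by_cases hd : ∀ i, ‖dv (Zc z) C lam h (x : L 1) i‖ < θ
      · exact Or.inr ⟨hd, hH⟩
      · left
        push Not at hd
        obtain ⟨i, hi⟩ := hd
        refine (hbound x).trans (le_trans ?_ he3)
        rw [Real.exp_le_exp]
        have h3 : θ ^ 2 ≤ ∑ i, ‖dv (Zc z) C lam h (x : L 1) i‖ ^ 2 := by
          refine le_trans (pow_le_pow_left₀ hθ.le hi 2) ?_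
          exact Finset.single_le_sum (f := fun i => ‖dv (Zc z) C lam h (x : L 1) i‖ ^ 2)
            (fun i _ => by positivity) (Finset.mem_univ i)
        have h4 := mul_le_mul_of_nonneg_left h3 hK
        have h5 := mul_nonneg hκ h2
        linarith
    · left
      push Not at hH
      refine (hbound x).trans (le_trans ?_ he2)
      rw [Real.exp_le_exp]
      have h4 := mul_le_mul_of_nonneg_left hH hκ
      have h5 := mul_nonneg hK h1
      linarith

/-- finite cells for bounded complex numbers -/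
lemma exists_cells (G : ℝ) (hG : 0 ≤ G) {ε₁ : ℝ} (hε₁ : 0 < ε₁) :
    ∃ (ι : Type) (_ : Fintype ι) (b : ι → ℂ) (cell : ℂ → ι), (∀ i, ‖b i‖ ≤ G) ∧
      ∀ w : ℂ, ‖w‖ ≤ G → ‖w - b (cell w)‖ ≤ ε₁ := by
  classical
  obtain ⟨t, hts, htf, htc⟩ := (isCompact_closedBall (0 : ℂ) G).finite_cover_balls hε₁
  have hne : t.Nonempty := by
    have h0 : (0 : ℂ) ∈ closedBall (0 : ℂ) G := by simpa using hG
    have h1 := htc h0
    simp only [mem_iUnion] at h1
    obtain ⟨y, hy, _⟩ := h1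
    exact ⟨y, hy⟩
  have hex : ∀ w : ℂ, ∃ i : t, ‖w‖ ≤ G → ‖w - i‖ ≤ ε₁ := by
    intro w
    by_cases hw : ‖w‖ ≤ G
    · have h1 := htc (show w ∈ closedBall (0 : ℂ) G by simpa using hw)
      simp only [mem_iUnion] at h1
      obtain ⟨y, hy, hwy⟩ := h1
      rw [mem_ball, dist_eq_norm] at hwy
      exact ⟨⟨y, hy⟩, fun _ => hwy.le⟩
    · obtain ⟨y, hy⟩ := hne
      exact ⟨⟨y, hy⟩, fun h => absurd h hw⟩
  choose cell hcell using hex
  refine ⟨t, htf.fintype, fun i => (i : ℂ), cell, fun i => ?_, fun w hw => hcell w hw⟩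
  have := hts i.2
  simpa using this

/-- bounded sequences converge along ultrafilters -/
lemma exists_ulim (U : Ultrafilter ℕ) (g : Bd) : ∃ a : ℂ, ‖a‖ ≤ ‖g‖ ∧
    ∀ ε₁ : ℝ, 0 < ε₁ → {n | ‖g n - a‖ ≤ ε₁} ∈ U := by
  have h1 : ∀ n, g n ∈ closedBall (0 : ℂ) ‖g‖ := fun n => by
    simpa using g.norm_coe_le_norm n
  obtain ⟨a, ha, hle⟩ := (isCompact_closedBall (0 : ℂ) ‖g‖).ultrafilter_le_nhds (U.map g)
    (by
      rw [le_principal_iff]
      have h2 : g ⁻¹' closedBall (0 : ℂ) ‖g‖ ∈ U := Filter.univ_mem' h1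
      exact h2)
  refine ⟨a, by simpa using ha, fun ε₁ hε₁ => ?_⟩
  have h2 : closedBall a ε₁ ∈ U.map g := hle (closedBall_mem_nhds a hε₁)
  rw [Ultrafilter.mem_map] at h2
  refine mem_of_superset h2 fun n hn => ?_
  have h3 : g n ∈ closedBall a ε₁ := hn
  rw [mem_closedBall, dist_eq_norm] at h3
  exact h3

/-- the conditions defining the set in the fiber -/
def CondN (adj : ℕ → ℕ → Prop) (U : Ultrafilter ℕ) (Z : Bd →L[ℂ] ℂ) (c : ℝ)
    (ψ : Spec (Au (L 1))) : Prop :=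
  ∀ C ∈ U, ∀ δ : ℝ, 0 < δ → 40 * Vr Z C ≤ δ → ‖ψ (qA adj C) - (-(c : ℂ) ^ 2)‖ ≤ δ

/-- separation of functionals -/
lemma sep_func (z : StrongDual ℂ (StrongDual ℂ (L 1))) {c : ℝ} (hc : 0 < c)
    (hz : ‖z‖ = 1 - c) {adj : ℕ → ℕ → Prop} (hsym : ∀ n m, adj n m → adj m n)
    (htri : ∀ n m l, adj n m → adj m l → adj n l → False) (U : Ultrafilter ℕ)
    (hU : ∀ δ : ℝ, 0 < δ → ∃ C ∈ U, Vr (Zc z) C ≤ δ) (l : StrongDual ℂ (L 1)) {δ ε : ℝ}
    (hδ : 0 < δ) (hε : 0 < ε) : ∃ f : Au (L 1),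
      (∀ ψ : Spec (Au (L 1)), (∀ l, ψ (ofDual l) = z l) → CondN adj U (Zc z) c ψ →
        ‖ψ f - 1‖ ≤ ε) ∧ ‖f‖ ≤ 1 + ε ∧
      ∀ ψ : Spec (Au (L 1)), δ < ‖ψ (ofDual l) - z l‖ → ‖ψ f‖ ≤ ε := by
  obtain ⟨g, hg, _⟩ := exists_Tb l
  set ε' := min ε 1 with hε'
  have hε'0 : 0 < ε' := lt_min hε one_pos
  have hε'1 : ε' ≤ 1 := min_le_right _ _
  have hε'2 : ε' ≤ ε := min_le_left _ _
  set G : ℝ := ‖g‖ + 1 with hG
  have hG0 : 0 < G := by positivity
  have hgG : ‖g‖ ≤ G := by linarith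
  obtain ⟨η, hη, htrans⟩ := transfer (ofDual l) (z l) hδ hε'0
  set ε₁ : ℝ := δ / 32 with hε₁
  have hε₁0 : 0 < ε₁ := by positivity
  obtain ⟨ι, hι, b, cell, hb, hcell⟩ := exists_cells G hG0.le hε₁0
  set M : ℝ := (Fintype.card ι : ℝ) with hM
  have hM0 : 0 ≤ M := Nat.cast_nonneg _
  set θ : ℝ := δ / (8 * G * (M + 1)) with hθ
  have hθ0 : 0 < θ := by positivity
  obtain ⟨dH, hdH, hdH2⟩ := H_sep_gen (T := 1 / c) (η := (δ / (8 * G)) ^ 4)
    (fun q => 4 * c ^ 4 * (q.1 ^ 4 - ‖q.2‖ ^ 2)) (by fun_prop) (by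
      simp only [one_pow, norm_one, sub_self, mul_zero]; positivity)
  obtain ⟨δ₂, hδ₂, hδ₂m, hpk⟩ := peak_exists z hc hz hsym htri hθ0 hdH hη hε'0
    (show 0 < δ / (8 * G) by positivity)
  obtain ⟨C₁, hC₁U, hC₁⟩ := hU δ₂ hδ₂
  obtain ⟨a, ha, hau⟩ := exists_ulim U g
  set C : Set ℕ := C₁ ∩ {n | ‖g n - a‖ ≤ ε₁} with hCdef
  have hCU : C ∈ U := inter_mem hC₁U (hau ε₁ hε₁0)
  have hCV : Vr (Zc z) C ≤ δ₂ := (Vr_mono _ inter_subset_left).trans hC₁
  obtain ⟨h, hh, hZh⟩ := exists_unimodular (Zc z) hδ₂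
  set lam : ℕ → ι := fun n => cell (g n * (starRingEnd ℂ) (h n)) with hlam
  obtain ⟨f, hf1, hf2, hf3⟩ := hpk ι hι C lam h hCV hh hZh
  have hZ1 : ‖Zc z‖ ≤ 1 := by rw [norm_Zc, hz]; linarith
  refine ⟨f, ?_, ?_, ?_⟩
  · intro ψ hψ hψN
    refine (hf1 ψ hψ (hψN C hCU (40 * δ₂) (by positivity) (by linarith))).trans hε'2
  · exact norm_le_of_ev (by linarith) fun x => (hf2 x).trans (by linarith)
  · intro ψ hψ
    refine (htrans f (fun x => (hf2 x).trans (by linarith)) (fun x => ?_) ψ hψ).trans hε'2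
    rcases hf3 x with h1 | ⟨h1, h2⟩
    · exact Or.inl h1
    · right
      have hx : ‖(x : L 1)‖ ≤ 1 := (mem_ball_zero_iff.mp x.2).le
      rw [ev_ofDual, ← hg]
      change ‖Tb g (x : L 1) - Zc z g‖ ≤ δ / 2
      have h3 := func_sep (Zc z) hZ1 C lam (h := h) g b a hε₁0.le hgG hb (ha.trans hgG)
        (fun n _ => by
          have hn : ‖g n * (starRingEnd ℂ) (h n)‖ ≤ G := by
            rw [norm_mul, RCLike.norm_conj, hh, mul_one]
            exact (g.norm_coe_le_norm n).trans hgG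
          have h4 := hcell _ hn
          have h5 : g n - b (lam n) * h n =
              (g n * (starRingEnd ℂ) (h n) - b (cell (g n * (starRingEnd ℂ) (h n)))) * h n := by
            have h6 : (starRingEnd ℂ) (h n) * h n = 1 := by
              rw [mul_comm, Complex.mul_conj, Complex.normSq_eq_norm_sq, hh]; simp
            rw [sub_mul, mul_assoc, h6, mul_one]
          rw [h5, norm_mul, hh, mul_one]
          exact h4) (fun n hn => hn.2) (x : L 1) hx
      refine h3.trans ?_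
      have t1 : G * ∑ i, ‖dv (Zc z) C lam h (x : L 1) i‖ ≤ δ / 8 := by
        have h4 : ∑ i, ‖dv (Zc z) C lam h (x : L 1) i‖ ≤ M * θ := by
          calc ∑ i, ‖dv (Zc z) C lam h (x : L 1) i‖ ≤ ∑ _i : ι, θ :=
                Finset.sum_le_sum fun i _ => (h1 i).le
            _ = M * θ := by simp [hM]
        calc G * ∑ i, ‖dv (Zc z) C lam h (x : L 1) i‖ ≤ G * (M * θ) := by gcongr
          _ = (δ / 8) * (M / (M + 1)) := by rw [hθ]; field_simp
          _ ≤ (δ / 8) * 1 := by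
              gcongr
              rw [div_le_one (by positivity)]; linarith
          _ = δ / 8 := mul_one _
      have t2 : G * ‖Tb oneB (rX C (x : L 1))‖ ≤ δ / 8 := by
        have h4 := norm_sum_pow_le hsym htri (rX C (x : L 1))
        have h5 := hdH2 (‖rX C (x : L 1)‖ / c) (nv adj C c (x : L 1)) (by positivity)
          (by gcongr; exact (norm_rX_le _ _).trans hx) (norm_nv_le hsym htri C hc _) h2
        have h6 : 4 * (‖rX C (x : L 1)‖ ^ 4 - ‖qf adj (rX C (x : L 1))‖ ^ 2) =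
            4 * c ^ 4 * ((‖rX C (x : L 1)‖ / c) ^ 4 - ‖nv adj C c (x : L 1)‖ ^ 2) := by
          unfold nv
          rw [norm_mul, norm_neg, norm_inv, norm_pow, Complex.norm_real,
            Real.norm_of_nonneg hc.le]
          field_simp
        have h7 : ‖Tb oneB (rX C (x : L 1))‖ ^ 4 < (δ / (8 * G)) ^ 4 := by
          calc _ ≤ 4 * (‖rX C (x : L 1)‖ ^ 4 - ‖qf adj (rX C (x : L 1))‖ ^ 2) := h4
            _ = _ := h6
            _ < _ := h5
        have h8 : ‖Tb oneB (rX C (x : L 1))‖ < δ / (8 * G) :=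
          lt_of_pow_lt_pow_left₀ 4 (by positivity) h7
        calc G * ‖Tb oneB (rX C (x : L 1))‖ ≤ G * (δ / (8 * G)) := by gcongr
          _ = δ / 8 := by field_simp
      have t3 : G * Vr (Zc z) C ≤ δ / 8 := by
        calc G * Vr (Zc z) C ≤ G * (δ / (8 * G)) := by
              gcongr
              linarith
          _ = δ / 8 := by field_simp
      have t4 : 3 * ε₁ ≤ δ / 8 := by rw [hε₁]; linarith
      linarith

/-- separation of the noise forms -/
lemma sep_noise (z : StrongDual ℂ (StrongDual ℂ (L 1))) {c : ℝ} (hc : 0 < c)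
    (hz : ‖z‖ = 1 - c) {adj : ℕ → ℕ → Prop} (hsym : ∀ n m, adj n m → adj m n)
    (htri : ∀ n m l, adj n m → adj m l → adj n l → False) (U : Ultrafilter ℕ)
    (hU : ∀ δ : ℝ, 0 < δ → ∃ C ∈ U, Vr (Zc z) C ≤ δ) {C₀ : Set ℕ} (hC₀ : C₀ ∈ U) {δ ε : ℝ}
    (hδ : 0 < δ) (hδC : 40 * Vr (Zc z) C₀ ≤ δ) (hε : 0 < ε) : ∃ f : Au (L 1),
      (∀ ψ : Spec (Au (L 1)), (∀ l, ψ (ofDual l) = z l) → CondN adj U (Zc z) c ψ →
        ‖ψ f - 1‖ ≤ ε) ∧ ‖f‖ ≤ 1 + ε ∧
      ∀ ψ : Spec (Au (L 1)), δ < ‖ψ (qA adj C₀) - (-(c : ℂ) ^ 2)‖ → ‖ψ f‖ ≤ ε := by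
  classical
  set ε' := min ε 1 with hε'
  have hε'0 : 0 < ε' := lt_min hε one_pos
  have hε'1 : ε' ≤ 1 := min_le_right _ _
  have hε'2 : ε' ≤ ε := min_le_left _ _
  obtain ⟨η, hη, htrans⟩ := transfer (qA adj C₀) (-(c : ℂ) ^ 2) hδ hε'0
  obtain ⟨dH, hdH, hdH2⟩ := H_sep_gen (T := 1 / c) (η := δ / 8)
    (fun q => 3 * c * |q.1 - 1| + c ^ 2 * ‖q.2 - 1‖) (by fun_prop) (by
      simp only [sub_self, abs_zero, mul_zero, norm_zero, add_zero]; positivity)
  obtain ⟨δ₂, hδ₂, hδ₂m, hpk⟩ := peak_exists z hc hz hsym htri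
    (show 0 < δ / 24 by positivity) hdH hη hε'0 (show 0 < δ / 24 by positivity)
  obtain ⟨C₁, hC₁U, hC₁⟩ := hU δ₂ hδ₂
  set C : Set ℕ := C₁ ∩ C₀ with hCdef
  have hCU : C ∈ U := inter_mem hC₁U hC₀
  have hCV : Vr (Zc z) C ≤ δ₂ := (Vr_mono _ inter_subset_left).trans hC₁
  have hCC₀ : C ⊆ C₀ := inter_subset_right
  obtain ⟨h, hh, hZh⟩ := exists_unimodular (Zc z) hδ₂
  set lam : ℕ → Bool := fun n => decide (n ∈ C₀) with hlam
  obtain ⟨f, hf1, hf2, hf3⟩ := hpk Bool inferInstance C lam h hCV hh hZh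
  refine ⟨f, ?_, ?_, ?_⟩
  · intro ψ hψ hψN
    refine (hf1 ψ hψ (hψN C hCU (40 * δ₂) (by positivity) (by linarith))).trans hε'2
  · exact norm_le_of_ev (by linarith) fun x => (hf2 x).trans (by linarith)
  · intro ψ hψ
    refine (htrans f (fun x => (hf2 x).trans (by linarith)) (fun x => ?_) ψ hψ).trans hε'2
    rcases hf3 x with h1 | ⟨h1, h2⟩
    · exact Or.inl h1
    · right
      have hx : ‖(x : L 1)‖ ≤ 1 := (mem_ball_zero_iff.mp x.2).le
      rw [ev_qA]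
      -- masses
      have hpart := norm_partition C lam (x : L 1)
      rw [Fintype.sum_bool] at hpart
      have hLt : ‖rX C₀ (x : L 1) - rX C (x : L 1)‖ = ‖rX {n | n ∉ C ∧ lam n = true} (x : L 1)‖ := by
        congr 1
        apply lp.ext
        funext n
        rw [lp.coeFn_sub, Pi.sub_apply, rX_apply, rX_apply, rX_apply]
        by_cases hn : n ∈ C
        · rw [indicator_of_mem (hCC₀ hn), indicator_of_mem hn, indicator_of_notMem
            (fun h' => h'.1 hn), sub_self]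
        · by_cases hn' : n ∈ C₀
          · rw [indicator_of_mem hn', indicator_of_notMem hn, sub_zero, indicator_of_mem]
            exact ⟨hn, by simp [hlam, hn']⟩
          · rw [indicator_of_notMem hn', indicator_of_notMem hn, sub_zero, indicator_of_notMem]
            rintro ⟨_, h4⟩
            simp [hlam, hn'] at h4
      -- the complementary mass
      have hdec : h = rB (Ls C lam false) h + rB C₀ h := by
        ext n
        have e : (rB (Ls C lam false) h + rB C₀ h) n = rB (Ls C lam false) h n + rB C₀ h n := rfl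
        rw [e]
        by_cases hn' : n ∈ C₀
        · rw [rB_mem h hn', rB_notMem h, zero_add]
          rintro ⟨_, h4⟩
          simp [hlam, hn'] at h4
        · rw [rB_notMem h hn', add_zero, rB_mem h]
          exact ⟨fun h4 => hn' (hCC₀ h4), by simp [hlam, hn']⟩
      have hZd : Zc z h = Zc z (rB (Ls C lam false) h) + Zc z (rB C₀ h) := by
        conv_lhs => rw [hdec]
        rw [map_add]
      have hh1 : ‖h‖ ≤ 1 := norm_Bd_le zero_le_one fun n => (hh n).le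
      have hZC₀ : ‖Zc z (rB C₀ h)‖ ≤ Vr (Zc z) C₀ := by
        refine (norm_Z_rB_le (Zc z) C₀ h).trans ?_
        have := Vr_nonneg (Zc z) C₀
        nlinarith
      have hZf : ‖Zc z‖ - δ₂ - Vr (Zc z) C₀ ≤ ‖Zc z (rB (Ls C lam false) h)‖ := by
        have h4 : ‖Zc z h‖ ≤ ‖Zc z (rB (Ls C lam false) h)‖ + ‖Zc z (rB C₀ h)‖ := by
          rw [hZd]; exact norm_add_le _ _
        linarith
      have hTf : ‖Zc z (rB (Ls C lam false) h)‖ - δ / 24 ≤ ‖rX (Ls C lam false) (x : L 1)‖ := by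
        have h4 : ‖Tb (rB (Ls C lam false) h) (x : L 1)‖ ≤ ‖rX (Ls C lam false) (x : L 1)‖ := by
          refine (norm_Tb_rB_le (Ls C lam false) h (x : L 1) (b := 1)
            (fun n _ => (hh n).le)).trans ?_
          rw [one_mul]
        have h5 := h1 false
        unfold dv at h5
        have h6 : ‖Zc z (rB (Ls C lam false) h)‖ ≤ ‖Tb (rB (Ls C lam false) h) (x : L 1)‖ +
            ‖Tb (rB (Ls C lam false) h) (x : L 1) - Zc z (rB (Ls C lam false) h)‖ := by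
          have h7 : Zc z (rB (Ls C lam false) h) = Tb (rB (Ls C lam false) h) (x : L 1) -
            (Tb (rB (Ls C lam false) h) (x : L 1) - Zc z (rB (Ls C lam false) h)) := by ring
          nth_rewrite 1 [h7]
          exact norm_sub_le _ _
        linarith
      have hLs : (Ls C lam false) = {n | n ∉ C ∧ lam n = false} := rfl
      rw [hLs] at hTf hZf
      have hm : ‖rX C₀ (x : L 1) - rX C (x : L 1)‖ ≤
          c - ‖rX C (x : L 1)‖ + δ₂ + Vr (Zc z) C₀ + δ / 24 := by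
        rw [hLt]
        rw [norm_Zc, hz] at hZf
        linarith
      have h3 := hdH2 (‖rX C (x : L 1)‖ / c) (nv adj C c (x : L 1)) (by positivity)
          (by gcongr; exact (norm_rX_le _ _).trans hx) (norm_nv_le hsym htri C hc _) h2
      simp only at h3
      have h4 : c - ‖rX C (x : L 1)‖ ≤ c * |‖rX C (x : L 1)‖ / c - 1| := by
        have h5 : c - ‖rX C (x : L 1)‖ = c * (1 - ‖rX C (x : L 1)‖ / c) := by field_simp
        rw [h5, abs_sub_comm]
        gcongr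
        exact le_abs_self _
      have h5 : qf adj (rX C (x : L 1)) - (-(c : ℂ) ^ 2) = -(c : ℂ) ^ 2 * (nv adj C c (x : L 1) - 1) := by
        unfold nv
        have hc2 : (c : ℂ) ^ 2 ≠ 0 := by
          apply pow_ne_zero; exact_mod_cast hc.ne'
        have h1 : (c : ℂ) ^ 2 * ((c : ℂ) ^ 2)⁻¹ = 1 := mul_inv_cancel₀ hc2
        linear_combination (-(qf adj (rX C (x : L 1)))) * h1
      have h6 : ‖qf adj (rX C (x : L 1)) - (-(c : ℂ) ^ 2)‖ = c ^ 2 * ‖nv adj C c (x : L 1) - 1‖ := by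
        rw [h5, norm_mul, norm_neg, norm_pow, Complex.norm_real, Real.norm_of_nonneg hc.le]
      have h7 := qf_diff adj (rX C₀ (x : L 1)) (rX C (x : L 1))
      have h8 : ‖rX C₀ (x : L 1)‖ + ‖rX C (x : L 1)‖ ≤ 2 := by
        have := (norm_rX_le C₀ (x : L 1)).trans hx
        have := (norm_rX_le C (x : L 1)).trans hx
        linarith
      have h9 : ‖qf adj (rX C₀ (x : L 1)) - qf adj (rX C (x : L 1))‖ ≤
          3 * ‖rX C₀ (x : L 1) - rX C (x : L 1)‖ := by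
        refine h7.trans ?_
        nlinarith [norm_nonneg (rX C₀ (x : L 1) - rX C (x : L 1))]
      have h10 : qf adj (rX C₀ (x : L 1)) - (-(c : ℂ) ^ 2) =
          (qf adj (rX C₀ (x : L 1)) - qf adj (rX C (x : L 1))) +
          (qf adj (rX C (x : L 1)) - (-(c : ℂ) ^ 2)) := by ring
      rw [h10]
      refine (norm_add_le _ _).trans ?_
      rw [h6]
      linarith

end

end Pool.Agent.Lib.MP_164614_an
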