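import Mathlib
import Pool.Agent.Lib.MP_164614_an.Main1

set_option autoImplicit false

namespace Pool.Agent.Lib.MP_164614_an

open Set Filter Topology Metric
open scoped ENNReal

noncomputable section

/-- finite partitions with small oscillation -/
lemma exists_partition (S : Finset Bd) {η : ℝ} (hη : 0 < η) :
    ∃ (ι : Type) (_ : Fintype ι) (lam : ℕ → ι), ∀ g ∈ S, ∀ n m, lam n = lam m → ‖g n - g m‖ ≤ η := by
  classical
  induction S using Finset.induction_on with
  | empty => exact ⟨Unit, inferInstance, fun _ => (), fun g hg => absurd hg (Finset.notMem_empty g)⟩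
  | insert g S hg ih =>
    obtain ⟨ι, hι, lam, hlam⟩ := ih
    obtain ⟨ι₁, hι₁, b, cell, _, hcell⟩ := exists_cells ‖g‖ (norm_nonneg _)
      (show 0 < η / 2 by positivity)
    refine ⟨ι × ι₁, inferInstance, fun n => (lam n, cell (g n)), fun g' hg' n m hnm => ?_⟩
    simp only [Prod.mk.injEq] at hnm
    rcases Finset.mem_insert.mp hg' with rfl | h'
    · have h1 := hcell (g' n) (g'.norm_coe_le_norm n)
      have h2 := hcell (g' m) (g'.norm_coe_le_norm m)
      rw [hnm.2] at h1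
      have e : g' n - g' m = (g' n - b (cell (g' m))) - (g' m - b (cell (g' m))) := by ring
      rw [e]
      refine (norm_sub_le _ _).trans ?_
      linarith
    · exact hlam g' h' n m hnm.1

lemma sum_norm_le_Vr (Z : Bd →L[ℂ] ℂ) {ι : Type} [Fintype ι] (lam : ℕ → ι) (C : Set ℕ)
    (I : Finset ι) (hI : ∀ i ∈ I, {n | lam n = i} ⊆ C) :
    ∑ i ∈ I, ‖Z (rB {n | lam n = i} oneB)‖ ≤ Vr Z C := by
  classical
  set g : Bd := ∑ i ∈ I, ph (Z (rB {n | lam n = i} oneB)) • rB {n | lam n = i} oneB with hg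
  have hgv : ∀ n, g n = if lam n ∈ I then ph (Z (rB {m | lam m = lam n} oneB)) else 0 := by
    intro n
    rw [hg, BoundedContinuousFunction.sum_apply]
    split_ifs with h
    · rw [Finset.sum_eq_single (lam n)]
      · rw [BoundedContinuousFunction.smul_apply,
          rB_mem oneB (show n ∈ {m | lam m = lam n} from rfl)]
        change _ • (1 : ℂ) = _
        rw [smul_eq_mul, mul_one]
      · intro i _ hi
        rw [BoundedContinuousFunction.smul_apply, rB_notMem oneB (fun h' => hi h'.symm), smul_zero]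
      · intro h'
        exact absurd h h'
    · refine Finset.sum_eq_zero fun i hi => ?_
      rw [BoundedContinuousFunction.smul_apply, rB_notMem oneB, smul_zero]
      intro h'
      have h'' : lam n = i := h'
      rw [h''] at h
      exact h hi
  have hgn : ‖g‖ ≤ 1 := by
    refine norm_Bd_le zero_le_one fun n => ?_
    rw [hgv]
    split_ifs
    · rw [norm_ph]
    · rw [norm_zero]; exact zero_le_one
  have hgC : rB C g = g := by
    ext n
    by_cases hn : n ∈ C
    · rw [rB_mem g hn]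
    · rw [rB_notMem g hn, hgv, if_neg]
      intro h
      exact hn (hI _ h rfl)
  have hZ : Z g = ((∑ i ∈ I, ‖Z (rB {n | lam n = i} oneB)‖ : ℝ) : ℂ) := by
    rw [hg, map_sum]
    push_cast
    refine Finset.sum_congr rfl fun i _ => ?_
    rw [map_smul, smul_eq_mul, ph_mul]
  have h1 := norm_Z_rB_le Z C g
  rw [hgC, hZ, Complex.norm_real, Real.norm_of_nonneg
    (Finset.sum_nonneg fun i _ => norm_nonneg _)] at h1
  have h2 := Vr_nonneg Z C
  nlinarith

lemma rX_single_mem {C : Set ℕ} {n : ℕ} (hn : n ∈ C) :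
    rX C (lp.single 1 n (1 : ℂ)) = lp.single 1 n (1 : ℂ) := by
  apply lp.ext
  funext m
  rw [rX_apply]
  by_cases hm : m ∈ C
  · rw [indicator_of_mem hm]
  · rw [indicator_of_notMem hm, lp.single_apply_ne 1 n _ (by rintro rfl; exact hm hn)]

lemma rX_single_notMem {C : Set ℕ} {n : ℕ} (hn : n ∉ C) :
    rX C (lp.single 1 n (1 : ℂ)) = 0 := by
  apply lp.ext
  funext m
  rw [rX_apply]
  by_cases hm : m ∈ C
  · rw [indicator_of_mem hm, lp.single_apply_ne 1 n _ (by rintro rfl; exact hn hm)]; rfl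
  · rw [indicator_of_notMem hm]; rfl

lemma Tb_single (g : Bd) (n : ℕ) : Tb g (lp.single 1 n (1 : ℂ)) = g n := by
  rw [Tb_apply, tsum_eq_single n]
  · rw [lp.single_apply_self, mul_one]
  · intro m hm
    rw [lp.single_apply_ne 1 n _ hm, mul_zero]

/-- approximate representation of a functional on bounded sequences by a point of the ball -/
lemma approx_point (Z : Bd →L[ℂ] ℂ) (S : Finset Bd) {η : ℝ} (hη : 0 < η)
    (Cs : Finset (Set ℕ)) : ∃ y : L 1, ‖y‖ ≤ ‖Z‖ ∧ (∀ g ∈ S, ‖Tb g y - Z g‖ ≤ ‖Z‖ * η) ∧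
      ∀ C ∈ Cs, ‖rX C y‖ ≤ Vr Z C := by
  classical
  obtain ⟨ι, hι, lam, hlam⟩ := exists_partition (S ∪ Cs.image fun C => rB C oneB)
    (show 0 < min η (1 / 2) from lt_min hη (by norm_num))
  have hex : ∀ i : ι, ∃ n, (∃ m, lam m = i) → lam n = i := by
    intro i
    by_cases h : ∃ m, lam m = i
    · obtain ⟨m, hm⟩ := h
      exact ⟨m, fun _ => hm⟩
    · exact ⟨0, fun h' => absurd h' h⟩
  choose rep hrep using hex
  have hrep' : ∀ n, lam (rep (lam n)) = lam n := fun n => hrep (lam n) ⟨n, rfl⟩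
  set P : ι → Set ℕ := fun i => {n | lam n = i} with hP
  set y : L 1 := ∑ i, Z (rB (P i) oneB) • (lp.single 1 (rep i) (1 : ℂ) : L 1) with hy
  have hmass : ∀ C : Set ℕ, (∀ n m, lam n = lam m → n ∈ C → m ∈ C) → ‖rX C y‖ ≤ Vr Z C := by
    intro C hC
    rw [hy, map_sum]
    have h1 : ∀ i ∈ (Finset.univ : Finset ι), ‖rX C (Z (rB (P i) oneB) •
        (lp.single 1 (rep i) (1 : ℂ) : L 1))‖ ≤
        if P i ⊆ C then ‖Z (rB (P i) oneB)‖ else 0 := by
      intro i _
      rw [map_smul, norm_smul]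
      split_ifs with h
      · have h2 : ‖rX C (lp.single 1 (rep i) (1 : ℂ) : L 1)‖ ≤ 1 := by
          refine (norm_rX_le _ _).trans ?_
          rw [lp.norm_single one_pos, norm_one]
        calc _ ≤ ‖Z (rB (P i) oneB)‖ * 1 := by gcongr
          _ = _ := mul_one _
      · rw [rX_single_notMem, norm_zero, mul_zero]
        intro hr
        apply h
        intro n hn
        have hn' : lam n = i := hn
        have h3 : lam (rep i) = lam n := by rw [← hn']; exact hrep' n
        exact hC _ _ h3 hr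
    refine (norm_sum_le _ _).trans ((Finset.sum_le_sum h1).trans ?_)
    rw [← Finset.sum_filter]
    exact sum_norm_le_Vr Z lam C _ fun i hi => (Finset.mem_filter.mp hi).2
  refine ⟨y, ?_, ?_, ?_⟩
  · have h1 := hmass univ fun _ _ _ _ => mem_univ _
    rw [Vr_univ] at h1
    have h2 : rX univ y = y := by
      apply lp.ext
      funext n
      rw [rX_apply, indicator_univ]
    rwa [h2] at h1
  · intro g hg
    set G' : Bd := ∑ i, g (rep i) • rB (P i) oneB with hG'
    have hG'v : ∀ n, G' n = g (rep (lam n)) := by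
      intro n
      rw [hG', BoundedContinuousFunction.sum_apply, Finset.sum_eq_single (lam n)]
      · rw [BoundedContinuousFunction.smul_apply,
          rB_mem oneB (show n ∈ P (lam n) from rfl)]
        change _ • (1 : ℂ) = _
        rw [smul_eq_mul, mul_one]
      · intro i _ hi
        rw [BoundedContinuousFunction.smul_apply,
          rB_notMem oneB (fun h' : n ∈ P i => hi (show lam n = i from h').symm), smul_zero]
      · intro h'
        exact absurd (Finset.mem_univ _) h'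
    have e1 : Tb g y = Z G' := by
      rw [hy, map_sum, hG', map_sum]
      refine Finset.sum_congr rfl fun i _ => ?_
      rw [map_smul, map_smul, Tb_single, smul_eq_mul, smul_eq_mul, mul_comm]
    rw [e1, ← map_sub]
    refine (Z.le_opNorm _).trans ?_
    gcongr
    refine norm_Bd_le hη.le fun n => ?_
    have : (G' - g) n = G' n - g n := rfl
    rw [this, hG'v]
    exact (hlam g (Finset.mem_union_left _ hg) _ _ (hrep' n)).trans (min_le_left _ _)
  · intro C hC
    refine hmass C fun n m hnm hn => ?_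
    by_contra hm
    have h1 := hlam (rB C oneB) (Finset.mem_union_right _ (Finset.mem_image_of_mem _ hC)) n m hnm
    rw [rB_mem oneB hn, rB_notMem oneB hm, sub_zero] at h1
    have h2 : ‖oneB n‖ = 1 := by
      change ‖(1 : ℂ)‖ = 1
      exact norm_one
    rw [h2] at h1
    have h3 := h1.trans (min_le_right _ _)
    norm_num at h3

/-- points of the closed ball realising all conditions approximately -/
lemma nonempty_points (z : StrongDual ℂ (StrongDual ℂ (L 1))) {c : ℝ} (hc : 0 < c)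
    (hz : ‖z‖ = 1 - c) {adj : ℕ → ℕ → Prop} (hsym : ∀ n m, adj n m → adj m n)
    (hirr : ∀ n, ¬ adj n n) (U : Ultrafilter ℕ)
    (hedge : ∀ C ∈ U, ∃ n ∈ C, ∃ m ∈ C, adj n m) (S : Finset Bd) {η : ℝ} (hη : 0 < η)
    (Cs : Finset (Set ℕ)) (hCs : ∀ C ∈ Cs, C ∈ U) :
    ∃ x : L 1, ‖x‖ ≤ 1 ∧ (∀ g ∈ S, ‖Tb g x - Zc z g‖ ≤ 2 * η) ∧
      ∀ C ∈ Cs, ‖qf adj (rXc C x) - (-(c : ℂ) ^ 2)‖ ≤ 3 * Vr (Zc z) C := by
  classical
  have hc1 : c ≤ 1 := by
    have := norm_nonneg z
    linarith
  have hZn : ‖Zc z‖ = 1 - c := by rw [norm_Zc, hz]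
  obtain ⟨y, hy1, hy2, hy3⟩ := approx_point (Zc z) S hη Cs
  choose a ha hau using fun g : Bd => exists_ulim U g
  have hS : (⋂ g ∈ S, {n | ‖g n - a g‖ ≤ η}) ∈ (U : Filter ℕ) :=
    (Filter.biInter_finset_mem S).mpr fun g _ => hau g η hη
  have hC : (⋂ C ∈ Cs, C) ∈ (U : Filter ℕ) :=
    (Filter.biInter_finset_mem Cs).mpr fun C hC => hCs C hC
  obtain ⟨n, hn, m, hm, hnm⟩ := hedge _ (inter_mem hS hC)
  set v : L 1 := ((c : ℂ) / 2) • (lp.single 1 n (1 : ℂ) - lp.single 1 m (1 : ℂ)) with hv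
  have hvn : ‖v‖ ≤ c := by
    rw [hv, norm_smul, norm_div, Complex.norm_real, Real.norm_of_nonneg hc.le]
    have h1 : ‖(lp.single 1 n (1 : ℂ) : L 1) - lp.single 1 m (1 : ℂ)‖ ≤ 2 := by
      refine (norm_sub_le _ _).trans ?_
      rw [lp.norm_single one_pos, lp.norm_single one_pos, norm_one]; norm_num
    have h2 : ‖(2 : ℂ)‖ = 2 := by norm_num
    rw [h2]
    nlinarith
  refine ⟨y + v, ?_, ?_, ?_⟩
  · refine (norm_add_le _ _).trans ?_
    rw [hZn] at hy1
    linarith
  · intro g hg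
    have h1 := hy2 g hg
    have hn1 : ‖g n - a g‖ ≤ η := by
      have h2 := hn.1
      simp only [mem_iInter] at h2
      exact h2 g hg
    have hm1 : ‖g m - a g‖ ≤ η := by
      have h2 := hm.1
      simp only [mem_iInter] at h2
      exact h2 g hg
    have hTv : Tb g v = ((c : ℂ) / 2) * ((g n - a g) - (g m - a g)) := by
      rw [hv, map_smul, map_sub, Tb_single, Tb_single, smul_eq_mul]; ring
    have hTvn : ‖Tb g v‖ ≤ c * η := by
      rw [hTv, norm_mul, norm_div, Complex.norm_real, Real.norm_of_nonneg hc.le]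
      have h2 : ‖(2 : ℂ)‖ = 2 := by norm_num
      have h3 := norm_sub_le (g n - a g) (g m - a g)
      rw [h2]
      nlinarith
    have e : Tb g (y + v) - Zc z g = (Tb g y - Zc z g) + Tb g v := by rw [map_add]; ring
    rw [e]
    refine (norm_add_le _ _).trans ?_
    rw [hZn] at h1
    nlinarith
  · intro C hC
    have hnC : n ∈ C := by
      have h2 := hn.2
      simp only [mem_iInter] at h2
      exact h2 C hC
    have hmC : m ∈ C := by
      have h2 := hm.2
      simp only [mem_iInter] at h2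
      exact h2 C hC
    have hrv : rX C v = v := by
      rw [hv, map_smul, map_sub, rX_single_mem hnC, rX_single_mem hmC]
    have hqv : qf adj v = -(c : ℂ) ^ 2 := qf_edge hsym hirr hnm c
    have h1 := qf_diff adj (rX C (y + v)) v
    rw [hqv] at h1
    have h2 : rX C (y + v) - v = rX C y := by rw [map_add, hrv]; abel
    rw [h2] at h1
    refine h1.trans ?_
    have h3 := hy3 C hC
    have h4 : ‖rX C (y + v)‖ ≤ 1 := by
      refine (norm_rX_le _ _).trans ((norm_add_le _ _).trans ?_)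
      rw [hZn] at hy1
      linarith
    have h5 := norm_nonneg (rX C y)
    nlinarith

/-- points in the open ball near a point of the closed ball, with individual tolerances -/
lemma exists_ball_near' {X : Type*} [NormedAddCommGroup X] [NormedSpace ℂ X] {ι : Type*}
    (G : ι → X → ℂ) (hG : ∀ i, Continuous (G i)) (t : ι → ℂ) (s : Finset ι) (η : ι → ℝ) (y : X)
    (hy : ‖y‖ ≤ 1) (h : ∀ i ∈ s, ‖G i y - t i‖ < η i) :
    ∃ x : ball (0 : X) 1, ∀ i ∈ s, ‖G i x - t i‖ < η i := by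
  have h1 : ∀ᶠ θ : ℝ in 𝓝[<] 1, ∀ i ∈ s, ‖G i ((θ : ℂ) • y) - t i‖ < η i := by
    rw [eventually_all_finset]
    intro i hi
    have hc : Continuous fun θ : ℝ => ‖G i ((θ : ℂ) • y) - t i‖ :=
      (((hG i).comp (Complex.continuous_ofReal.smul continuous_const)).sub continuous_const).norm
    have h2 : Tendsto (fun θ : ℝ => ‖G i ((θ : ℂ) • y) - t i‖) (𝓝[<] 1)
        (𝓝 ‖G i (((1 : ℝ) : ℂ) • y) - t i‖) := (hc.tendsto 1).mono_left nhdsWithin_le_nhds
    rw [Complex.ofReal_one, one_smul] at h2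
    exact h2.eventually (eventually_lt_nhds (h i hi))
  have h2 : ∀ᶠ θ : ℝ in 𝓝[<] 1, 0 < θ ∧ θ < 1 := by
    filter_upwards [Ioo_mem_nhdsLT (zero_lt_one : (0 : ℝ) < 1)] with θ hθ
    exact ⟨hθ.1, hθ.2⟩
  obtain ⟨θ, h3, h4, h5⟩ := (h1.and h2).exists
  refine ⟨⟨(θ : ℂ) • y, ?_⟩, h3⟩
  rw [mem_ball_zero_iff, norm_smul, Complex.norm_real, Real.norm_of_nonneg h4.le]
  nlinarith [norm_nonneg y]

lemma exists_pos_lower {J : Type*} (s : Finset J) (δ : J → ℝ) (h : ∀ i, 0 < δ i) :
    ∃ η : ℝ, 0 < η ∧ ∀ i ∈ s, η ≤ δ i := by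
  classical
  induction s using Finset.induction_on with
  | empty => exact ⟨1, one_pos, fun i hi => absurd hi (Finset.notMem_empty i)⟩
  | insert a s _ ih =>
    obtain ⟨η, hη, hs⟩ := ih
    refine ⟨min η (δ a), lt_min hη (h a), fun i hi => ?_⟩
    rcases Finset.mem_insert.mp hi with rfl | hi'
    · exact min_le_right _ _
    · exact (min_le_left _ _).trans (hs i hi')

/-- separation of functionals over the unit sphere of the bidual -/
lemma sep_func0 (z : StrongDual ℂ (StrongDual ℂ (L 1))) (hz : ‖z‖ = 1)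
    (l : StrongDual ℂ (L 1)) {δ ε : ℝ} (hδ : 0 < δ) (hε : 0 < ε) : ∃ f : Au (L 1),
      (∀ ψ : Spec (Au (L 1)), (∀ l, ψ (ofDual l) = z l) → ‖ψ f - 1‖ ≤ ε) ∧ ‖f‖ ≤ 1 + ε ∧
      ∀ ψ : Spec (Au (L 1)), δ < ‖ψ (ofDual l) - z l‖ → ‖ψ f‖ ≤ ε := by
  obtain ⟨g, hg, _⟩ := exists_Tb l
  set ε' := min ε 1 with hε'
  have hε'0 : 0 < ε' := lt_min hε one_pos
  have hε'1 : ε' ≤ 1 := min_le_right _ _
  have hε'2 : ε' ≤ ε := min_le_left _ _
  set G : ℝ := ‖g‖ + 1 with hG
  have hG0 : 0 < G := by positivity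
  have hgG : ‖g‖ ≤ G := by linarith
  obtain ⟨η, hη, htrans⟩ := transfer (ofDual l) (z l) hδ hε'0
  set ε₁ : ℝ := δ / 32 with hε₁
  have hε₁0 : 0 < ε₁ := by positivity
  obtain ⟨ι, hι, b, cell, hb, hcell⟩ := exists_cells G hG0.le hε₁0
  set M : ℝ := (Fintype.card ι : ℝ) with hM
  have hM0 : 0 ≤ M := Nat.cast_nonneg _
  set θ : ℝ := δ / (8 * G * (M + 1)) with hθ
  have hθ0 : 0 < θ := by positivity
  obtain ⟨K, hK0, hK⟩ : ∃ K : ℝ, 0 ≤ K ∧ 1 - Real.log η ≤ K * θ ^ 2 := by
    refine ⟨max 0 ((1 - Real.log η) / θ ^ 2), le_max_left _ _, ?_⟩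
    rw [← div_le_iff₀ (by positivity)]
    exact le_max_right _ _
  set lg := Real.log (1 + ε') with hlg
  have hlg0 : 0 < lg := Real.log_pos (by linarith)
  set δ₂ : ℝ := min lg 1 / (4 * (K + 1)) with hδ₂
  have hδ₂0 : 0 < δ₂ := by
    have : 0 < min lg 1 := lt_min hlg0 one_pos
    positivity
  have h4 : 4 * K * δ₂ ≤ min lg 1 := by
    have h5 : δ₂ * (4 * (K + 1)) = min lg 1 := by rw [hδ₂]; field_simp
    nlinarith
  obtain ⟨h, hh, hZh⟩ := exists_unimodular (Zc z) hδ₂0
  have hZn : ‖Zc z‖ = 1 := by rw [norm_Zc, hz]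
  set lam : ℕ → ι := fun n => cell (g n * (starRingEnd ℂ) (h n)) with hlam
  have hV0 : Vr (Zc z) ∅ = 0 := by
    refine le_antisymm ?_ (Vr_nonneg _ _)
    refine ContinuousLinearMap.opNorm_le_bound _ le_rfl fun u => ?_
    rw [ContinuousLinearMap.comp_apply]
    have : rB ∅ u = 0 := by
      ext n
      rw [rB_notMem u (Set.notMem_empty n)]; rfl
    rw [this, map_zero, norm_zero, zero_mul]
  have hbound : ∀ x : ball (0 : L 1) 1, ‖ev x (EA (Zc z) ∅ lam h K)‖ ≤
      Real.exp (4 * K * δ₂ - K * ∑ i, ‖dv (Zc z) ∅ lam h (x : L 1) i‖ ^ 2) := by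
    intro x
    refine (norm_EA_le (Zc z) ∅ lam hh hK0 x).trans ?_
    rw [Real.exp_le_exp, hV0]
    have h5 : 4 * K * (1 - ‖rX ∅ (x : L 1)‖ - ‖Zc z h‖ + 0) ≤ 4 * K * δ₂ := by
      apply mul_le_mul_of_nonneg_left _ (by positivity)
      have := norm_nonneg (rX ∅ (x : L 1))
      linarith
    linarith
  have hf2 : ∀ x : ball (0 : L 1) 1, ‖ev x (EA (Zc z) ∅ lam h K)‖ ≤ 1 + ε' := by
    intro x
    refine (hbound x).trans ?_
    have h5 : 0 ≤ K * ∑ i, ‖dv (Zc z) ∅ lam h (x : L 1) i‖ ^ 2 :=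
      mul_nonneg hK0 (Finset.sum_nonneg fun i _ => by positivity)
    have h6 := h4.trans (min_le_left _ _)
    calc _ ≤ Real.exp lg := by rw [Real.exp_le_exp]; linarith
      _ = 1 + ε' := Real.exp_log (by linarith)
  refine ⟨EA (Zc z) ∅ lam h K, ?_, ?_, ?_⟩
  · intro ψ hψ
    rw [spec_EA_eq_one z ∅ lam h K ψ hψ, sub_self, norm_zero]
    exact hε.le
  · exact norm_le_of_ev (by linarith) fun x => (hf2 x).trans (by linarith)
  · intro ψ hψ
    refine (htrans _ (fun x => (hf2 x).trans (by linarith)) (fun x => ?_) ψ hψ).trans hε'2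
    by_cases hd : ∀ i, ‖dv (Zc z) ∅ lam h (x : L 1) i‖ < θ
    · right
      have hx : ‖(x : L 1)‖ ≤ 1 := (mem_ball_zero_iff.mp x.2).le
      rw [ev_ofDual, ← hg]
      change ‖Tb g (x : L 1) - Zc z g‖ ≤ δ / 2
      have h3 := func_sep (Zc z) hZn.le ∅ lam (h := h) g b 0 hε₁0.le hgG hb
        (by rw [norm_zero]; exact hG0.le)
        (fun n _ => by
          have hn : ‖g n * (starRingEnd ℂ) (h n)‖ ≤ G := by
            rw [norm_mul, RCLike.norm_conj, hh, mul_one]
            exact (g.norm_coe_le_norm n).trans hgG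
          have h4 := hcell _ hn
          have h5 : g n - b (lam n) * h n =
              (g n * (starRingEnd ℂ) (h n) - b (cell (g n * (starRingEnd ℂ) (h n)))) * h n := by
            have h6 : (starRingEnd ℂ) (h n) * h n = 1 := by
              rw [mul_comm, Complex.mul_conj, Complex.normSq_eq_norm_sq, hh]; simp
            rw [sub_mul, mul_assoc, h6, mul_one]
          rw [h5, norm_mul, hh, mul_one]
          exact h4) (fun n hn => absurd hn (Set.notMem_empty n)) (x : L 1) hx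
      refine h3.trans ?_
      have t1 : G * ∑ i, ‖dv (Zc z) ∅ lam h (x : L 1) i‖ ≤ δ / 8 := by
        have h4 : ∑ i, ‖dv (Zc z) ∅ lam h (x : L 1) i‖ ≤ M * θ := by
          calc ∑ i, ‖dv (Zc z) ∅ lam h (x : L 1) i‖ ≤ ∑ _i : ι, θ :=
                Finset.sum_le_sum fun i _ => (hd i).le
            _ = M * θ := by simp [hM]
        calc G * ∑ i, ‖dv (Zc z) ∅ lam h (x : L 1) i‖ ≤ G * (M * θ) := by gcongr
          _ = (δ / 8) * (M / (M + 1)) := by rw [hθ]; field_simp
          _ ≤ (δ / 8) * 1 := by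
              gcongr
              rw [div_le_one (by positivity)]; linarith
          _ = δ / 8 := mul_one _
      have t2 : rX ∅ (x : L 1) = 0 := by
        apply lp.ext
        funext n
        rw [rX_apply, indicator_empty]; rfl
      rw [t2, map_zero, norm_zero, mul_zero, hV0, mul_zero]
      have t4 : 3 * ε₁ ≤ δ / 8 := by rw [hε₁]; linarith
      linarith
    · left
      push Not at hd
      obtain ⟨i, hi⟩ := hd
      refine (hbound x).trans ?_
      have h3 : θ ^ 2 ≤ ∑ i, ‖dv (Zc z) ∅ lam h (x : L 1) i‖ ^ 2 := by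
        refine le_trans (pow_le_pow_left₀ hθ0.le hi 2) ?_
        exact Finset.single_le_sum (f := fun i => ‖dv (Zc z) ∅ lam h (x : L 1) i‖ ^ 2)
          (fun i _ => by positivity) (Finset.mem_univ i)
      have h5 := mul_le_mul_of_nonneg_left h3 hK0
      have h6 := h4.trans (min_le_right _ _)
      calc _ ≤ Real.exp (Real.log η) := by rw [Real.exp_le_exp]; linarith
        _ = η := Real.exp_log hη

/-- the case of the unit sphere of the bidual -/
theorem strong_boundary_sphere (z : StrongDual ℂ (StrongDual ℂ (L 1))) (hz : ‖z‖ = 1) :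
    ∃ φ ∈ fiber z, StrongBoundary φ := by
  classical
  have hpre := pre_of_values (A := Au (L 1)) Au_norm_one
    (ι := StrongDual ℂ (L 1) × {δ : ℝ // 0 < δ})
    (fun q => ofDual q.1) (fun q => z q.1) (fun q => (q.2 : ℝ)) (by
      intro s
      obtain ⟨η, hη, hs⟩ := exists_pos_lower s (fun q => (q.2 : ℝ)) (fun q => q.2.2)
      choose gg hgg _ using fun l : StrongDual ℂ (L 1) => exists_Tb l
      obtain ⟨y, hy1, hy2, _⟩ := approx_point (Zc z) (s.image fun q => gg q.1)
        (show 0 < η / 2 by positivity) ∅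
      have hZn : ‖Zc z‖ = 1 := by rw [norm_Zc, hz]
      obtain ⟨x, hx⟩ := exists_ball_near' (fun (q : StrongDual ℂ (L 1) × {δ : ℝ // 0 < δ})
        (x : L 1) => q.1 x) (fun q => q.1.continuous) (fun q => z q.1) s (fun q => (q.2 : ℝ)) y
        (by rw [hZn] at hy1; exact hy1) (fun q hq => by
          have h1 := hy2 (gg q.1) (Finset.mem_image_of_mem (fun q => gg q.1) hq)
          rw [hgg, Zc_apply, hgg, hZn] at h1
          have h2 := hs q hq
          linarith)
      exact ⟨ev x, fun q hq => (hx q hq).le⟩) (by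
      intro q ε hε
      obtain ⟨f, hf1, hf2, hf3⟩ := sep_func0 z hz q.1 q.2.2 hε
      refine ⟨f, fun ψ hψ => hf1 ψ fun l => ?_, hf2, hf3⟩
      refine sub_eq_zero.mp ?_
      rw [← norm_le_zero_iff]
      refine le_of_forall_pos_le_add fun δ hδ => ?_
      rw [zero_add]
      exact hψ (l, ⟨δ, hδ⟩))
  obtain ⟨φ, hφ, hsb⟩ := hpre.exists_strongBoundary Au_norm_one Au_norm_le
  refine ⟨φ, fun l => ?_, hsb⟩
  refine sub_eq_zero.mp ?_
  rw [← norm_le_zero_iff]
  refine le_of_forall_pos_le_add fun δ hδ => ?_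
  rw [zero_add]
  exact hφ (l, ⟨δ, hδ⟩)

/-- index set of the conditions -/
abbrev JJ (U : Ultrafilter ℕ) (Z : Bd →L[ℂ] ℂ) : Type :=
  (StrongDual ℂ (L 1) × {δ : ℝ // 0 < δ}) ⊕
    {q : Set ℕ × ℝ // q.1 ∈ U ∧ 0 < q.2 ∧ 40 * Vr Z q.1 ≤ q.2}

/-- generators -/
def gJ (adj : ℕ → ℕ → Prop) (U : Ultrafilter ℕ) (Z : Bd →L[ℂ] ℂ) : JJ U Z → Au (L 1)
  | Sum.inl q => ofDual q.1
  | Sum.inr q => qA adj q.1.1

/-- target values -/
def tJ (z : StrongDual ℂ (StrongDual ℂ (L 1))) (U : Ultrafilter ℕ) (c : ℝ) : JJ U (Zc z) → ℂ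
  | Sum.inl q => z q.1
  | Sum.inr _ => -(c : ℂ) ^ 2

/-- tolerances -/
def dJ (U : Ultrafilter ℕ) (Z : Bd →L[ℂ] ℂ) : JJ U Z → ℝ
  | Sum.inl q => q.2
  | Sum.inr q => q.1.2

/-- generators as functions -/
def GJ (adj : ℕ → ℕ → Prop) (U : Ultrafilter ℕ) (Z : Bd →L[ℂ] ℂ) : JJ U Z → L 1 → ℂ
  | Sum.inl q => fun x => q.1 x
  | Sum.inr q => fun x => qf adj (rXc q.1.1 x)

lemma ev_gJ (adj : ℕ → ℕ → Prop) (U : Ultrafilter ℕ) (Z : Bd →L[ℂ] ℂ) (i : JJ U Z)
    (x : ball (0 : L 1) 1) : ev x (gJ adj U Z i) = GJ adj U Z i (x : L 1) := by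
  rcases i with q | q <;> rfl

lemma continuous_GJ (adj : ℕ → ℕ → Prop) (U : Ultrafilter ℕ) (Z : Bd →L[ℂ] ℂ) (i : JJ U Z) :
    Continuous (GJ adj U Z i) := by
  rcases i with q | q
  · exact q.1.continuous
  · exact (qf_differentiable adj).continuous.comp (rXc q.1.1).continuous

lemma dJ_pos (U : Ultrafilter ℕ) (Z : Bd →L[ℂ] ℂ) (i : JJ U Z) : 0 < dJ U Z i := by
  rcases i with q | q
  · exact q.2.2
  · exact q.2.2.1

lemma cond_of_JJ (z : StrongDual ℂ (StrongDual ℂ (L 1))) (adj : ℕ → ℕ → Prop) (U : Ultrafilter ℕ)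
    (c : ℝ) (ψ : Spec (Au (L 1)))
    (h : ∀ j, ‖ψ (gJ adj U (Zc z) j) - tJ z U c j‖ ≤ dJ U (Zc z) j) :
    (∀ l, ψ (ofDual l) = z l) ∧ CondN adj U (Zc z) c ψ := by
  constructor
  · intro l
    refine sub_eq_zero.mp ?_
    rw [← norm_le_zero_iff]
    refine le_of_forall_pos_le_add fun δ hδ => ?_
    rw [zero_add]
    exact h (Sum.inl (l, ⟨δ, hδ⟩))
  · intro C hC δ hδ hδC
    exact h (Sum.inr ⟨(C, δ), hC, hδ, hδC⟩)

/-- all fibers for `p = 1` -/
theorem strong_boundary_one (z : StrongDual ℂ (StrongDual ℂ (L 1))) (hz : ‖z‖ ≤ 1) :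
    ∃ φ ∈ fiber z, StrongBoundary φ := by
  classical
  rcases eq_or_lt_of_le hz with h1 | h1
  · exact strong_boundary_sphere z h1
  · set c : ℝ := 1 - ‖z‖ with hc
    have hc0 : 0 < c := by linarith
    have hzc : ‖z‖ = 1 - c := by rw [hc]; ring
    obtain ⟨adj, U, hsym, hirr, htri, hedge, hU⟩ := exists_graph (Zc z)
    have hpre := pre_of_values (A := Au (L 1)) Au_norm_one (gJ adj U (Zc z)) (tJ z U c)
      (dJ U (Zc z)) (by
        intro s
        obtain ⟨η, hη, hs⟩ := exists_pos_lower s (dJ U (Zc z)) (dJ_pos U (Zc z))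
        choose gg hgg _ using fun l : StrongDual ℂ (L 1) => exists_Tb l
        set S : Finset Bd := s.image fun i => match i with
          | Sum.inl q => gg q.1
          | Sum.inr _ => 0 with hS
        set Cs : Finset (Set ℕ) := s.image fun i => match i with
          | Sum.inl _ => univ
          | Sum.inr q => q.1.1 with hCs
        obtain ⟨y, hy1, hy2, hy3⟩ := nonempty_points z hc0 hzc hsym hirr U hedge S
          (show 0 < η / 4 by positivity) Cs (by
            intro C hC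
            obtain ⟨i, hi, rfl⟩ := Finset.mem_image.mp hC
            rcases i with q | q
            · exact univ_mem
            · exact q.2.1)
        obtain ⟨x, hx⟩ := exists_ball_near' (GJ adj U (Zc z)) (continuous_GJ adj U (Zc z))
          (tJ z U c) s (dJ U (Zc z)) y hy1 (fun i hi => by
            rcases i with q | q
            · have h2 := hy2 (gg q.1) (Finset.mem_image.mpr ⟨Sum.inl q, hi, rfl⟩)
              rw [hgg, Zc_apply, hgg] at h2
              have h3 := hs _ hi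
              have h4 : ‖GJ adj U (Zc z) (Sum.inl q) y - tJ z U c (Sum.inl q)‖ =
                ‖q.1 y - z q.1‖ := rfl
              rw [h4]
              linarith
            · have h2 := hy3 q.1.1 (Finset.mem_image.mpr ⟨Sum.inr q, hi, rfl⟩)
              have h3 := q.2.2.2
              have h5 := q.2.2.1
              have h4 : ‖GJ adj U (Zc z) (Sum.inr q) y - tJ z U c (Sum.inr q)‖ =
                ‖qf adj (rXc q.1.1 y) - (-(c : ℂ) ^ 2)‖ := rfl
              have h6 : dJ U (Zc z) (Sum.inr q) = q.1.2 := rfl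
              rw [h4, h6]
              linarith)
        exact ⟨ev x, fun i hi => by rw [ev_gJ]; exact (hx i hi).le⟩) (by
        intro i ε hε
        rcases i with q | q
        · obtain ⟨f, hf1, hf2, hf3⟩ := sep_func z hc0 hzc hsym htri U hU q.1 q.2.2 hε
          refine ⟨f, fun ψ hψ => ?_, hf2, hf3⟩
          obtain ⟨h2, h3⟩ := cond_of_JJ z adj U c ψ hψ
          exact hf1 ψ h2 h3
        · obtain ⟨f, hf1, hf2, hf3⟩ := sep_noise z hc0 hzc hsym htri U hU q.2.1 q.2.2.1 q.2.2.2 hε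
          refine ⟨f, fun ψ hψ => ?_, hf2, hf3⟩
          obtain ⟨h2, h3⟩ := cond_of_JJ z adj U c ψ hψ
          exact hf1 ψ h2 h3)
    obtain ⟨φ, hφ, hsb⟩ := hpre.exists_strongBoundary Au_norm_one Au_norm_le
    exact ⟨φ, (cond_of_JJ z adj U c φ hφ).1, hsb⟩

end

end Pool.Agent.Lib.MP_164614_an
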